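import Pool.Agent.H612.PG.Cert

/-!
# Polynomial functions of bounded degree
-/

namespace Pool.Agent.H612.PG

open Pool.Agent.NPC Pool.Agent.NPC.ER Pool.Agent.NPC.H612

/-- Polynomial functions of degree at most `M`. -/
def UF (M : ℕ) (f : ℝ → ℝ) : Prop :=
  ∃ p : Polynomial ℝ, p.natDegree ≤ M ∧ ∀ x, f x = p.eval x

namespace UF

variable {M M' : ℕ} {f g : ℝ → ℝ}

theorem mono (h : UF M f) (hM : M ≤ M') : UF M' f := by
  obtain ⟨p, h1, h2⟩ := h
  exact ⟨p, h1.trans hM, h2⟩

theorem const (M : ℕ) (c : ℝ) : UF M fun _ => c :=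
  ⟨Polynomial.C c, by simp, fun x => by simp⟩

theorem id : UF 1 fun x => x :=
  ⟨Polynomial.X, Polynomial.natDegree_X_le, fun x => by simp⟩

theorem add (hf : UF M f) (hg : UF M' g) : UF (max M M') fun x => f x + g x := by
  obtain ⟨p, h1, h2⟩ := hf
  obtain ⟨q, h3, h4⟩ := hg
  refine ⟨p + q, (Polynomial.natDegree_add_le _ _).trans (max_le_max h1 h3), fun x => ?_⟩
  show f x + g x = _
  rw [Polynomial.eval_add, h2, h4]

theorem neg (hf : UF M f) : UF M fun x => -f x := by
  obtain ⟨p, h1, h2⟩ := hf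
  refine ⟨-p, by rwa [Polynomial.natDegree_neg], fun x => ?_⟩
  show -f x = _
  rw [Polynomial.eval_neg, h2]

theorem sub (hf : UF M f) (hg : UF M' g) : UF (max M M') fun x => f x - g x := by
  simp only [sub_eq_add_neg]
  exact hf.add hg.neg

theorem mul (hf : UF M f) (hg : UF M' g) : UF (M + M') fun x => f x * g x := by
  obtain ⟨p, h1, h2⟩ := hf
  obtain ⟨q, h3, h4⟩ := hg
  refine ⟨p * q, (Polynomial.natDegree_mul_le).trans (Nat.add_le_add h1 h3), fun x => ?_⟩
  show f x * g x = _
  rw [Polynomial.eval_mul, h2, h4]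

theorem pow (hf : UF M f) (n : ℕ) : UF (n * M) fun x => f x ^ n := by
  obtain ⟨p, h1, h2⟩ := hf
  refine ⟨p ^ n, (Polynomial.natDegree_pow_le).trans (Nat.mul_le_mul_left _ h1), fun x => ?_⟩
  show f x ^ n = _
  rw [Polynomial.eval_pow, h2]

theorem sum {ι : Type} (s : Finset ι) {f : ι → ℝ → ℝ} (h : ∀ i ∈ s, UF M (f i)) :
    UF M fun x => ∑ i ∈ s, f i x := by
  classical
  induction s using Finset.induction_on with
  | empty => simpa using const M 0
  | insert a s ha ih =>
    simp only [Finset.sum_insert ha]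
    refine ((h a (Finset.mem_insert_self _ _)).add
      (ih fun i hi => h i (Finset.mem_insert_of_mem hi))).mono (by simp)

theorem prod (n : ℕ) {f : ℕ → ℝ → ℝ} (h : ∀ i < n, UF M (f i)) :
    UF (n * M) fun x => ∏ i ∈ Finset.range n, f i x := by
  induction n with
  | zero => simpa using const 0 1
  | succ n ih =>
    simp only [Finset.prod_range_succ]
    refine ((ih fun i hi => h i (by omega)).mul (h n (by omega))).mono ?_
    rw [Nat.succ_mul]

theorem P2 {m m' : ℕ} (hf : UF m f) (hg : UF m' g) (N : ℕ) (c : ℕ → ℕ → ℝ) :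
    UF (N * m + N * m') fun t => PG.P2 N c (f t) (g t) := by
  unfold PG.P2
  refine sum _ fun s hs => sum _ fun t ht => ?_
  rw [Finset.mem_range] at hs ht
  refine (((const 0 (c s t)).mul (hf.pow s)).mul (hg.pow t)).mono ?_
  rw [zero_add]
  exact Nat.add_le_add (Nat.mul_le_mul_right _ hs.le) (Nat.mul_le_mul_right _ ht.le)

theorem P2y {m m' : ℕ} (hf : UF m f) (hg : UF m' g) (N : ℕ) (c : ℕ → ℕ → ℝ) :
    UF (N * m + N * m') fun t => PG.P2y N c (f t) (g t) := by
  unfold PG.P2y
  refine sum _ fun s hs => sum _ fun t ht => ?_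
  rw [Finset.mem_range] at hs ht
  refine (((const 0 (c s t)).mul (hf.pow s)).mul ((const 0 (t : ℝ)).mul (hg.pow (t - 1)))).mono ?_
  rw [zero_add, zero_add]
  exact Nat.add_le_add (Nat.mul_le_mul_right _ hs.le) (Nat.mul_le_mul_right _ (by omega))

/-- Polynomial functions which agree on `0, …, M` are equal. -/
theorem eq_of_grid (hf : UF M f) (hg : UF M g) (h : ∀ n ≤ M, f (n : ℝ) = g (n : ℝ)) (x : ℝ) :
    f x = g x := by
  obtain ⟨p, h1, h2⟩ := hf
  obtain ⟨q, h3, h4⟩ := hg
  have h5 : p = q := by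
    refine Polynomial.eq_of_natDegree_lt_card_of_eval_eq p q
      (f := fun n : Fin (M + 1) => ((n : ℕ) : ℝ)) ?_ ?_ ?_
    · intro a b hab
      simp only [Nat.cast_inj] at hab
      exact Fin.ext hab
    · intro i
      have := h i (by omega)
      rw [h2, h4] at this
      exact this
    · rw [Fintype.card_fin]
      omega
  rw [h2, h4, h5]

theorem list_prod {l : List ℕ} {x : ℕ → ℝ → ℝ} (h : ∀ i, UF 1 (x i)) :
    UF l.length fun t => (l.map fun i => x i t).prod := by
  induction l with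
  | nil => simpa using const 0 1
  | cons a l ih =>
    simp only [List.map_cons, List.prod_cons, List.length_cons]
    exact ((h a).mul ih).mono (by omega)

theorem wval {x : ℕ → ℝ → ℝ} (h : ∀ i, UF 1 (x i)) {D : ℕ} {p : List (ℤ × List ℕ)}
    (hp : ∀ t ∈ p, t.2.length ≤ D) : UF D fun t => NPC.H612.wval (fun i => x i t) p := by
  unfold NPC.H612.wval
  induction p with
  | nil => simpa using const D 0
  | cons a p ih =>
    simp only [List.map_cons, List.sum_cons]
    refine (((const 0 (a.1 : ℝ)).mul (list_prod (l := a.2) h)).add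
      (ih fun t ht => hp t (List.mem_cons_of_mem _ ht))).mono ?_
    rw [zero_add]
    exact max_le (hp a List.mem_cons_self) le_rfl

end UF

/-- Bivariate functions which are polynomial of degree at most `M` in each of the variables. -/
def UF2 (M : ℕ) (f : ℝ → ℝ → ℝ) : Prop := (∀ y, UF M fun x => f x y) ∧ ∀ x, UF M fun y => f x y

theorem UF2.eq_of_grid {M : ℕ} {f g : ℝ → ℝ → ℝ} (hf : UF2 M f) (hg : UF2 M g)
    (h : ∀ n ≤ M, ∀ m ≤ M, f (n : ℝ) (m : ℝ) = g (n : ℝ) (m : ℝ)) (x y : ℝ) : f x y = g x y := by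
  refine UF.eq_of_grid (hf.2 x) (hg.2 x) (fun m hm => ?_) y
  exact UF.eq_of_grid (hf.1 m) (hg.1 m) (fun n hn => h n hn m hm) x

end Pool.Agent.H612.PG
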