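import Pool.Agent.H612.PG.FmDefs
import Pool.Agent.H612.PG.UF

/-!
# The existential formula of the planar art gallery problem: semantics
-/

namespace Pool.Agent.H612.PG

open Pool.Agent.NPC Pool.Agent.NPC.ER Pool.Agent.NPC.H612

/-! ### Decoding -/

/-- Values of the data of a Bezout certificate. -/
def bval (b : BCd) (K s t : ℕ) : ℝ := match K with
  | 0 => b.A s t
  | 1 => b.B s t
  | 2 => b.z s
  | 3 => b.al s
  | _ => b.be s

/-- Values of the data. -/
noncomputable def valOf (d : Dat) (T a b c e K s t : ℕ) : ℝ := match T with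
  | 0 => d.lam
  | 1 => (d.g a).1
  | 2 => (d.g a).2
  | 3 => d.Fc a s t
  | 4 => d.Qc a b s t
  | 5 => d.cc a
  | 6 => d.Ps s t
  | 7 => d.hc a s t
  | 8 => bval d.dPsi K s t
  | 9 => bval (d.dPen a) K s t
  | 10 => bval (d.dFib a) K s t
  | 11 => bval (d.dSeg a b c e) K s t
  | _ => 1 / 2

/-- The assignment given by the data. -/
noncomputable def vOf (d : Dat) (n : ℕ) : ℝ :=
  valOf d n.unpair.1 n.unpair.2.unpair.1 n.unpair.2.unpair.2.unpair.1
    n.unpair.2.unpair.2.unpair.2.unpair.1 n.unpair.2.unpair.2.unpair.2.unpair.2.unpair.1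
    n.unpair.2.unpair.2.unpair.2.unpair.2.unpair.2.unpair.1
    n.unpair.2.unpair.2.unpair.2.unpair.2.unpair.2.unpair.2.unpair.1
    n.unpair.2.unpair.2.unpair.2.unpair.2.unpair.2.unpair.2.unpair.2

theorem vOf_nm (d : Dat) (T a b c e K s t : ℕ) :
    vOf d (nm T a b c e K s t) = valOf d T a b c e K s t := by
  unfold vOf nm
  simp only [Nat.unpair_pair]

/-- The data of a Bezout certificate given by an assignment. -/
def bOf (v : ℕ → ℝ) (T a b c e : ℕ) : BCd where
  A s t := v (nm T a b c e 0 s t)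
  B s t := v (nm T a b c e 1 s t)
  z s := v (nm T a b c e 2 s 0)
  al s := v (nm T a b c e 3 s 0)
  be s := v (nm T a b c e 4 s 0)

/-- The data given by an assignment. -/
def datOf (v : ℕ → ℝ) : Dat where
  lam := v (nm 0 0 0 0 0 0 0 0)
  g i := (v (nm 1 i 0 0 0 0 0 0), v (nm 2 i 0 0 0 0 0 0))
  Fc l s t := v (nm 3 l 0 0 0 0 s t)
  Qc j q s t := v (nm 4 j q 0 0 0 s t)
  cc j := v (nm 5 j 0 0 0 0 0 0)
  Ps s t := v (nm 6 0 0 0 0 0 s t)
  hc i s t := v (nm 7 i 0 0 0 0 s t)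
  dPsi := bOf v 8 0 0 0 0
  dPen i := bOf v 9 i 0 0 0
  dFib q := bOf v 10 q 0 0 0
  dSeg q₁ q₂ i l := bOf v 11 q₁ q₂ i l

theorem datOf_vOf (d : Dat) : datOf (vOf d) = d := by
  unfold datOf bOf
  simp only [vOf_nm, valOf, bval]

section

variable {v : ℕ → ℝ}

/-! ### Evaluation -/

theorem eval_sumR (n : ℕ) (f : ℕ → Tm) :
    (sumR n f).eval v = ∑ i ∈ Finset.range n, (f i).eval v := by
  unfold sumR
  rw [eval_sumT, List.map_map, Finset.sum_range]
  rw [← Finset.sum_range (fun i => (f i).eval v), Finset.sum_eq_multiset_sum]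
  rfl

theorem eval_prodR (n : ℕ) (f : ℕ → Tm) :
    (prodR n f).eval v = ∏ i ∈ Finset.range n, (f i).eval v := by
  unfold prodR
  rw [eval_prodT, List.map_map, Finset.prod_eq_multiset_prod]
  rfl

theorem holds_allR (n : ℕ) (f : ℕ → Fm) : (allR n f).Holds v ↔ ∀ i < n, (f i).Holds v := by
  unfold allR
  rw [holds_conj]
  simp

theorem holds_exR (n : ℕ) (f : ℕ → Fm) : (exR n f).Holds v ↔ ∃ i < n, (f i).Holds v := by
  unfold exR
  rw [holds_disj]
  simp

theorem eval_numT (n : ℕ) : (numT n).eval v = n := by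
  unfold numT
  rw [eval_natT, valB_bits]

theorem eval_powR {N s : ℕ} (h : s ≤ N) (x : Tm) : (powR N x s).eval v = x.eval v ^ s := by
  unfold powR
  rw [eval_prodR]
  have h1 : ∀ m ∈ Finset.range N, (if m < s then x else Tm.one).eval v =
      if m ∈ Finset.range s then x.eval v else 1 := by
    intro m _
    simp only [Finset.mem_range]
    split_ifs
    · rfl
    · rfl
  rw [Finset.prod_congr rfl h1, Finset.prod_ite_mem, Finset.prod_const,
    Finset.inter_eq_right.2 (Finset.range_subset_range.2 h), Finset.card_range]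

theorem eval_subT (x y : Tm) : (subT x y).eval v = x.eval v - y.eval v := by
  unfold subT
  rw [Tm.eval, Tm.eval, sub_eq_add_neg]

theorem eval_P2T (N T a b c e K : ℕ) (x y : Tm) : (P2T N T a b c e K x y).eval v =
    P2 N (fun s t => v (nm T a b c e K s t)) (x.eval v) (y.eval v) := by
  unfold P2T P2
  rw [eval_sumR]
  refine Finset.sum_congr rfl fun s hs => ?_
  rw [eval_sumR]
  refine Finset.sum_congr rfl fun t ht => ?_
  rw [Finset.mem_range] at hs ht
  rw [Tm.eval, Tm.eval, eval_powR hs.le, eval_powR ht.le]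
  rfl

theorem eval_P2yT (N T a b c e K : ℕ) (x y : Tm) : (P2yT N T a b c e K x y).eval v =
    P2y N (fun s t => v (nm T a b c e K s t)) (x.eval v) (y.eval v) := by
  unfold P2yT P2y
  rw [eval_sumR]
  refine Finset.sum_congr rfl fun s hs => ?_
  rw [eval_sumR]
  refine Finset.sum_congr rfl fun t ht => ?_
  rw [Finset.mem_range] at hs ht
  rw [Tm.eval, Tm.eval, Tm.eval, eval_powR hs.le, eval_powR (by omega), eval_numT]
  rfl

theorem holds_grid (M : ℕ) (A B : ℕ → ℕ → Tm) : (grid M A B).Holds v ↔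
    ∀ u ≤ M, ∀ w ≤ M, (A u w).eval v = (B u w).eval v := by
  unfold grid
  simp only [holds_allR, Fm.Holds, Nat.lt_succ_iff]

theorem holds_grid_iff {M : ℕ} {A B : ℕ → ℕ → Tm} {f g : ℝ → ℝ → ℝ}
    (hA : ∀ u w : ℕ, (A u w).eval v = f u w) (hB : ∀ u w : ℕ, (B u w).eval v = g u w)
    (hf : UF2 M f) (hg : UF2 M g) : (grid M A B).Holds v ↔ ∀ x y, f x y = g x y := by
  rw [holds_grid]
  simp only [hA, hB]
  exact ⟨fun h => hf.eq_of_grid hg h, fun h u _ w _ => h u w⟩

theorem holds_BCF {M M' n : ℕ} {G G' : ℕ → ℕ → Tm} {g g' : ℝ → ℝ → ℝ}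
    (hG : ∀ u w : ℕ, (G u w).eval v = g u w) (hG' : ∀ u w : ℕ, (G' u w).eval v = g' u w)
    (hg : UF2 M' g) (hg' : UF2 M' g') (hM : 8 * n + M' ≤ M) (T a b c e : ℕ) :
    (BCF M n G G' T a b c e).Holds v ↔ BC n g g' (bOf v T a b c e) := by
  unfold BCF BC
  rw [Fm.Holds, holds_allR]
  refine and_congr Iff.rfl (holds_grid_iff
    (f := fun x y => P2 (8 * n) (bOf v T a b c e).A x y * g x y +
      P2 (8 * n) (bOf v T a b c e).B x y * g' x y)
    (g := fun x _ => (∏ m ∈ Finset.range n, (x - (bOf v T a b c e).z m)) *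
      ∏ m ∈ Finset.range n, ((x - (bOf v T a b c e).al m) ^ 2 + (bOf v T a b c e).be m))
    ?_ ?_ ⟨?_, ?_⟩ ⟨?_, ?_⟩)
  · intro u w
    rw [Tm.eval, Tm.eval, Tm.eval, eval_P2T, eval_P2T, hG, hG', eval_numT, eval_numT]
    rfl
  · intro u w
    rw [Tm.eval, eval_prodR, eval_prodR]
    congr 1
    · refine Finset.prod_congr rfl fun m _ => ?_
      rw [eval_subT, eval_numT]
      rfl
    · refine Finset.prod_congr rfl fun m _ => ?_
      rw [Tm.eval, Tm.eval, eval_subT, eval_numT, sq]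
      rfl
  · intro y
    exact (((UF.id.P2 (UF.const 0 y) (8 * n) _).mul (hg.1 y)).add
      ((UF.id.P2 (UF.const 0 y) (8 * n) _).mul (hg'.1 y))).mono (by simp; omega)
  · intro x
    exact ((((UF.const 0 x).P2 UF.id (8 * n) _).mul (hg.2 x)).add
      (((UF.const 0 x).P2 UF.id (8 * n) _).mul (hg'.2 x))).mono (by simp; omega)
  · intro y
    refine ((UF.prod n (f := fun m x => x - (bOf v T a b c e).z m) (M := 1) fun m _ =>
      (UF.id.sub (UF.const 0 _)).mono (by simp)).mul (UF.prod n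
        (f := fun m x => (x - (bOf v T a b c e).al m) ^ 2 + (bOf v T a b c e).be m) (M := 2)
        fun m _ => (((UF.id.sub (UF.const 0 _)).pow 2).add (UF.const 0 _)).mono
          (by simp))).mono (by omega)
  · intro x
    exact UF.const _ _

/-! ### The parts of the certificate -/

theorem eval_FT (D l : ℕ) (x y : Tm) : (FT D l x y).eval v = (datOf v).F D l (x.eval v) (y.eval v) :=
  eval_P2T _ _ _ _ _ _ _ _ _

theorem eval_QT (D j q : ℕ) (x y : Tm) :
    (QT D j q x y).eval v = (datOf v).Q D j q (x.eval v) (y.eval v) :=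
  eval_P2T _ _ _ _ _ _ _ _ _

theorem eval_PsiT (D k : ℕ) (x y : Tm) :
    (PsiT D k x y).eval v = (datOf v).Psi D k (x.eval v) (y.eval v) :=
  eval_P2T _ _ _ _ _ _ _ _ _

theorem eval_PsiyT (D k : ℕ) (x y : Tm) :
    (PsiyT D k x y).eval v = (datOf v).Psiy D k (x.eval v) (y.eval v) :=
  eval_P2yT _ _ _ _ _ _ _ _ _

theorem eval_hT (D i : ℕ) (x y : Tm) :
    (hT D i x y).eval v = P2 (N0 D) ((datOf v).hc i) (x.eval v) (y.eval v) :=
  eval_P2T _ _ _ _ _ _ _ _ _

theorem eval_hyT (D i : ℕ) (x y : Tm) :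
    (hyT D i x y).eval v = P2y (N0 D) ((datOf v).hc i) (x.eval v) (y.eval v) :=
  eval_P2yT _ _ _ _ _ _ _ _ _

theorem holds_hF : hF.Holds v ↔ halfT.eval v = 1 / 2 := by
  unfold hF
  rw [Fm.Holds, Tm.eval, Tm.eval]
  constructor
  · intro h
    linarith
  · intro h
    linarith

variable (hv : halfT.eval v = 1 / 2)

include hv

theorem eval_smpT (n : ℕ) (f : ℕ → Tm) (q : ℕ) :
    (smpT n f q).eval v = smp n (fun a => (f a).eval v) q := by
  unfold smpT smp
  rw [Tm.eval, Tm.eval, Tm.eval, eval_subT, eval_numT, hv, Tm.eval]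
  ring

theorem eval_xsT (D k q : ℕ) : (xsT D k q).eval v = (datOf v).xs D k q := by
  unfold xsT
  rw [eval_smpT hv]
  unfold Dat.xs
  congr 1
  funext a
  unfold ZfT Dat.Zf
  split_ifs
  · rfl
  · rfl

theorem eval_ysT (D k q₁ q₂ : ℕ) : (ysT D k q₁ q₂).eval v = (datOf v).ys D k q₁ q₂ := by
  unfold ysT
  rw [eval_smpT hv]
  unfold Dat.ys
  congr 1
  funext a
  unfold WfT Dat.Wf
  split_ifs
  · rfl
  · rfl

theorem eval_tsT (D k q₁ q₂ i q₃ : ℕ) :
    (tsT D k q₁ q₂ i q₃).eval v = (datOf v).ts D k q₁ q₂ i q₃ := by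
  unfold tsT
  rw [eval_smpT hv]
  unfold Dat.ts
  congr 1
  funext a
  unfold TfT Dat.Tf
  split_ifs
  · rfl
  · rfl
  · rfl

theorem eval_sxT (D k q₁ q₂ i : ℕ) (t : Tm) :
    (sxT D k q₁ i t).eval v = (datOf v).sx D k q₁ q₂ i (t.eval v) := by
  unfold sxT
  rw [Tm.eval, Tm.eval, eval_subT, eval_xsT hv]
  rfl

theorem eval_syT (D k q₁ q₂ i : ℕ) (t : Tm) :
    (syT D k q₁ q₂ i t).eval v = (datOf v).sy D k q₁ q₂ i (t.eval v) := by
  unfold syT
  rw [Tm.eval, Tm.eval, eval_subT, eval_ysT hv]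
  rfl

omit hv

theorem holds_SF (φ : QF) (x y : Tm) :
    (SF φ x y).Holds v ↔ (x.eval v, y.eval v) ∈ (datOf v).S φ := by
  unfold SF Dat.S
  rw [holds_subF, Set.mem_setOf_eq]
  have : (fun c : Fin 2 => (shT x y c).eval v) =
      ![x.eval v + (datOf v).lam * y.eval v, y.eval v] := by
    funext c
    fin_cases c
    · rfl
    · rfl
  rw [this]

theorem mem_S_congr {φ : QF} {d : Dat} {p q : ℝ × ℝ} (h : p = q) : p ∈ d.S φ ↔ q ∈ d.S φ := by
  rw [h]

/-! ### Bounds -/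

theorem R1_le (D k : ℕ) : D ≤ R1 D k := Nat.le_add_right _ _

theorem N1_le (D k : ℕ) : N1 D ≤ N2 D k := by
  unfold N1 N2
  exact Nat.mul_le_mul_left _ (Nat.pow_le_pow_left (by have := R1_le D k; omega) _)

theorem R1_mul_le (D k : ℕ) : R1 D k * N0 D ≤ N2 D k := by
  have := R1_le D k
  unfold N0 N2
  nlinarith

theorem D_mul_le (D k : ℕ) : D * (2 * N0 D) ≤ 2 * N2 D k := by
  have h := R1_le D k
  have h2 := R1_mul_le D k
  calc D * (2 * N0 D) = 2 * (D * N0 D) := by ring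
    _ ≤ 2 * (R1 D k * N0 D) := Nat.mul_le_mul_left _ (Nat.mul_le_mul_right _ h)
    _ ≤ _ := Nat.mul_le_mul_left _ h2

theorem N0_le (D k : ℕ) : 2 * N0 D + 2 ≤ N2 D k + 2 * D := by
  have := R1_le D k
  unfold N0 N2
  nlinarith

end

end Pool.Agent.H612.PG
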