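import Pool.Agent.H612.PG.FmDefs

/-!
# The formula of the planar art gallery problem is computable in polynomial time
-/

namespace Pool.Agent.NPC.H612.PGP

open Pool.Agent.NPC.ER Pool.Agent.H612.PG

section

variable {α β γ : Type} [TEnc α] [TEnc β] [TEnc γ]

theorem up {f : α → β} (h : Poly f) : Poly (fun q : α × γ => f q.1) := h.comp (Poly.fst Poly.id)

theorem uup {f : α → ℕ} (h : UPoly f) : UPoly (fun q : α × γ => f q.1) :=
  h.comp (Poly.fst Poly.id)

theorem pl : Poly (fun q : α × γ => q.2) := Poly.snd Poly.id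

theorem upoly_sq {n : α → ℕ} (h : UPoly n) : UPoly (fun a => n a ^ 2) := by
  simpa only [sq] using UPoly.mul h h

theorem upoly_N0 {D : α → ℕ} (h : UPoly D) : UPoly (fun a => N0 (D a)) :=
  UPoly.add h (UPoly.const 2)

theorem upoly_N1 {D : α → ℕ} (h : UPoly D) : UPoly (fun a => N1 (D a)) :=
  UPoly.mul (UPoly.const 2) (upoly_sq (UPoly.add h (UPoly.const 2)))

theorem upoly_R1 {D k : α → ℕ} (h : UPoly D) (hk : UPoly k) : UPoly (fun a => R1 (D a) (k a)) :=
  UPoly.add h (UPoly.mul hk (upoly_N1 h))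

theorem upoly_N2 {D k : α → ℕ} (h : UPoly D) (hk : UPoly k) : UPoly (fun a => N2 (D a) (k a)) :=
  UPoly.mul (UPoly.const 2) (upoly_sq (UPoly.add (upoly_R1 h hk) (UPoly.const 2)))

theorem upoly_NX {D k : α → ℕ} (h : UPoly D) (hk : UPoly k) : UPoly (fun a => NX (D a) (k a)) :=
  UPoly.mul (UPoly.const 3) (upoly_sq (UPoly.add (upoly_N2 h hk) hk))

theorem upoly_NT {D k : α → ℕ} (h : UPoly D) (hk : UPoly k) : UPoly (fun a => NT (D a) (k a)) :=
  UPoly.mul (UPoly.const 3) (upoly_sq (UPoly.add (UPoly.mul h (upoly_N2 h hk)) (UPoly.const 2)))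

theorem upoly_GS {D k : α → ℕ} (h : UPoly D) (hk : UPoly k) : UPoly (fun a => GS (D a) (k a)) :=
  UPoly.mul (UPoly.const 20) (upoly_N2 h hk)

/-! ### Combinators -/

theorem poly_sumR {n : α → ℕ} {f : α → ℕ → Tm} (hn : UPoly n)
    (hf : Poly (fun q : α × ℕ => f q.1 q.2)) : Poly (fun a => sumR (n a) (f a)) :=
  poly_sumT (Poly.map (F := f) hn.range hf)

theorem poly_prodR {n : α → ℕ} {f : α → ℕ → Tm} (hn : UPoly n)
    (hf : Poly (fun q : α × ℕ => f q.1 q.2)) : Poly (fun a => prodR (n a) (f a)) :=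
  poly_prodT (Poly.map (F := f) hn.range hf)

theorem poly_allR {n : α → ℕ} {f : α → ℕ → Fm} (hn : UPoly n)
    (hf : Poly (fun q : α × ℕ => f q.1 q.2)) : Poly (fun a => allR (n a) (f a)) :=
  poly_conj (Poly.map (F := f) hn.range hf)

theorem poly_exR {n : α → ℕ} {f : α → ℕ → Fm} (hn : UPoly n)
    (hf : Poly (fun q : α × ℕ => f q.1 q.2)) : Poly (fun a => exR (n a) (f a)) :=
  poly_disj (Poly.map (F := f) hn.range hf)

theorem poly_numT {n : α → ℕ} (hn : Poly n) : Poly (fun a => numT (n a)) :=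
  poly_natT (Poly.natBits hn)

theorem poly_powR {N s : α → ℕ} {x : α → Tm} (hN : UPoly N) (hx : Poly x) (hs : Poly s) :
    Poly (fun a => powR (N a) (x a) (s a)) :=
  poly_prodR (f := fun a m => if m < s a then x a else Tm.one) hN
    (Poly.ite (Poly.decide_lt pl (up hs)) (up hx) (Poly.const _))

theorem poly_subT {x y : α → Tm} (hx : Poly x) (hy : Poly y) :
    Poly (fun a => subT (x a) (y a)) := poly_tadd hx (poly_tneg hy)

theorem poly_vr {T a b c e K s t : α → ℕ} (hT : Poly T) (ha : Poly a) (hb : Poly b) (hc : Poly c)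
    (he : Poly e) (hK : Poly K) (hs : Poly s) (ht : Poly t) :
    Poly (fun x => vr (T x) (a x) (b x) (c x) (e x) (K x) (s x) (t x)) :=
  poly_tvar (poly_natPair hT (poly_natPair ha (poly_natPair hb (poly_natPair hc (poly_natPair he
    (poly_natPair hK (poly_natPair hs ht)))))))

theorem poly_P2T {N T a b c e K : α → ℕ} {x y : α → Tm} (hN : UPoly N) (hT : Poly T)
    (ha : Poly a) (hb : Poly b) (hc : Poly c) (he : Poly e) (hK : Poly K) (hx : Poly x)
    (hy : Poly y) : Poly (fun q => P2T (N q) (T q) (a q) (b q) (c q) (e q) (K q) (x q) (y q)) := by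
  unfold P2T
  refine poly_sumR (f := fun q s => sumR (N q) fun t => Tm.mul (Tm.mul
    (vr (T q) (a q) (b q) (c q) (e q) (K q) s t) (powR (N q) (x q) s)) (powR (N q) (y q) t)) hN ?_
  refine poly_sumR (f := fun (q : α × ℕ) t => Tm.mul (Tm.mul
    (vr (T q.1) (a q.1) (b q.1) (c q.1) (e q.1) (K q.1) q.2 t) (powR (N q.1) (x q.1) q.2))
    (powR (N q.1) (y q.1) t)) (uup hN) ?_
  exact poly_tmul (poly_tmul (poly_vr (up (up hT)) (up (up ha)) (up (up hb)) (up (up hc))
    (up (up he)) (up (up hK)) (up pl) pl) (poly_powR (uup (uup hN)) (up (up hx)) (up pl)))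
    (poly_powR (uup (uup hN)) (up (up hy)) pl)

theorem poly_P2yT {N T a b c e K : α → ℕ} {x y : α → Tm} (hN : UPoly N) (hT : Poly T)
    (ha : Poly a) (hb : Poly b) (hc : Poly c) (he : Poly e) (hK : Poly K) (hx : Poly x)
    (hy : Poly y) :
    Poly (fun q => P2yT (N q) (T q) (a q) (b q) (c q) (e q) (K q) (x q) (y q)) := by
  unfold P2yT
  refine poly_sumR (f := fun q s => sumR (N q) fun t => Tm.mul (Tm.mul
    (vr (T q) (a q) (b q) (c q) (e q) (K q) s t) (powR (N q) (x q) s))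
    (Tm.mul (numT t) (powR (N q) (y q) (t - 1)))) hN ?_
  refine poly_sumR (f := fun (q : α × ℕ) t => Tm.mul (Tm.mul
    (vr (T q.1) (a q.1) (b q.1) (c q.1) (e q.1) (K q.1) q.2 t) (powR (N q.1) (x q.1) q.2))
    (Tm.mul (numT t) (powR (N q.1) (y q.1) (t - 1)))) (uup hN) ?_
  exact poly_tmul (poly_tmul (poly_vr (up (up hT)) (up (up ha)) (up (up hb)) (up (up hc))
    (up (up he)) (up (up hK)) (up pl) pl) (poly_powR (uup (uup hN)) (up (up hx)) (up pl)))
    (poly_tmul (poly_numT pl) (poly_powR (uup (uup hN)) (up (up hy))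
      (Poly.sub pl (Poly.const 1))))

theorem poly_grid {M : α → ℕ} {A B : α → ℕ → ℕ → Tm} (hM : UPoly M)
    (hA : Poly (fun q : (α × ℕ) × ℕ => A q.1.1 q.1.2 q.2))
    (hB : Poly (fun q : (α × ℕ) × ℕ => B q.1.1 q.1.2 q.2)) :
    Poly (fun a => grid (M a) (A a) (B a)) := by
  unfold grid
  have hM' : UPoly (fun a => M a + 1) := UPoly.add hM (UPoly.const 1)
  refine poly_allR (f := fun a u => allR (M a + 1) fun w => Fm.eq (A a u w) (B a u w)) hM' ?_
  exact poly_allR (f := fun (q : α × ℕ) w => Fm.eq (A q.1 q.2 w) (B q.1 q.2 w)) (uup hM')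
    (poly_feq hA hB)

theorem poly_BCF {M n T a b c e : α → ℕ} {G G' : α → ℕ → ℕ → Tm} (hM : UPoly M) (hn : UPoly n)
    (hG : Poly (fun q : (α × ℕ) × ℕ => G q.1.1 q.1.2 q.2))
    (hG' : Poly (fun q : (α × ℕ) × ℕ => G' q.1.1 q.1.2 q.2)) (hT : Poly T)
    (ha : Poly a) (hb : Poly b) (hc : Poly c) (he : Poly e) :
    Poly (fun q => BCF (M q) (n q) (G q) (G' q) (T q) (a q) (b q) (c q) (e q)) := by
  unfold BCF
  have hv3 : ∀ K : ℕ, Poly (fun q : ((α × ℕ) × ℕ) × ℕ =>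
      vr (T q.1.1.1) (a q.1.1.1) (b q.1.1.1) (c q.1.1.1) (e q.1.1.1) K q.2 0) := fun K =>
    poly_vr (up (up (up hT))) (up (up (up ha))) (up (up (up hb))) (up (up (up hc)))
      (up (up (up he))) (Poly.const K) pl (Poly.const 0)
  have hu : Poly (fun q : ((α × ℕ) × ℕ) × ℕ => numT q.1.1.2) := poly_numT (up (up pl))
  refine poly_fand ?_ ?_
  · exact poly_allR (f := fun q m => Fm.lt Tm.zero (vr (T q) (a q) (b q) (c q) (e q) 4 m 0)) hn
      (poly_flt (Poly.const _) (poly_vr (up hT) (up ha) (up hb) (up hc) (up he) (Poly.const 4) pl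
        (Poly.const 0)))
  · refine poly_grid (A := fun q u w => Tm.add (Tm.mul (P2T (8 * n q) (T q) (a q) (b q) (c q) (e q)
        0 (numT u) (numT w)) (G q u w)) (Tm.mul (P2T (8 * n q) (T q) (a q) (b q) (c q) (e q) 1
          (numT u) (numT w)) (G' q u w)))
      (B := fun q u _ => Tm.mul (prodR (n q) fun m => subT (numT u)
        (vr (T q) (a q) (b q) (c q) (e q) 2 m 0)) (prodR (n q) fun m => Tm.add (Tm.mul
        (subT (numT u) (vr (T q) (a q) (b q) (c q) (e q) 3 m 0))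
        (subT (numT u) (vr (T q) (a q) (b q) (c q) (e q) 3 m 0)))
        (vr (T q) (a q) (b q) (c q) (e q) 4 m 0))) hM ?_ ?_
    · have h8 : UPoly (fun q : (α × ℕ) × ℕ => 8 * n q.1.1) :=
        UPoly.mul (UPoly.const 8) (uup (uup hn))
      have hP : ∀ K : ℕ, Poly (fun q : (α × ℕ) × ℕ => P2T (8 * n q.1.1) (T q.1.1) (a q.1.1)
          (b q.1.1) (c q.1.1) (e q.1.1) K (numT q.1.2) (numT q.2)) := fun K =>
        poly_P2T h8 (up (up hT)) (up (up ha)) (up (up hb)) (up (up hc)) (up (up he))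
          (Poly.const K) (poly_numT (up pl)) (poly_numT pl)
      exact poly_tadd (poly_tmul (hP 0) hG) (poly_tmul (hP 1) hG')
    · refine poly_tmul ?_ ?_
      · exact poly_prodR (f := fun (q : (α × ℕ) × ℕ) m => subT (numT q.1.2)
          (vr (T q.1.1) (a q.1.1) (b q.1.1) (c q.1.1) (e q.1.1) 2 m 0)) (uup (uup hn))
          (poly_subT hu (hv3 2))
      · refine poly_prodR (f := fun (q : (α × ℕ) × ℕ) m => Tm.add (Tm.mul
          (subT (numT q.1.2) (vr (T q.1.1) (a q.1.1) (b q.1.1) (c q.1.1) (e q.1.1) 3 m 0))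
          (subT (numT q.1.2) (vr (T q.1.1) (a q.1.1) (b q.1.1) (c q.1.1) (e q.1.1) 3 m 0)))
          (vr (T q.1.1) (a q.1.1) (b q.1.1) (c q.1.1) (e q.1.1) 4 m 0)) (uup (uup hn)) ?_
        exact poly_tadd (poly_tmul (poly_subT hu (hv3 3)) (poly_subT hu (hv3 3))) (hv3 4)

/-! ### The parts of the certificate -/

theorem poly_g1T {i : α → ℕ} (hi : Poly i) : Poly (fun a => g1T (i a)) :=
  poly_vr (Poly.const 1) hi (Poly.const 0) (Poly.const 0) (Poly.const 0) (Poly.const 0)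
    (Poly.const 0) (Poly.const 0)

theorem poly_g2T {i : α → ℕ} (hi : Poly i) : Poly (fun a => g2T (i a)) :=
  poly_vr (Poly.const 2) hi (Poly.const 0) (Poly.const 0) (Poly.const 0) (Poly.const 0)
    (Poly.const 0) (Poly.const 0)

theorem poly_FT {D l : α → ℕ} {x y : α → Tm} (hD : UPoly D) (hl : Poly l) (hx : Poly x)
    (hy : Poly y) : Poly (fun a => FT (D a) (l a) (x a) (y a)) :=
  poly_P2T (upoly_N0 hD) (Poly.const 3) hl (Poly.const 0) (Poly.const 0) (Poly.const 0)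
    (Poly.const 0) hx hy

theorem poly_QT {D j q : α → ℕ} {x y : α → Tm} (hD : UPoly D) (hj : Poly j) (hq : Poly q)
    (hx : Poly x) (hy : Poly y) : Poly (fun a => QT (D a) (j a) (q a) (x a) (y a)) :=
  poly_P2T (upoly_N0 hD) (Poly.const 4) hj hq (Poly.const 0) (Poly.const 0) (Poly.const 0) hx hy

theorem poly_PsiT {D k : α → ℕ} {x y : α → Tm} (hD : UPoly D) (hk : UPoly k)
    (hx : Poly x) (hy : Poly y) : Poly (fun a => PsiT (D a) (k a) (x a) (y a)) :=
  poly_P2T (upoly_N2 hD hk) (Poly.const 6) (Poly.const 0) (Poly.const 0) (Poly.const 0)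
    (Poly.const 0) (Poly.const 0) hx hy

theorem poly_PsiyT {D k : α → ℕ} {x y : α → Tm} (hD : UPoly D) (hk : UPoly k)
    (hx : Poly x) (hy : Poly y) : Poly (fun a => PsiyT (D a) (k a) (x a) (y a)) :=
  poly_P2yT (upoly_N2 hD hk) (Poly.const 6) (Poly.const 0) (Poly.const 0) (Poly.const 0)
    (Poly.const 0) (Poly.const 0) hx hy

theorem poly_hT {D i : α → ℕ} {x y : α → Tm} (hD : UPoly D) (hi : Poly i) (hx : Poly x)
    (hy : Poly y) : Poly (fun a => hT (D a) (i a) (x a) (y a)) :=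
  poly_P2T (upoly_N0 hD) (Poly.const 7) hi (Poly.const 0) (Poly.const 0) (Poly.const 0)
    (Poly.const 0) hx hy

theorem poly_hyT {D i : α → ℕ} {x y : α → Tm} (hD : UPoly D) (hi : Poly i) (hx : Poly x)
    (hy : Poly y) : Poly (fun a => hyT (D a) (i a) (x a) (y a)) :=
  poly_P2yT (upoly_N0 hD) (Poly.const 7) hi (Poly.const 0) (Poly.const 0) (Poly.const 0)
    (Poly.const 0) hx hy

theorem poly_smpT {n q : α → ℕ} {f : α → ℕ → Tm} (hn : Poly n)
    (hf : Poly (fun q : α × ℕ => f q.1 q.2)) (hq : Poly q) :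
    Poly (fun a => smpT (n a) (f a) (q a)) := by
  have h1 : Poly (fun a => q a / 3) := Poly.div hq (Poly.const 3)
  have h2 : Poly (fun a => f a (q a / 3 / n a)) :=
    Poly.comp (g := fun p : α × ℕ => f p.1 p.2) hf (Poly.pair Poly.id (Poly.div h1 hn))
  have h3 : Poly (fun a => f a (q a / 3 % n a)) :=
    Poly.comp (g := fun p : α × ℕ => f p.1 p.2) hf (Poly.pair Poly.id (Poly.mod h1 hn))
  exact poly_tadd (poly_tmul (poly_tadd h2 h3) (Poly.const _))
    (poly_subT (poly_numT (Poly.mod hq (Poly.const 3))) (Poly.const _))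

theorem poly_xsT {D k q : α → ℕ} (hD : UPoly D) (hk : UPoly k) (hq : Poly q) :
    Poly (fun a => xsT (D a) (k a) (q a)) := by
  refine poly_smpT (f := fun a => ZfT (D a) (k a)) (UPoly.add (upoly_N2 hD hk) hk).toPoly ?_ hq
  have h2 := up (γ := ℕ) (upoly_N2 hD hk).toPoly
  exact Poly.ite (Poly.decide_lt pl h2) (poly_vr (Poly.const 8) (Poly.const 0) (Poly.const 0)
    (Poly.const 0) (Poly.const 0) (Poly.const 2) pl (Poly.const 0))
    (poly_g1T (Poly.sub pl h2))

theorem poly_ysT {D k q₁ q₂ : α → ℕ} (hD : UPoly D) (hk : UPoly k) (hq₁ : Poly q₁)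
    (hq₂ : Poly q₂) : Poly (fun a => ysT (D a) (k a) (q₁ a) (q₂ a)) := by
  refine poly_smpT (f := fun a => WfT (D a) (k a) (q₁ a))
    (UPoly.add (upoly_N2 hD hk) hk).toPoly ?_ hq₂
  have h2 := up (γ := ℕ) (upoly_N2 hD hk).toPoly
  exact Poly.ite (Poly.decide_lt pl h2) (poly_vr (Poly.const 10) (up hq₁) (Poly.const 0)
    (Poly.const 0) (Poly.const 0) (Poly.const 2) pl (Poly.const 0))
    (poly_g2T (Poly.sub pl h2))

theorem poly_tsT {D k q₁ q₂ i q₃ : α → ℕ} (hD : UPoly D) (hk : UPoly k) (hq₁ : Poly q₁)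
    (hq₂ : Poly q₂) (hi : Poly i) (hq₃ : Poly q₃) :
    Poly (fun a => tsT (D a) (k a) (q₁ a) (q₂ a) (i a) (q₃ a)) := by
  have hDN : UPoly (fun a => D a * N2 (D a) (k a)) := UPoly.mul hD (upoly_N2 hD hk)
  refine poly_smpT (f := fun a => TfT (D a) (k a) (q₁ a) (q₂ a) (i a))
    (UPoly.add hDN (UPoly.const 2)).toPoly ?_ hq₃
  have h2 := up (γ := ℕ) (upoly_N2 hD hk).toPoly
  have h3 := up (γ := ℕ) hDN.toPoly
  exact Poly.ite (Poly.decide_lt pl h3) (poly_vr (Poly.const 11) (up hq₁) (up hq₂) (up hi)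
    (Poly.div pl h2) (Poly.const 2) (Poly.mod pl h2) (Poly.const 0))
    (Poly.ite (Poly.decide_eq pl h3) (Poly.const _) (Poly.const _))

theorem poly_sxT {D k q₁ i : α → ℕ} {t : α → Tm} (hD : UPoly D) (hk : UPoly k) (hq₁ : Poly q₁)
    (hi : Poly i) (ht : Poly t) : Poly (fun a => sxT (D a) (k a) (q₁ a) (i a) (t a)) :=
  poly_tadd (poly_g1T hi) (poly_tmul ht (poly_subT (poly_xsT hD hk hq₁) (poly_g1T hi)))

theorem poly_syT {D k q₁ q₂ i : α → ℕ} {t : α → Tm} (hD : UPoly D) (hk : UPoly k)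
    (hq₁ : Poly q₁) (hq₂ : Poly q₂) (hi : Poly i) (ht : Poly t) :
    Poly (fun a => syT (D a) (k a) (q₁ a) (q₂ a) (i a) (t a)) :=
  poly_tadd (poly_g2T hi) (poly_tmul ht (poly_subT (poly_ysT hD hk hq₁ hq₂) (poly_g2T hi)))

theorem poly_shT {x y : α → Tm} {c : α → ℕ} (hx : Poly x) (hy : Poly y) (hc : Poly c) :
    Poly (fun a => shT (x a) (y a) (c a)) :=
  Poly.ite (Poly.decide_eq hc (Poly.const 0)) (poly_tadd hx (poly_tmul (Poly.const _) hy)) hy

theorem poly_SF {φ : α → QF} {x y : α → Tm} (hφ : Poly φ) (hx : Poly x) (hy : Poly y) :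
    Poly (fun a => SF (φ a) (x a) (y a)) :=
  poly_subF (d := fun _ => 2) (σ := fun a c => shT (x a) (y a) c) (Poly.const 2)
    (poly_shT (up hx) (up hy) pl) hφ

/-! ### The conditions -/

theorem poly_f1 {k : α → ℕ} {φ : α → QF} (hk : UPoly k) (hφ : Poly φ) :
    Poly (fun a => f1 (k a) (φ a)) :=
  poly_allR (f := fun a i => SF (φ a) (g1T i) (g2T i)) hk
    (poly_SF (up hφ) (poly_g1T pl) (poly_g2T pl))

theorem poly_f1' {k : α → ℕ} (hk : UPoly k) : Poly (fun a => f1' (k a)) := by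
  refine poly_allR (f := fun a i => allR (k a) fun j => if i = j then tt else
    Fm.or (Fm.not (Fm.eq (g1T i) (g1T j))) (Fm.not (Fm.eq (g2T i) (g2T j)))) hk ?_
  refine poly_allR (f := fun (q : α × ℕ) j => if q.2 = j then tt else
    Fm.or (Fm.not (Fm.eq (g1T q.2) (g1T j))) (Fm.not (Fm.eq (g2T q.2) (g2T j)))) (uup hk) ?_
  exact Poly.ite (Poly.decide_eq (up pl) pl) (Poly.const _)
    (poly_for (poly_fnot (poly_feq (poly_g1T (up pl)) (poly_g1T pl)))
      (poly_fnot (poly_feq (poly_g2T (up pl)) (poly_g2T pl))))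

theorem poly_f2 {D k J : α → ℕ} (hD : UPoly D) (hk : UPoly k) (hJ : UPoly J) :
    Poly (fun a => f2 (D a) (k a) (J a)) := by
  unfold f2
  have hG := upoly_GS hD hk
  refine poly_allR (f := fun a j => allR (D a) fun q =>
    Fm.or (exR (D a) fun l => grid (GS (D a) (k a)) (fun x y => QT (D a) j q (numT x) (numT y))
      (fun x y => FT (D a) l (numT x) (numT y)))
    (grid (GS (D a) (k a)) (fun x y => QT (D a) j q (numT x) (numT y)) fun _ _ => Tm.one)) hJ ?_
  refine poly_allR (f := fun (p : α × ℕ) q =>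
    Fm.or (exR (D p.1) fun l => grid (GS (D p.1) (k p.1))
      (fun x y => QT (D p.1) p.2 q (numT x) (numT y))
      (fun x y => FT (D p.1) l (numT x) (numT y)))
    (grid (GS (D p.1) (k p.1)) (fun x y => QT (D p.1) p.2 q (numT x) (numT y))
      fun _ _ => Tm.one)) (uup hD) ?_
  refine poly_for ?_ ?_
  · refine poly_exR (f := fun (p : (α × ℕ) × ℕ) l => grid (GS (D p.1.1) (k p.1.1))
      (fun x y => QT (D p.1.1) p.1.2 p.2 (numT x) (numT y))
      (fun x y => FT (D p.1.1) l (numT x) (numT y))) (uup (uup hD)) ?_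
    refine poly_grid (A := fun (p : ((α × ℕ) × ℕ) × ℕ) x y =>
      QT (D p.1.1.1) p.1.1.2 p.1.2 (numT x) (numT y))
      (B := fun (p : ((α × ℕ) × ℕ) × ℕ) x y => FT (D p.1.1.1) p.2 (numT x) (numT y))
      (uup (uup (uup hG))) ?_ ?_
    · exact poly_QT (uup (uup (uup (uup (uup hD))))) (up (up (up (up pl)))) (up (up (up pl)))
        (poly_numT (up pl)) (poly_numT pl)
    · exact poly_FT (uup (uup (uup (uup (uup hD))))) (up (up pl)) (poly_numT (up pl))
        (poly_numT pl)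
  · refine poly_grid (A := fun (p : (α × ℕ) × ℕ) x y =>
      QT (D p.1.1) p.1.2 p.2 (numT x) (numT y)) (B := fun (p : (α × ℕ) × ℕ) _ _ => Tm.one)
      (uup (uup hG)) ?_ (Poly.const _)
    exact poly_QT (uup (uup (uup (uup hD)))) (up (up (up pl))) (up (up pl))
      (poly_numT (up pl)) (poly_numT pl)

theorem poly_f3 {D k : α → ℕ} {φ : α → QF} (hD : UPoly D) (hk : UPoly k) (hφ : Poly φ) :
    Poly (fun a => f3 (D a) (k a) (φ a)) := by
  unfold f3
  have hG := upoly_GS hD hk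
  have hp := poly_polys hφ
  refine poly_allR (f := fun a j => grid (GS (D a) (k a))
    (fun x y => pT 2 (shT (numT x) (numT y)) ((φ a).polys.getD j []))
    (fun x y => Tm.mul (vr 5 j 0 0 0 0 0 0) (prodR (D a) fun q => QT (D a) j q (numT x) (numT y))))
    (UPoly.length hp) ?_
  refine poly_grid (A := fun (p : α × ℕ) x y =>
      pT 2 (shT (numT x) (numT y)) ((φ p.1).polys.getD p.2 []))
    (B := fun (p : α × ℕ) x y => Tm.mul (vr 5 p.2 0 0 0 0 0 0)
      (prodR (D p.1) fun q => QT (D p.1) p.2 q (numT x) (numT y))) (uup hG) ?_ ?_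
  · exact poly_pT (d := fun _ => 2) (σ := fun (p : ((α × ℕ) × ℕ) × ℕ) c =>
      shT (numT p.1.2) (numT p.2) c) (Poly.const 2)
      (poly_shT (poly_numT (up (up pl))) (poly_numT (up pl)) pl)
      (Poly.getD (up (up (up hp))) (up (up pl)) (Poly.const []))
  · refine poly_tmul (poly_vr (Poly.const 5) (up (up pl)) (Poly.const 0) (Poly.const 0)
      (Poly.const 0) (Poly.const 0) (Poly.const 0) (Poly.const 0)) ?_
    refine poly_prodR (f := fun (p : ((α × ℕ) × ℕ) × ℕ) q =>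
      QT (D p.1.1.1) p.1.1.2 q (numT p.1.2) (numT p.2)) (uup (uup (uup hD))) ?_
    exact poly_QT (uup (uup (uup (uup hD)))) (up (up (up pl))) pl (poly_numT (up (up pl)))
      (poly_numT (up pl))

theorem poly_f4 {D k : α → ℕ} (hD : UPoly D) (hk : UPoly k) :
    Poly (fun a => f4 (D a) (k a)) := by
  unfold f4
  have hN := upoly_N2 hD hk
  refine poly_exR (f := fun a n => Fm.and (Fm.eq (vr 6 0 0 0 0 0 0 n) Tm.one)
    (allR (N2 (D a) (k a)) fun s => allR (N2 (D a) (k a)) fun t =>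
      if (t = n ∧ s ≠ 0) ∨ n < t then Fm.eq (vr 6 0 0 0 0 0 s t) Tm.zero else tt)) hN ?_
  refine poly_fand (poly_feq (poly_vr (Poly.const 6) (Poly.const 0) (Poly.const 0) (Poly.const 0)
    (Poly.const 0) (Poly.const 0) (Poly.const 0) pl) (Poly.const _)) ?_
  refine poly_allR (f := fun (p : α × ℕ) s => allR (N2 (D p.1) (k p.1)) fun t =>
      if (t = p.2 ∧ s ≠ 0) ∨ p.2 < t then Fm.eq (vr 6 0 0 0 0 0 s t) Tm.zero else tt)
      (uup hN) ?_
  refine poly_allR (f := fun (p : (α × ℕ) × ℕ) t =>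
      if (t = p.1.2 ∧ p.2 ≠ 0) ∨ p.1.2 < t then Fm.eq (vr 6 0 0 0 0 0 p.2 t) Tm.zero else tt)
      (uup (uup hN)) ?_
  refine Poly.ite (Poly.decide_or (Poly.decide_and (Poly.decide_eq pl (up (up pl)))
    (Poly.decide_not (Poly.decide_eq (up pl) (Poly.const 0)))) (Poly.decide_lt (up (up pl)) pl))
    (poly_feq (poly_vr (Poly.const 6) (Poly.const 0) (Poly.const 0) (Poly.const 0)
    (Poly.const 0) (Poly.const 0) (up pl) pl) (Poly.const _)) (Poly.const _)

theorem poly_f5 {D k : α → ℕ} (hD : UPoly D) (hk : UPoly k) :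
    Poly (fun a => f5 (D a) (k a)) := by
  unfold f5
  refine poly_grid (A := fun a x y => prodR (R1 (D a) (k a)) fun l => FT (D a) l (numT x) (numT y))
    (B := fun a x y => PsiT (D a) (k a) (numT x) (numT y)) (upoly_GS hD hk) ?_ ?_
  · refine poly_prodR (f := fun (p : (α × ℕ) × ℕ) l => FT (D p.1.1) l (numT p.1.2) (numT p.2))
      (uup (uup (upoly_R1 hD hk))) ?_
    exact poly_FT (uup (uup (uup hD))) pl (poly_numT (up (up pl))) (poly_numT (up pl))
  · exact poly_PsiT (uup (uup hD)) (uup (uup hk)) (poly_numT (up pl)) (poly_numT pl)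

theorem poly_f6 {D k : α → ℕ} (hD : UPoly D) (hk : UPoly k) :
    Poly (fun a => f6 (D a) (k a)) := by
  unfold f6
  refine poly_BCF (G := fun a x y => PsiT (D a) (k a) (numT x) (numT y))
    (G' := fun a x y => PsiyT (D a) (k a) (numT x) (numT y)) (upoly_GS hD hk) (upoly_N2 hD hk)
    ?_ ?_ (Poly.const 8) (Poly.const 0) (Poly.const 0) (Poly.const 0) (Poly.const 0)
  · exact poly_PsiT (uup (uup hD)) (uup (uup hk)) (poly_numT (up pl)) (poly_numT pl)
  · exact poly_PsiyT (uup (uup hD)) (uup (uup hk)) (poly_numT (up pl)) (poly_numT pl)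

theorem poly_f7 {D k : α → ℕ} (hD : UPoly D) (hk : UPoly k) :
    Poly (fun a => f7 (D a) (k a)) := by
  unfold f7
  have hG := upoly_GS hD hk
  have hD1 : UPoly (fun a => D a + 1) := UPoly.add hD (UPoly.const 1)
  refine poly_allR (f := fun a i => exR (D a + 1) fun b => grid (GS (D a) (k a))
    (fun m r => prodR (D a) fun l => FT (D a) l (Tm.add (g1T i) (numT r))
      (Tm.add (g2T i) (Tm.mul (numT m) (numT r))))
    (fun m r => Tm.mul (powR (D a + 1) (numT r) b) (hT (D a) i (numT m) (numT r)))) hk ?_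
  refine poly_exR (f := fun (p : α × ℕ) b => grid (GS (D p.1) (k p.1))
    (fun m r => prodR (D p.1) fun l => FT (D p.1) l (Tm.add (g1T p.2) (numT r))
      (Tm.add (g2T p.2) (Tm.mul (numT m) (numT r))))
    (fun m r => Tm.mul (powR (D p.1 + 1) (numT r) b) (hT (D p.1) p.2 (numT m) (numT r))))
    (uup hD1) ?_
  refine poly_grid (A := fun (p : (α × ℕ) × ℕ) m r => prodR (D p.1.1) fun l =>
      FT (D p.1.1) l (Tm.add (g1T p.1.2) (numT r))
      (Tm.add (g2T p.1.2) (Tm.mul (numT m) (numT r))))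
    (B := fun (p : (α × ℕ) × ℕ) m r => Tm.mul (powR (D p.1.1 + 1) (numT r) p.2)
      (hT (D p.1.1) p.1.2 (numT m) (numT r))) (uup (uup hG)) ?_ ?_
  · refine poly_prodR (f := fun (p : (((α × ℕ) × ℕ) × ℕ) × ℕ) l =>
      FT (D p.1.1.1.1) l (Tm.add (g1T p.1.1.1.2) (numT p.2))
      (Tm.add (g2T p.1.1.1.2) (Tm.mul (numT p.1.2) (numT p.2)))) (uup (uup (uup (uup hD)))) ?_
    exact poly_FT (uup (uup (uup (uup (uup hD))))) pl
      (poly_tadd (poly_g1T (up (up (up (up pl))))) (poly_numT (up pl)))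
      (poly_tadd (poly_g2T (up (up (up (up pl))))) (poly_tmul (poly_numT (up (up pl)))
        (poly_numT (up pl))))
  · exact poly_tmul (poly_powR (uup (uup (uup (uup hD1)))) (poly_numT pl) (up (up pl)))
      (poly_hT (uup (uup (uup (uup hD)))) (up (up (up pl))) (poly_numT (up pl)) (poly_numT pl))

theorem poly_f8 {D k : α → ℕ} (hD : UPoly D) (hk : UPoly k) :
    Poly (fun a => f8 (D a) (k a)) := by
  unfold f8
  have hG := upoly_GS hD hk
  refine poly_allR (f := fun a i => BCF (GS (D a) (k a)) (N1 (D a))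
    (fun m r => Tm.mul (numT r) (hT (D a) i (numT m) (numT r)))
    (fun m r => Tm.add (hT (D a) i (numT m) (numT r)) (Tm.mul (numT r)
      (hyT (D a) i (numT m) (numT r)))) 9 i 0 0 0) hk ?_
  have h1 : Poly (fun p : (((α × ℕ) × ℕ) × ℕ) => hT (D p.1.1.1) p.1.1.2 (numT p.1.2) (numT p.2)) :=
    poly_hT (uup (uup (uup hD))) (up (up pl)) (poly_numT (up pl)) (poly_numT pl)
  have h2 : Poly (fun p : (((α × ℕ) × ℕ) × ℕ) => hyT (D p.1.1.1) p.1.1.2 (numT p.1.2) (numT p.2)) :=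
    poly_hyT (uup (uup (uup hD))) (up (up pl)) (poly_numT (up pl)) (poly_numT pl)
  exact poly_BCF (G := fun (p : α × ℕ) m r => Tm.mul (numT r) (hT (D p.1) p.2 (numT m) (numT r)))
    (G' := fun (p : α × ℕ) m r => Tm.add (hT (D p.1) p.2 (numT m) (numT r)) (Tm.mul (numT r)
      (hyT (D p.1) p.2 (numT m) (numT r)))) (uup hG) (uup (upoly_N1 hD))
    (poly_tmul (poly_numT pl) h1) (poly_tadd h1 (poly_tmul (poly_numT pl) h2))
    (Poly.const 9) pl (Poly.const 0) (Poly.const 0) (Poly.const 0)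

theorem poly_f9 {D k : α → ℕ} (hD : UPoly D) (hk : UPoly k) :
    Poly (fun a => f9 (D a) (k a)) := by
  unfold f9
  have hG := upoly_GS hD hk
  refine poly_allR (f := fun a i => allR (N1 (D a)) fun c => exR (R1 (D a) (k a)) fun l =>
    grid (GS (D a) (k a)) (fun x y => FT (D a) l (numT x) (numT y))
      (fun x y => subT (subT (numT y) (g2T i)) (Tm.mul (vr 9 i 0 0 0 2 c 0)
        (subT (numT x) (g1T i))))) hk ?_
  refine poly_allR (f := fun (p : α × ℕ) c => exR (R1 (D p.1) (k p.1)) fun l =>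
    grid (GS (D p.1) (k p.1)) (fun x y => FT (D p.1) l (numT x) (numT y))
      (fun x y => subT (subT (numT y) (g2T p.2)) (Tm.mul (vr 9 p.2 0 0 0 2 c 0)
        (subT (numT x) (g1T p.2))))) (uup (upoly_N1 hD)) ?_
  refine poly_exR (f := fun (p : (α × ℕ) × ℕ) l =>
    grid (GS (D p.1.1) (k p.1.1)) (fun x y => FT (D p.1.1) l (numT x) (numT y))
      (fun x y => subT (subT (numT y) (g2T p.1.2)) (Tm.mul (vr 9 p.1.2 0 0 0 2 p.2 0)
        (subT (numT x) (g1T p.1.2))))) (uup (uup (upoly_R1 hD hk))) ?_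
  refine poly_grid (A := fun (p : ((α × ℕ) × ℕ) × ℕ) x y => FT (D p.1.1.1) p.2 (numT x) (numT y))
    (B := fun (p : ((α × ℕ) × ℕ) × ℕ) x y => subT (subT (numT y) (g2T p.1.1.2))
      (Tm.mul (vr 9 p.1.1.2 0 0 0 2 p.1.2 0) (subT (numT x) (g1T p.1.1.2))))
      (uup (uup (uup hG))) ?_ ?_
  · exact poly_FT (uup (uup (uup (uup (uup hD))))) (up (up pl)) (poly_numT (up pl))
      (poly_numT pl)
  · exact poly_subT (poly_subT (poly_numT pl) (poly_g2T (up (up (up (up pl))))))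
      (poly_tmul (poly_vr (Poly.const 9) (up (up (up (up pl)))) (Poly.const 0) (Poly.const 0)
        (Poly.const 0) (Poly.const 2) (up (up (up pl))) (Poly.const 0))
        (poly_subT (poly_numT (up pl)) (poly_g1T (up (up (up (up pl)))))))

theorem poly_f10 {D k : α → ℕ} (hD : UPoly D) (hk : UPoly k) :
    Poly (fun a => f10 (D a) (k a)) := by
  unfold f10
  have hG := upoly_GS hD hk
  refine poly_allR (f := fun a q => BCF (GS (D a) (k a)) (N2 (D a) (k a))
    (fun y _ => PsiT (D a) (k a) (xsT (D a) (k a) q) (numT y)) (fun _ _ => Tm.zero) 10 q 0 0 0)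
    (upoly_NX hD hk) ?_
  refine poly_BCF (G := fun (p : α × ℕ) y _ => PsiT (D p.1) (k p.1) (xsT (D p.1) (k p.1) p.2)
    (numT y)) (G' := fun (p : α × ℕ) _ _ => Tm.zero) (uup hG) (uup (upoly_N2 hD hk)) ?_
    (Poly.const _) (Poly.const 10) pl (Poly.const 0) (Poly.const 0) (Poly.const 0)
  exact poly_PsiT (uup (uup (uup hD))) (uup (uup (uup hk))) (poly_xsT (uup (uup (uup hD)))
    (uup (uup (uup hk))) (up (up pl))) (poly_numT (up pl))

theorem poly_sgT {D k q₁ q₂ i l t : α → ℕ} (hD : UPoly D) (hk : UPoly k) (hq₁ : Poly q₁)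
    (hq₂ : Poly q₂) (hi : Poly i) (hl : Poly l) (ht : Poly t) :
    Poly (fun a => sgT (D a) (k a) (q₁ a) (q₂ a) (i a) (l a) (t a)) :=
  poly_FT hD hl (poly_sxT hD hk hq₁ hi (poly_numT ht)) (poly_syT hD hk hq₁ hq₂ hi (poly_numT ht))

theorem poly_svF {D k q₁ q₂ i q₃ : α → ℕ} {φ : α → QF} (hD : UPoly D) (hk : UPoly k)
    (hφ : Poly φ) (hq₁ : Poly q₁) (hq₂ : Poly q₂) (hi : Poly i) (hq₃ : Poly q₃) :
    Poly (fun a => svF (D a) (k a) (φ a) (q₁ a) (q₂ a) (i a) (q₃ a)) := by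
  have ht := poly_tsT hD hk hq₁ hq₂ hi hq₃
  exact poly_for (poly_fnot (poly_fand (poly_fle (Poly.const _) ht) (poly_fle ht (Poly.const _))))
    (poly_SF hφ (poly_sxT hD hk hq₁ hi ht) (poly_syT hD hk hq₁ hq₂ hi ht))

theorem poly_srF {D k q₁ q₂ i l : α → ℕ} (hD : UPoly D) (hk : UPoly k)
    (hq₁ : Poly q₁) (hq₂ : Poly q₂) (hi : Poly i) (hl : Poly l) :
    Poly (fun a => srF (D a) (k a) (q₁ a) (q₂ a) (i a) (l a)) := by
  have h1 : Poly (fun p : (α × ℕ) × ℕ =>
      sgT (D p.1.1) (k p.1.1) (q₁ p.1.1) (q₂ p.1.1) (i p.1.1) (l p.1.1) p.1.2) :=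
    poly_sgT (uup (uup hD)) (uup (uup hk)) (up (up hq₁)) (up (up hq₂)) (up (up hi)) (up (up hl))
      (up pl)
  exact poly_for (poly_grid (A := fun a t _ => sgT (D a) (k a) (q₁ a) (q₂ a) (i a) (l a) t)
    (B := fun _ _ _ => Tm.zero) (upoly_GS hD hk) h1 (Poly.const _))
    (poly_BCF (G := fun a t _ => sgT (D a) (k a) (q₁ a) (q₂ a) (i a) (l a) t)
    (G' := fun _ _ _ => Tm.zero) (upoly_GS hD hk) (upoly_N2 hD hk) h1 (Poly.const _)
    (Poly.const 11) hq₁ hq₂ hi hl)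

theorem poly_f11 {D k : α → ℕ} {φ : α → QF} (hD : UPoly D) (hk : UPoly k) (hφ : Poly φ) :
    Poly (fun a => f11 (D a) (k a) (φ a)) := by
  unfold f11
  refine poly_allR (f := fun a q₁ => allR (NX (D a) (k a)) fun q₂ =>
    Fm.or (Fm.not (SF (φ a) (xsT (D a) (k a) q₁) (ysT (D a) (k a) q₁ q₂))) (exR (k a) fun i =>
    Fm.and (allR (D a) fun l => srF (D a) (k a) q₁ q₂ i l) (allR (NT (D a) (k a)) fun q₃ =>
      svF (D a) (k a) (φ a) q₁ q₂ i q₃))) (upoly_NX hD hk) ?_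
  refine poly_allR (f := fun (p : α × ℕ) q₂ =>
    Fm.or (Fm.not (SF (φ p.1) (xsT (D p.1) (k p.1) p.2) (ysT (D p.1) (k p.1) p.2 q₂)))
    (exR (k p.1) fun i => Fm.and (allR (D p.1) fun l => srF (D p.1) (k p.1) p.2 q₂ i l)
      (allR (NT (D p.1) (k p.1)) fun q₃ => svF (D p.1) (k p.1) (φ p.1) p.2 q₂ i q₃)))
    (uup (upoly_NX hD hk)) ?_
  refine poly_for (poly_fnot (poly_SF (up (up hφ)) (poly_xsT (uup (uup hD)) (uup (uup hk)) (up pl))
    (poly_ysT (uup (uup hD)) (uup (uup hk)) (up pl) pl))) ?_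
  refine poly_exR (f := fun (p : (α × ℕ) × ℕ) i =>
    Fm.and (allR (D p.1.1) fun l => srF (D p.1.1) (k p.1.1) p.1.2 p.2 i l)
      (allR (NT (D p.1.1) (k p.1.1)) fun q₃ => svF (D p.1.1) (k p.1.1) (φ p.1.1) p.1.2 p.2 i q₃))
    (uup (uup hk)) ?_
  refine poly_fand ?_ ?_
  · refine poly_allR (f := fun (p : ((α × ℕ) × ℕ) × ℕ) l =>
      srF (D p.1.1.1) (k p.1.1.1) p.1.1.2 p.1.2 p.2 l) (uup (uup (uup hD))) ?_
    exact poly_srF (uup (uup (uup (uup hD)))) (uup (uup (uup (uup hk)))) (up (up (up pl)))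
      (up (up pl)) (up pl) pl
  · refine poly_allR (f := fun (p : ((α × ℕ) × ℕ) × ℕ) q₃ =>
      svF (D p.1.1.1) (k p.1.1.1) (φ p.1.1.1) p.1.1.2 p.1.2 p.2 q₃)
      (uup (uup (uup (upoly_NT hD hk)))) ?_
    exact poly_svF (uup (uup (uup (uup hD)))) (uup (uup (uup (uup hk)))) (up (up (up (up hφ))))
      (up (up (up pl))) (up (up pl)) (up pl) pl

theorem upoly_szD {φ : α → QF} (hφ : Poly φ) : UPoly (fun a => szD (φ a)) := by
  unfold szD
  refine UPoly.length (Poly.flatMap (F := fun _ (p : PolyData) => p.flatMap fun t => t.2)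
    (poly_polys hφ) ?_)
  exact Poly.flatMap (l := fun q : α × PolyData => q.2) (F := fun _ (t : ℤ × List ℕ) => t.2)
    (Poly.snd Poly.id) (Poly.snd (Poly.snd Poly.id))

theorem poly_pgFm {k : α → ℕ} {φ : α → QF} (hk : UPoly k) (hφ : Poly φ) :
    Poly (fun a => pgFm (k a) (φ a)) := by
  have hD := upoly_szD hφ
  unfold pgFm
  exact poly_conj (Poly.cons (Poly.const _) (Poly.cons (poly_f1 hk hφ) (Poly.cons (poly_f1' hk)
    (Poly.cons (poly_f2 hD hk (UPoly.length (poly_polys hφ))) (Poly.cons (poly_f3 hD hk hφ)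
    (Poly.cons (poly_f4 hD hk) (Poly.cons (poly_f5 hD hk) (Poly.cons (poly_f6 hD hk)
    (Poly.cons (poly_f7 hD hk) (Poly.cons (poly_f8 hD hk) (Poly.cons (poly_f9 hD hk)
    (Poly.cons (poly_f10 hD hk) (Poly.cons (poly_f11 hD hk hφ) (Poly.const []))))))))))))))

end

end Pool.Agent.NPC.H612.PGP
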