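import Mathlib

/-!
# Bivariate real polynomials: degrees

`f : ℝ[X][Y]` is regarded as a polynomial in the outer variable `Y`; `f.evalEval x y` is its value
for `X = x`, `Y = y`.
-/

namespace Pool.Agent.H612.PG

open Polynomial
open scoped Polynomial.Bivariate

/-- The degree in the inner variable. -/
noncomputable def dX (f : ℝ[X][Y]) : ℕ := (Bivariate.swap (R := ℝ) f).natDegree

/-- The total degree is at most `D`. -/
def TD (D : ℕ) (f : ℝ[X][Y]) : Prop := ∀ s t, (f.coeff t).coeff s ≠ 0 → s + t ≤ D

end Pool.Agent.H612.PG
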