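import Pool.Agent.H612.PG.AlgDefs

/-! Stubs of the algebraic tasks. -/

namespace Pool.Agent.H612.PG

open Polynomial
open scoped Polynomial.Bivariate

/-- K1. A generic shear makes finitely many polynomials monic in `Y` up to a constant. -/
theorem exists_shear (L : List ℝ[X][Y]) (D : ℕ) (hL : ∀ f ∈ L, TD D f) :
    ∃ lam : ℝ, ∀ f ∈ L, f ≠ 0 → ∃ (c : ℝ) (g : ℝ[X][Y]), c ≠ 0 ∧ g.Monic ∧ TD D g ∧
      ∀ x y, f.evalEval (x + lam * y) y = c * g.evalEval x y := by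
  sorry

/-- K2. Factorization of monic polynomials into monic irreducible polynomials. -/
theorem exists_monic_factors (f : ℝ[X][Y]) (hf : f.Monic) :
    ∃ l : List ℝ[X][Y], (∀ q ∈ l, q.Monic ∧ Irreducible q) ∧ l.prod = f := by
  sorry

/-- K2b. Degrees of factors. -/
theorem td_of_dvd {D : ℕ} {f g : ℝ[X][Y]} (hg : g ≠ 0) (h : f ∣ g) (hD : TD D g) : TD D f := by
  sorry

/-- K3. Products of distinct monic irreducible polynomials are squarefree. -/
theorem squarefree_prod (l : List ℝ[X][Y]) (hl : ∀ q ∈ l, q.Monic ∧ Irreducible q)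
    (hn : l.Nodup) : Squarefree l.prod := by
  sorry

/-- K5. Bezout identity with degree bounds. -/
theorem exists_bezout (G : ℝ[X][Y]) (hG : Squarefree G) (h0 : G ≠ 0) (a b : ℕ) (ha : dX G ≤ a)
    (hb : G.natDegree ≤ b) : ∃ (A B : ℝ[X][Y]) (r : ℝ[X]), r ≠ 0 ∧
      A * G + B * derivative G = C r ∧ dX A ≤ 2 * a * b ∧ dX B ≤ 2 * a * b ∧
      A.natDegree ≤ b ∧ B.natDegree ≤ b ∧ r.natDegree ≤ 2 * a * b + a := by
  sorry

/-- K4. The restrictions of `Φ` to the lines through the point `(x₀, y₀)`; here `h` is a polynomial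
in `m` (inner variable) and `ρ` (outer variable). -/
theorem exists_pencil (Φ : ℝ[X][Y]) (hm : Φ.Monic) (hsq : Squarefree Φ) (x₀ y₀ : ℝ) (D : ℕ)
    (hD : TD D Φ) : ∃ (a : ℕ) (h : ℝ[X][Y]), a ≤ D ∧ h ≠ 0 ∧ Squarefree (X * h) ∧ dX h ≤ D ∧
      h.natDegree ≤ D ∧
      ∀ m ρ, Φ.evalEval (x₀ + ρ) (y₀ + m * ρ) = ρ ^ a * h.evalEval m ρ := by
  sorry

/-- K6. Every nonzero real polynomial of degree at most `n` divides a product of `n` linear factors
and `n` positive quadratic factors. -/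
theorem exists_real_factor (r : ℝ[X]) (n : ℕ) (hr : r ≠ 0) (hn : r.natDegree ≤ n) :
    ∃ (E : ℝ[X]) (z α β : ℕ → ℝ), (∀ b, 0 < β b) ∧ E.natDegree ≤ 3 * n ∧
      r * E = (∏ a ∈ Finset.range n, (X - C (z a))) *
        ∏ b ∈ Finset.range n, ((X - C (α b)) ^ 2 + C (β b)) := by
  sorry

end Pool.Agent.H612.PG
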