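import Pool.Agent.H612.PG.AlgDefs

/-! # K5: Bezout identity with degree bounds -/

namespace Pool.Agent.H612.PG

open Polynomial
open scoped Polynomial.Bivariate

namespace Bez

theorem coeff_coeff_swap (f : ℝ[X][Y]) (i j : ℕ) :
    ((Bivariate.swap (R := ℝ) f).coeff i).coeff j = (f.coeff j).coeff i := by
  induction f using Polynomial.induction_on' with
  | add p q hp hq => simp [map_add, hp, hq]
  | monomial n g =>
    induction g using Polynomial.induction_on' with
    | add p q hp hq =>
      rw [map_add, map_add, coeff_add, coeff_add, hp, hq, coeff_add, coeff_add]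
    | monomial m r =>
      rw [Bivariate.swap_monomial_monomial, coeff_monomial, coeff_monomial]
      by_cases h1 : m = i <;> by_cases h2 : n = j <;> simp [h1, h2, coeff_monomial]

theorem dX_le_iff (f : ℝ[X][Y]) (N : ℕ) : dX f ≤ N ↔ ∀ j, (f.coeff j).natDegree ≤ N := by
  constructor
  · intro h j
    rw [natDegree_le_iff_coeff_eq_zero]
    intro i hi
    rw [← coeff_coeff_swap]
    have : (Bivariate.swap (R := ℝ) f).coeff i = 0 :=
      coeff_eq_zero_of_natDegree_lt (lt_of_le_of_lt h hi)
    rw [this, coeff_zero]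
  · intro h
    unfold dX
    rw [natDegree_le_iff_coeff_eq_zero]
    intro i hi
    ext j
    rw [coeff_coeff_swap, coeff_zero]
    exact coeff_eq_zero_of_natDegree_lt (lt_of_le_of_lt (h j) hi)

theorem dX_mul_le (f g : ℝ[X][Y]) : dX (f * g) ≤ dX f + dX g := by
  unfold dX
  rw [map_mul]
  exact natDegree_mul_le

theorem dX_derivative_le (f : ℝ[X][Y]) : dX (derivative f) ≤ dX f := by
  rw [dX_le_iff]
  intro j
  rw [coeff_derivative]
  have h := (dX_le_iff f (dX f)).1 le_rfl (j + 1)
  have : (((j : ℝ[X]) + 1)) = C ((j : ℝ) + 1) := by simp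
  rw [this]
  refine le_trans (natDegree_mul_C_le _ _) h

/-- The polynomial with a given array of coefficients. -/
noncomputable def F (p q : ℕ) : (Fin p → Fin q → ℝ) →ₗ[ℝ] ℝ[X][Y] where
  toFun v := ∑ j : Fin p, ∑ i : Fin q, monomial (j : ℕ) (monomial (i : ℕ) (v j i))
  map_add' u v := by simp [Finset.sum_add_distrib]
  map_smul' c v := by
    simp only [Pi.smul_apply, RingHom.id_apply, Finset.smul_sum]
    refine Finset.sum_congr rfl fun j _ => Finset.sum_congr rfl fun i _ => ?_
    rw [smul_monomial, smul_monomial]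

theorem F_coeff (p q : ℕ) (v : Fin p → Fin q → ℝ) (j : Fin p) (i : Fin q) :
    ((F p q v).coeff j).coeff i = v j i := by
  simp only [F, LinearMap.coe_mk, AddHom.coe_mk, finset_sum_coeff, coeff_monomial]
  rw [Finset.sum_eq_single j]
  · rw [Finset.sum_eq_single i]
    · simp
    · intro b _ hb
      have : (b : ℕ) ≠ i := fun h => hb (Fin.ext h)
      simp [coeff_monomial, this]
    · simp
  · intro b _ hb
    have : (b : ℕ) ≠ j := fun h => hb (Fin.ext h)
    simp [this]
  · simp

theorem F_natDegree_le (p q : ℕ) (v : Fin p → Fin q → ℝ) : (F p q v).natDegree ≤ p - 1 := by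
  simp only [F, LinearMap.coe_mk, AddHom.coe_mk]
  refine natDegree_sum_le_of_forall_le _ _ fun j _ => natDegree_sum_le_of_forall_le _ _ fun i _ => ?_
  exact le_trans (natDegree_monomial_le _) (by have := j.2; omega)

theorem F_dX_le (p q : ℕ) (v : Fin p → Fin q → ℝ) : dX (F p q v) ≤ q - 1 := by
  rw [dX_le_iff]
  intro t
  simp only [F, LinearMap.coe_mk, AddHom.coe_mk, finset_sum_coeff]
  refine natDegree_sum_le_of_forall_le _ _ fun j _ => natDegree_sum_le_of_forall_le _ _ fun i _ => ?_
  rw [coeff_monomial]
  split_ifs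
  · exact le_trans (natDegree_monomial_le _) (by have := i.2; omega)
  · simp

theorem not_dvd_derivative {G p : ℝ[X][Y]} (hG : Squarefree G) (hp : Prime p) (h : p ∣ G)
    (hd : p.natDegree ≠ 0) : ¬ p ∣ derivative G := by
  intro hdv
  obtain ⟨G1, rfl⟩ := h
  have h1 : ¬ p ∣ G1 := by
    intro h
    have := hG p (mul_dvd_mul_left p h)
    exact hp.not_unit this
  rw [derivative_mul] at hdv
  have h2 : p ∣ derivative p * G1 := by
    have := (dvd_add_left (a := p) (b := derivative p * G1) (c := p * derivative G1)
      (dvd_mul_right p _)).1 hdv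
    exact this
  rcases hp.dvd_or_dvd h2 with h3 | h3
  · have h4 : derivative p ≠ 0 := by
      intro h
      exact hd (natDegree_eq_zero_of_derivative_eq_zero h)
    have h5 := natDegree_le_of_dvd h3 h4
    have h6 := natDegree_derivative_lt hd
    omega
  · exact h1 h3

theorem dvd_C_mul {G B : ℝ[X][Y]} (hG : Squarefree G) (h0 : G ≠ 0)
    (hB : G ∣ B * derivative G) : ∀ H : ℝ[X][Y], H ∣ G → ∃ c : ℝ[X], c ≠ 0 ∧ H ∣ C c * B := by
  intro H
  induction H using UniqueFactorizationMonoid.induction_on_prime with
  | h₁ => 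
    intro h
    exact absurd (zero_dvd_iff.1 h) h0
  | h₂ x hx =>
    intro _
    exact ⟨1, one_ne_zero, hx.dvd⟩
  | h₃ H' p hH' hp ih =>
    intro h
    have hpG : p ∣ G := dvd_trans (dvd_mul_right p H') h
    obtain ⟨c, hc, hc'⟩ := ih (dvd_trans (dvd_mul_left H' p) h)
    by_cases hd : p.natDegree = 0
    · obtain ⟨p0, hp0⟩ := natDegree_eq_zero.1 hd
      refine ⟨p0 * c, mul_ne_zero ?_ hc, ?_⟩
      · rintro rfl
        apply hp.ne_zero
        rw [← hp0, C_0]
      · rw [C_mul, hp0, mul_assoc]
        exact mul_dvd_mul_left p hc'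
    · refine ⟨c, hc, ?_⟩
      have h1 : p ∣ B := by
        have : p ∣ B * derivative G := dvd_trans hpG hB
        exact (hp.dvd_or_dvd this).resolve_right (not_dvd_derivative hG hp hpG hd)
      obtain ⟨t, ht⟩ := hc'
      have h2 : p ∣ H' * t := by
        rw [← ht]
        exact dvd_mul_of_dvd_right h1 _
      have h3 : ¬ p ∣ H' := by
        intro h3
        exact hp.not_unit (hG p (dvd_trans (mul_dvd_mul_left p h3) h))
      have h4 : p ∣ t := (hp.dvd_or_dvd h2).resolve_left h3
      rw [ht, mul_comm p H']
      exact mul_dvd_mul_left H' h4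

theorem eq_zero_of_comb {G A B : ℝ[X][Y]} (hG : Squarefree G) (h0 : G ≠ 0)
    (h : A * G + B * derivative G = 0) (hB : B.natDegree < G.natDegree) : A = 0 ∧ B = 0 := by
  have hB0 : B = 0 := by
    have h1 : G ∣ B * derivative G := by
      refine ⟨-A, ?_⟩
      linear_combination h
    obtain ⟨c, hc, hc'⟩ := dvd_C_mul hG h0 h1 G dvd_rfl
    by_contra hne
    have h2 : C c * B ≠ 0 := mul_ne_zero (C_ne_zero.2 hc) hne
    have h3 := natDegree_le_of_dvd hc' h2
    rw [natDegree_C_mul hc] at h3
    omega
  refine ⟨?_, hB0⟩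
  rw [hB0, zero_mul, add_zero] at h
  exact (mul_eq_zero.1 h).resolve_right h0

/-- The linear system. -/
noncomputable def T (G : ℝ[X][Y]) (n K M : ℕ) :
    ((Fin (n - 1) → Fin (K + 1) → ℝ) × (Fin n → Fin (K + 1) → ℝ)) →ₗ[ℝ]
      (Fin (2 * n - 2) → Fin M → ℝ) where
  toFun w := fun j i => ((F _ _ w.1 * G + F _ _ w.2 * derivative G).coeff (j + 1)).coeff i
  map_add' u v := by
    ext j i
    simp only [Prod.fst_add, Prod.snd_add, map_add, add_mul, coeff_add, Pi.add_apply]
    ring
  map_smul' c v := by
    ext j i
    simp only [Prod.smul_fst, Prod.smul_snd, map_smul, smul_mul_assoc, coeff_add, coeff_smul,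
      Pi.smul_apply, RingHom.id_apply, smul_eq_mul]
    ring

end Bez

open Bez

/-- K5. Bezout identity with degree bounds. -/
theorem exists_bezout (G : ℝ[X][Y]) (hG : Squarefree G) (h0 : G ≠ 0) (a b : ℕ) (ha : dX G ≤ a)
    (hb : G.natDegree ≤ b) : ∃ (A B : ℝ[X][Y]) (r : ℝ[X]), r ≠ 0 ∧
      A * G + B * derivative G = C r ∧ dX A ≤ 2 * a * b ∧ dX B ≤ 2 * a * b ∧
      A.natDegree ≤ b ∧ B.natDegree ≤ b ∧ r.natDegree ≤ 2 * a * b + a := by
  by_cases hn : G.natDegree = 0
  · obtain ⟨r, hr⟩ := natDegree_eq_zero.1 hn
    refine ⟨1, 0, r, ?_, ?_, ?_, ?_, ?_, ?_, ?_⟩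
    · rintro rfl
      exact h0 (by rw [← hr, C_0])
    · rw [hr]; simp
    · have : dX (1 : ℝ[X][Y]) = 0 := by unfold dX; rw [map_one]; simp
      omega
    · have : dX (0 : ℝ[X][Y]) = 0 := by unfold dX; rw [map_zero]; simp
      omega
    · simp
    · simp
    · have h1 := (dX_le_iff G a).1 ha 0
      rw [← hr, coeff_C_zero] at h1
      omega
  · set n := G.natDegree with hnd
    set a' := dX G with had
    obtain ⟨K, hK⟩ : ∃ K, K = 2 * n * a' := ⟨_, rfl⟩
    have hKle : K ≤ 2 * a * b := by
      rw [hK]
      calc 2 * n * a' ≤ 2 * b * a := Nat.mul_le_mul (Nat.mul_le_mul_left 2 hb) ha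
        _ = 2 * a * b := by ring
    have hker : LinearMap.ker (T G n K (K + a' + 1)) ≠ ⊥ := by
      apply LinearMap.ker_ne_bot_of_finrank_lt
      rw [Module.finrank_prod]
      simp only [Module.finrank_pi_fintype, Module.finrank_self, Finset.sum_const,
        Finset.card_univ, Fintype.card_fin, smul_eq_mul, mul_one]
      obtain ⟨m, hm⟩ : ∃ m, n = m + 1 := ⟨n - 1, by omega⟩
      have e1 : n - 1 = m := by omega
      have e2 : 2 * n - 2 = 2 * m := by omega
      rw [e1, e2, hm, hK, hm]
      nlinarith
    obtain ⟨w, hw, hw0⟩ := (Submodule.ne_bot_iff _).1 hker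
    have hw' := LinearMap.mem_ker.1 hw
    set A := F _ _ w.1 with hA
    set B := F _ _ w.2 with hB
    have hAd : A.natDegree ≤ n - 1 - 1 := F_natDegree_le _ _ _
    have hBd : B.natDegree ≤ n - 1 := F_natDegree_le _ _ _
    have hAX : dX A ≤ K := by simpa using F_dX_le _ _ w.1
    have hBX : dX B ≤ K := by simpa using F_dX_le _ _ w.2
    have hcomb : ∀ j, ((A * G + B * derivative G).coeff j).natDegree ≤ K + a' := by
      intro j
      rw [coeff_add]
      refine le_trans (natDegree_add_le _ _) (max_le ?_ ?_)
      · exact (dX_le_iff _ _).1 (le_trans (dX_mul_le _ _) (by omega)) j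
      · have := dX_derivative_le G
        exact (dX_le_iff _ _).1 (le_trans (dX_mul_le _ _) (by omega)) j
    have hC : A * G + B * derivative G = C ((A * G + B * derivative G).coeff 0) := by
      ext j i
      rcases Nat.eq_zero_or_pos j with rfl | hj
      · rw [coeff_C_zero]
      · rw [coeff_C_ne_zero (by omega), coeff_zero]
        by_cases hj2 : j ≤ 2 * n - 2
        · by_cases hi : i < K + a' + 1
          · have := congrFun (congrFun hw' ⟨j - 1, by omega⟩) ⟨i, hi⟩
            have e : j - 1 + 1 = j := by omega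
            simpa [T, ← hA, ← hB, e] using this
          · exact coeff_eq_zero_of_natDegree_lt (lt_of_le_of_lt (hcomb j) (by omega))
        · have hz : (A * G + B * derivative G).coeff j = 0 := by
            rcases Nat.lt_or_ge 1 n with h1 | h1
            · apply coeff_eq_zero_of_natDegree_lt
              refine lt_of_le_of_lt (natDegree_add_le _ _) (max_lt ?_ ?_)
              · refine lt_of_le_of_lt natDegree_mul_le ?_
                omega
              · refine lt_of_le_of_lt natDegree_mul_le ?_
                have := natDegree_derivative_le G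
                omega
            · have hA0 : A = 0 := by
                have hn1 : n - 1 = 0 := by omega
                rw [hA]
                simp only [F, LinearMap.coe_mk, AddHom.coe_mk]
                apply Finset.sum_eq_zero
                intro x _
                exact absurd x.2 (by omega)
              rw [hA0, zero_mul, zero_add]
              apply coeff_eq_zero_of_natDegree_lt
              refine lt_of_le_of_lt natDegree_mul_le ?_
              have := natDegree_derivative_le G
              omega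
          rw [hz, coeff_zero]
    refine ⟨A, B, (A * G + B * derivative G).coeff 0, ?_, hC, le_trans hAX hKle,
      le_trans hBX hKle, by omega, by omega, ?_⟩
    · intro hr
      rw [hr, C_0] at hC
      obtain ⟨hA0, hB0⟩ := eq_zero_of_comb hG h0 hC (by omega)
      apply hw0
      refine Prod.ext ?_ ?_
      · funext j i
        have := F_coeff _ _ w.1 j i
        rw [← hA, hA0] at this
        simpa using this.symm
      · funext j i
        have := F_coeff _ _ w.2 j i
        rw [← hB, hB0] at this
        simpa using this.symm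
    · have := hcomb 0
      omega

end Pool.Agent.H612.PG
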