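import Pool.Agent.H612.Gal
import Pool.Agent.H612.PG.AlgDefs

/-!
# Certificates for guards of planar semialgebraic sets: definitions
-/

namespace Pool.Agent.H612.PG

open Pool.Agent.NPC.H612

/-- A bivariate polynomial given by an array of coefficients. -/
noncomputable def P2 (N : ℕ) (c : ℕ → ℕ → ℝ) (x y : ℝ) : ℝ :=
  ∑ s ∈ Finset.range N, ∑ t ∈ Finset.range N, c s t * x ^ s * y ^ t

/-- Its derivative with respect to `y`. -/
noncomputable def P2y (N : ℕ) (c : ℕ → ℕ → ℝ) (x y : ℝ) : ℝ :=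
  ∑ s ∈ Finset.range N, ∑ t ∈ Finset.range N, c s t * x ^ s * (t * y ^ (t - 1))

/-- The data of a Bezout certificate. -/
structure BCd where
  A : ℕ → ℕ → ℝ
  B : ℕ → ℕ → ℝ
  z : ℕ → ℝ
  al : ℕ → ℝ
  be : ℕ → ℝ

/-- Bezout certificate: a combination of `G` and `G'` is a polynomial in `u`, all of whose real
roots are among `z 0, …, z (n-1)`. -/
def BC (n : ℕ) (G G' : ℝ → ℝ → ℝ) (d : BCd) : Prop :=
  (∀ b < n, 0 < d.be b) ∧ ∀ u v, P2 (8 * n) d.A u v * G u v + P2 (8 * n) d.B u v * G' u v =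
    (∏ a ∈ Finset.range n, (u - d.z a)) * ∏ b ∈ Finset.range n, ((u - d.al b) ^ 2 + d.be b)

/-- Samples: the numbers `(f a + f b) / 2 + e`, `a, b < n`, `e ∈ {-1, 0, 1}`. -/
noncomputable def smp (n : ℕ) (f : ℕ → ℝ) (q : ℕ) : ℝ :=
  (f (q / 3 / n) + f (q / 3 % n)) / 2 + (((q % 3 : ℕ) : ℝ) - 1)

/-- Size of the arrays of the functions `F l`. -/
def N0 (D : ℕ) : ℕ := D + 2

/-- Number of the critical directions of a guard. -/
def N1 (D : ℕ) : ℕ := 2 * (D + 2) ^ 2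

/-- Number of the functions including critical lines. -/
def R1 (D k : ℕ) : ℕ := D + k * N1 D

/-- Number of the critical abscissas, and size of the array of the product. -/
def N2 (D k : ℕ) : ℕ := 2 * (R1 D k + 2) ^ 2

/-- Number of the samples in both directions. -/
def NX (D k : ℕ) : ℕ := 3 * (N2 D k + k) ^ 2

/-- Number of the samples on a segment. -/
def NT (D k : ℕ) : ℕ := 3 * (D * N2 D k + 2) ^ 2

/-- The data of a certificate. -/
structure Dat where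
  lam : ℝ
  g : ℕ → ℝ × ℝ
  Fc : ℕ → ℕ → ℕ → ℝ
  Qc : ℕ → ℕ → ℕ → ℕ → ℝ
  cc : ℕ → ℝ
  Ps : ℕ → ℕ → ℝ
  hc : ℕ → ℕ → ℕ → ℝ
  dPsi : BCd
  dPen : ℕ → BCd
  dFib : ℕ → BCd
  dSeg : ℕ → ℕ → ℕ → ℕ → BCd

namespace Dat

variable (D k : ℕ) (d : Dat)

/-- The functions `F l`. -/
noncomputable def F (l : ℕ) (x y : ℝ) : ℝ := P2 (N0 D) (d.Fc l) x y

/-- The factors of the polynomials. -/
noncomputable def Q (j q : ℕ) (x y : ℝ) : ℝ := P2 (N0 D) (d.Qc j q) x y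

/-- The product of all functions. -/
noncomputable def Psi (x y : ℝ) : ℝ := P2 (N2 D k) d.Ps x y

/-- The derivative of the product. -/
noncomputable def Psiy (x y : ℝ) : ℝ := P2y (N2 D k) d.Ps x y

/-- The critical abscissas. -/
noncomputable def Zf (a : ℕ) : ℝ := if a < N2 D k then d.dPsi.z a else (d.g (a - N2 D k)).1

/-- The sample abscissas. -/
noncomputable def xs (q : ℕ) : ℝ := smp (N2 D k + k) (d.Zf D k) q

/-- The critical ordinates over a sample abscissa. -/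
noncomputable def Wf (q₁ a : ℕ) : ℝ :=
  if a < N2 D k then (d.dFib q₁).z a else (d.g (a - N2 D k)).2

/-- The sample ordinates. -/
noncomputable def ys (q₁ q₂ : ℕ) : ℝ := smp (N2 D k + k) (d.Wf D k q₁) q₂

/-- The critical parameters on a segment. -/
noncomputable def Tf (q₁ q₂ i a : ℕ) : ℝ :=
  if a < D * N2 D k then (d.dSeg q₁ q₂ i (a / N2 D k)).z (a % N2 D k)
  else if a = D * N2 D k then 0 else 1

/-- The sample parameters on a segment. -/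
noncomputable def ts (q₁ q₂ i q₃ : ℕ) : ℝ := smp (D * N2 D k + 2) (d.Tf D k q₁ q₂ i) q₃

/-- First coordinate of the point with parameter `t` of the segment from the guard `i` to a sample
point. -/
noncomputable def sx (q₁ _q₂ i : ℕ) (t : ℝ) : ℝ := (d.g i).1 + t * (d.xs D k q₁ - (d.g i).1)

/-- Second coordinate of the point with parameter `t` of the segment from the guard `i` to a
sample point. -/
noncomputable def sy (q₁ q₂ i : ℕ) (t : ℝ) : ℝ := (d.g i).2 + t * (d.ys D k q₁ q₂ - (d.g i).2)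

/-- The set `S` in sheared coordinates. -/
def S (φ : QF) : Set (ℝ × ℝ) :=
  {p | (![p.1 + d.lam * p.2, p.2] : Fin 2 → ℝ) ∈ gallery 2 φ}

/-- The conditions of a certificate. -/
structure Good (φ : QF) : Prop where
  c1 : ∀ i < k, d.g i ∈ d.S φ
  c1' : ∀ i < k, ∀ j < k, i ≠ j → d.g i ≠ d.g j
  c2 : ∀ j < φ.polys.length, ∀ q < D, (∃ l < D, ∀ x y, d.Q D j q x y = d.F D l x y) ∨
    ∀ x y, d.Q D j q x y = 1
  c3 : ∀ j < φ.polys.length, ∀ x y, wval (xt ![x + d.lam * y, y]) (φ.polys.getD j []) =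
    d.cc j * ∏ q ∈ Finset.range D, d.Q D j q x y
  c4 : ∃ n < N2 D k, d.Ps 0 n = 1 ∧ ∀ s < N2 D k, ∀ t < N2 D k, (t = n ∧ s ≠ 0) ∨ n < t →
    d.Ps s t = 0
  c5 : ∀ x y, ∏ l ∈ Finset.range (R1 D k), d.F D l x y = d.Psi D k x y
  c6 : BC (N2 D k) (d.Psi D k) (d.Psiy D k) d.dPsi
  c7 : ∀ i < k, ∃ a ≤ D, ∀ m ρ, ∏ l ∈ Finset.range D, d.F D l ((d.g i).1 + ρ)
    ((d.g i).2 + m * ρ) = ρ ^ a * P2 (N0 D) (d.hc i) m ρ
  c8 : ∀ i < k, BC (N1 D) (fun m ρ => ρ * P2 (N0 D) (d.hc i) m ρ)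
    (fun m ρ => P2 (N0 D) (d.hc i) m ρ + ρ * P2y (N0 D) (d.hc i) m ρ) (d.dPen i)
  c9 : ∀ i < k, ∀ c < N1 D, ∃ l < R1 D k, ∀ x y, d.F D l x y =
    y - (d.g i).2 - (d.dPen i).z c * (x - (d.g i).1)
  c10 : ∀ q₁ < NX D k, BC (N2 D k) (fun y _ => d.Psi D k (d.xs D k q₁) y) (fun _ _ => 0)
    (d.dFib q₁)
  c11 : ∀ q₁ < NX D k, ∀ q₂ < NX D k, (d.xs D k q₁, d.ys D k q₁ q₂) ∉ d.S φ ∨ ∃ i < k,
    (∀ l < D, (∀ t, d.F D l (d.sx D k q₁ q₂ i t) (d.sy D k q₁ q₂ i t) = 0) ∨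
      BC (N2 D k) (fun t _ => d.F D l (d.sx D k q₁ q₂ i t) (d.sy D k q₁ q₂ i t))
        (fun _ _ => 0) (d.dSeg q₁ q₂ i l)) ∧
    ∀ q₃ < NT D k, 0 ≤ d.ts D k q₁ q₂ i q₃ → d.ts D k q₁ q₂ i q₃ ≤ 1 →
      (d.sx D k q₁ q₂ i (d.ts D k q₁ q₂ i q₃), d.sy D k q₁ q₂ i (d.ts D k q₁ q₂ i q₃)) ∈ d.S φ

end Dat

/-- The number of occurrences of variables in a formula. -/
def szD (φ : QF) : ℕ := (φ.polys.flatMap fun p => p.flatMap fun t => t.2).length

end Pool.Agent.H612.PG
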