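import Pool.Agent.H612.PG.TDeg

/-! Factorization of monic bivariate polynomials. -/

namespace Pool.Agent.H612.PG

open Polynomial
open scoped Polynomial.Bivariate

/-- K2. Factorization of monic polynomials into monic irreducible polynomials. -/
theorem exists_monic_factors (f : ℝ[X][Y]) (hf : f.Monic) :
    ∃ l : List ℝ[X][Y], (∀ q ∈ l, q.Monic ∧ Irreducible q) ∧ l.prod = f := by
  induction hn : f.natDegree using Nat.strong_induction_on generalizing f with
  | _ n ih =>
    by_cases h1 : f = 1
    · exact ⟨[], by simp, by simp [h1]⟩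
    by_cases h2 : Irreducible f
    · exact ⟨[f], by simpa using ⟨hf, h2⟩, by simp⟩
    rw [hf.irreducible_iff_natDegree'] at h2
    push Not at h2
    obtain ⟨a, b, ha, hb, hab, hdeg⟩ := h2 h1
    rw [Finset.mem_Ioc] at hdeg
    have h3 : a.natDegree + b.natDegree = n := by
      rw [← hn, ← hab, ha.natDegree_mul hb]
    have h4 : b.natDegree ≤ n / 2 := hn ▸ hdeg.2
    obtain ⟨l1, h5, h6⟩ := ih a.natDegree (by omega) a ha rfl
    obtain ⟨l2, h7, h8⟩ := ih b.natDegree (by omega) b hb rfl
    refine ⟨l1 ++ l2, ?_, ?_⟩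
    · intro q hq
      rcases List.mem_append.1 hq with hq | hq
      · exact h5 q hq
      · exact h7 q hq
    · rw [List.prod_append, h6, h8, hab]

/-- K3. Products of distinct monic irreducible polynomials are squarefree. -/
theorem squarefree_prod (l : List ℝ[X][Y]) (hl : ∀ q ∈ l, q.Monic ∧ Irreducible q)
    (hn : l.Nodup) : Squarefree l.prod := by
  induction l with
  | nil => simp
  | cons q l ih =>
    rw [List.nodup_cons] at hn
    obtain ⟨hqm, hqi⟩ := hl q List.mem_cons_self
    rw [List.prod_cons, squarefree_mul_iff]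
    refine ⟨?_, hqi.squarefree, ih (fun q hq => hl q (List.mem_cons_of_mem _ hq)) hn.2⟩
    rw [hqi.isRelPrime_iff_not_dvd]
    intro hdvd
    obtain ⟨q', hq', hqq⟩ := (hqi.prime.dvd_prod_iff).1 hdvd
    obtain ⟨hm', hi'⟩ := hl q' (List.mem_cons_of_mem _ hq')
    have hassoc : Associated q q' := hqi.associated_of_dvd hi' hqq
    have : q = q' := eq_of_monic_of_associated hqm hm' hassoc
    exact hn.1 (this ▸ hq')

end Pool.Agent.H612.PG
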