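import Pool.Agent.H612.PG.TDeg

/-! K1: generic shears. -/

namespace Pool.Agent.H612.PG

open Polynomial
open scoped Polynomial.Bivariate

namespace Shear

/-- `f(X + lam Y, Y)` -/
noncomputable def sh (lam : ℝ) : ℝ[X][Y] →+* ℝ[X][Y] :=
  eval₂RingHom (eval₂RingHom (algebraMap ℝ ℝ[X][Y])
    (C (X : Polynomial ℝ) + C (C lam) * (X : ℝ[X][Y]))) (X : ℝ[X][Y])

theorem sh_monomial (lam : ℝ) (s t : ℕ) (a : ℝ) :
    sh lam (monomial t (monomial s a)) =
      C (C a) * (C (X : Polynomial ℝ) + C (C lam) * (X : ℝ[X][Y])) ^ s * (X : ℝ[X][Y]) ^ t := by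
  rw [sh, coe_eval₂RingHom, eval₂_monomial, coe_eval₂RingHom, eval₂_monomial]
  rfl

theorem evalEval_sh (lam x y : ℝ) (f : ℝ[X][Y]) :
    (sh lam f).evalEval x y = f.evalEval (x + lam * y) y := by
  induction f using Polynomial.induction_on' with
  | add p q hp hq => rw [map_add, evalEval_add, evalEval_add, hp, hq]
  | monomial n p =>
    induction p using Polynomial.induction_on' with
    | add p q hp hq =>
      rw [map_add, map_add, evalEval_add, evalEval_add, hp, hq]
    | monomial m a =>
      rw [sh_monomial]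
      simp only [evalEval, eval_mul, eval_pow, eval_add, eval_C, eval_X, eval_monomial]

theorem td_C (a : ℝ) : TD 0 (C (C a)) := by
  intro s t h
  by_cases ht : t = 0
  · subst ht
    by_cases hs : s = 0
    · omega
    · rw [coeff_C_zero, coeff_C_of_ne_zero hs] at h
      exact absurd rfl h
  · rw [coeff_C_of_ne_zero ht] at h
    exact absurd rfl h

theorem td_X : TD 1 (C (X : Polynomial ℝ)) := by
  intro s t h
  by_cases ht : t = 0
  · subst ht
    rw [coeff_C_zero] at h
    by_contra hlt
    rw [coeff_X_of_ne_one (by omega)] at h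
    exact h rfl
  · rw [coeff_C_of_ne_zero ht] at h
    exact absurd rfl h

theorem td_Y : TD 1 (X : ℝ[X][Y]) := by
  intro s t h
  by_cases ht : t = 1
  · subst ht
    rw [coeff_X_one] at h
    by_cases hs : s = 0
    · omega
    · rw [coeff_one, if_neg (by omega)] at h
      exact absurd rfl h
  · rw [coeff_X_of_ne_one ht] at h
    exact absurd rfl h

theorem td_monomial {d s t : ℕ} (lam a : ℝ) (h : s + t ≤ d) :
    TD d (sh lam (monomial t (monomial s a))) := by
  rw [sh_monomial]
  have h1 : TD 1 (C (X : Polynomial ℝ) + C (C lam) * (X : ℝ[X][Y])) := by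
    refine td_add td_X ?_
    have := td_mul (td_C lam) td_Y
    rwa [zero_add] at this
  have h2 := td_mul (td_mul (td_C a) (td_pow h1 s)) (td_pow td_Y t)
  exact td_mono h2 (by omega)

theorem td_sum {ι : Type} (S : Finset ι) (F : ι → ℝ[X][Y]) {d : ℕ} (h : ∀ i ∈ S, TD d (F i)) :
    TD d (∑ i ∈ S, F i) := by
  classical
  induction S using Finset.induction_on with
  | empty =>
    intro s t hst
    simp at hst
  | insert a S ha ih =>
    rw [Finset.sum_insert ha]
    exact td_add (h a (Finset.mem_insert_self _ _))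
      (ih fun i hi => h i (Finset.mem_insert_of_mem hi))

theorem td_sh {d : ℕ} (lam : ℝ) {f : ℝ[X][Y]} (hf : TD d f) : TD d (sh lam f) := by
  have h1 : f = ∑ t ∈ f.support, ∑ s ∈ (f.coeff t).support,
      monomial t (monomial s ((f.coeff t).coeff s)) := by
    conv_lhs => rw [f.as_sum_support]
    refine Finset.sum_congr rfl fun t _ => ?_
    conv_lhs => rw [(f.coeff t).as_sum_support]
    rw [map_sum]
  rw [h1, map_sum]
  apply td_sum
  intro t _
  rw [map_sum]
  apply td_sum
  intro s hs
  exact td_monomial lam _ (hf s t (mem_support_iff.1 hs))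

/-- the polynomial of the top coefficients -/
noncomputable def top (d : ℕ) (f : ℝ[X][Y]) : ℝ[X] :=
  ∑ p ∈ Finset.HasAntidiagonal.antidiagonal d, monomial p.1 ((f.coeff p.2).coeff p.1)

theorem top_add (d : ℕ) (f g : ℝ[X][Y]) : top d (f + g) = top d f + top d g := by
  simp only [top, coeff_add, map_add, Finset.sum_add_distrib]

theorem top_coeff (d s t : ℕ) (f : ℝ[X][Y]) (h : s + t = d) :
    (top d f).coeff s = (f.coeff t).coeff s := by
  rw [top, finsetSum_coeff]
  rw [Finset.sum_eq_single (s, t)]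
  · rw [coeff_monomial, if_pos rfl]
  · rintro ⟨s', t'⟩ h1 h2
    rw [coeff_monomial, if_neg]
    rintro rfl
    apply h2
    rw [Finset.HasAntidiagonal.mem_antidiagonal] at h1
    have : t' = t := by
      simp only at h1
      omega
    rw [this]
  · intro h1
    exact absurd (Finset.HasAntidiagonal.mem_antidiagonal.2 h) h1

theorem top_monomial (d s t : ℕ) (a : ℝ) :
    top d (monomial t (monomial s a)) = if s + t = d then monomial s a else 0 := by
  rw [top]
  split_ifs with h
  · rw [Finset.sum_eq_single (s, t)]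
    · simp
    · rintro ⟨s', t'⟩ h1 h2
      simp only
      rw [coeff_monomial]
      split_ifs with h3
      · rw [coeff_monomial, if_neg, map_zero]
        rintro rfl
        exact h2 (by rw [h3])
      · rw [coeff_zero, map_zero]
    · intro h1
      exact absurd (Finset.HasAntidiagonal.mem_antidiagonal.2 h) h1
  · apply Finset.sum_eq_zero
    rintro ⟨s', t'⟩ h1
    rw [Finset.HasAntidiagonal.mem_antidiagonal] at h1
    simp only at h1 ⊢
    rw [coeff_monomial]
    split_ifs with h3
    · rw [coeff_monomial, if_neg, map_zero]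
      rintro rfl
      exact h (by omega)
    · rw [coeff_zero, map_zero]

theorem map_eval_zero_sh (lam : ℝ) (f : ℝ[X][Y]) (d : ℕ) :
    ((sh lam f).coeff d).coeff 0 = (top d f).eval lam := by
  induction f using Polynomial.induction_on' with
  | add p q hp hq => rw [map_add, coeff_add, coeff_add, hp, hq, top_add, eval_add]
  | monomial n p =>
    induction p using Polynomial.induction_on' with
    | add p q hp hq =>
      rw [map_add, map_add, coeff_add, coeff_add, hp, hq, top_add, eval_add]
    | monomial m a =>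
      have h1 : ((sh lam (monomial n (monomial m a))).coeff d).coeff 0 =
          ((sh lam (monomial n (monomial m a))).map (evalRingHom 0)).coeff d := by
        rw [coeff_map, coe_evalRingHom, coeff_zero_eq_eval_zero]
      rw [h1, sh_monomial, top_monomial]
      simp only [Polynomial.map_mul, Polynomial.map_pow, Polynomial.map_add, map_C, map_X,
        coe_evalRingHom, eval_C, eval_X, map_zero, zero_add]
      have h2 : (C a * (C lam * X) ^ m * X ^ n : ℝ[X]) = C (a * lam ^ m) * X ^ (m + n) := by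
        rw [C_mul, C_pow]
        ring
      rw [h2, coeff_C_mul_X_pow]
      by_cases h : m + n = d
      · rw [if_pos h.symm, if_pos h, eval_monomial]
      · rw [if_neg (fun h' => h h'.symm), if_neg h, eval_zero]

/-- the total degree -/
theorem exists_tdeg {f : ℝ[X][Y]} {D : ℕ} (hf : f ≠ 0) (hD : TD D f) :
    ∃ d, d ≤ D ∧ TD d f ∧ top d f ≠ 0 := by
  classical
  obtain ⟨t0, ht0⟩ : ∃ t, f.coeff t ≠ 0 := by
    by_contra h
    push Not at h
    exact hf (Polynomial.ext (by simpa using h))
  obtain ⟨s0, hs0⟩ : ∃ s, (f.coeff t0).coeff s ≠ 0 := by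
    by_contra h
    push Not at h
    exact ht0 (Polynomial.ext (by simpa using h))
  set P : ℕ → Prop := fun k => ∃ s t, (f.coeff t).coeff s ≠ 0 ∧ s + t = k with hP
  have h1 : P (s0 + t0) := ⟨s0, t0, hs0, rfl⟩
  refine ⟨Nat.findGreatest P D, Nat.findGreatest_le D, ?_, ?_⟩
  · intro s t hst
    exact Nat.le_findGreatest (hD s t hst) ⟨s, t, hst, rfl⟩
  · obtain ⟨s, t, h2, h3⟩ := Nat.findGreatest_spec (P := P) (hD s0 t0 hs0) h1
    intro h4
    have h5 := top_coeff _ s t f h3
    rw [h4, coeff_zero] at h5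
    exact h2 h5.symm

end Shear

open Shear

/-- K1. A generic shear makes finitely many polynomials monic in `Y` up to a constant. -/
theorem exists_shear (L : List ℝ[X][Y]) (D : ℕ) (hL : ∀ f ∈ L, TD D f) :
    ∃ lam : ℝ, ∀ f ∈ L, f ≠ 0 → ∃ (c : ℝ) (g : ℝ[X][Y]), c ≠ 0 ∧ g.Monic ∧ TD D g ∧
      ∀ x y, f.evalEval (x + lam * y) y = c * g.evalEval x y := by
  classical
  have hex : ∀ f : ℝ[X][Y], ∃ (d : ℕ) (p : ℝ[X]), p ≠ 0 ∧ (f ∈ L → f ≠ 0 →
      d ≤ D ∧ TD d f ∧ p = top d f) := by
    intro f
    by_cases h : f ∈ L ∧ f ≠ 0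
    · obtain ⟨d, h1, h2, h3⟩ := exists_tdeg h.2 (hL f h.1)
      exact ⟨d, top d f, h3, fun _ _ => ⟨h1, h2, rfl⟩⟩
    · exact ⟨0, 1, one_ne_zero, fun h1 h2 => absurd ⟨h1, h2⟩ h⟩
  choose d p hp0 hp using hex
  have hprod : (L.map p).prod ≠ 0 := by
    apply List.prod_ne_zero
    intro h
    obtain ⟨f, _, hf⟩ := List.mem_map.1 h
    exact hp0 f hf
  obtain ⟨lam, hlam⟩ : ∃ lam : ℝ, (L.map p).prod.eval lam ≠ 0 := by
    by_contra h
    push Not at h
    exact hprod (Polynomial.funext (by simpa using h))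
  refine ⟨lam, fun f hf hf0 => ?_⟩
  obtain ⟨h1, h2, h3⟩ := hp f hf hf0
  have h4 : (p f).eval lam ≠ 0 := by
    intro h
    apply hlam
    have : (p f) ∣ (L.map p).prod := List.dvd_prod (List.mem_map.2 ⟨f, hf, rfl⟩)
    obtain ⟨k, hk⟩ := this
    rw [hk, eval_mul, h, zero_mul]
  set κ := (p f).eval lam with hκ
  have h5 : ((sh lam f).coeff (d f)).coeff 0 = κ := by
    rw [map_eval_zero_sh, hκ, h3]
  have h6 := td_sh lam h2
  have h7 : (sh lam f).coeff (d f) = C κ := by
    ext s
    by_cases hs : s = 0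
    · subst hs
      rw [h5, coeff_C_zero]
    · rw [coeff_C_of_ne_zero hs]
      by_contra hne
      have := h6 s (d f) hne
      omega
  have h8 : (sh lam f).natDegree ≤ d f := by
    rw [natDegree_le_iff_coeff_eq_zero]
    intro t ht
    ext s
    rw [coeff_zero]
    by_contra hne
    have := h6 s t hne
    omega
  refine ⟨κ, C (C κ⁻¹) * sh lam f, h4, ?_, ?_, ?_⟩
  · refine monic_of_natDegree_le_of_coeff_eq_one (d f) ?_ ?_
    · exact (natDegree_C_mul_le _ _).trans h8
    · rw [coeff_C_mul, h7, ← C_mul, inv_mul_cancel₀ h4, C_1]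
  · have := td_mul (td_C κ⁻¹) h6
    rw [zero_add] at this
    exact td_mono this h1
  · intro x y
    have h9 : (C (C κ⁻¹) * sh lam f).evalEval x y = κ⁻¹ * (sh lam f).evalEval x y := by
      simp [evalEval]
    rw [h9, evalEval_sh, ← mul_assoc, mul_inv_cancel₀ h4, one_mul]

end Pool.Agent.H612.PG
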