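import Pool.Agent.H612.PG.AlgDefs

/-! The total degree through homogenisation. -/

namespace Pool.Agent.H612.PG

open Polynomial
open scoped Polynomial.Bivariate

/-- polynomials in three variables -/
abbrev R3 : Type := Polynomial (Polynomial (Polynomial ℝ))

/-- `f(X T, Y T)` as a polynomial in `T` -/
noncomputable def psi : ℝ[X][Y] →+* R3 :=
  eval₂RingHom (eval₂RingHom (algebraMap ℝ R3)
    ((C (C (X : Polynomial ℝ)) : R3) * (X : R3)))
    ((C (X : Polynomial (Polynomial ℝ)) : R3) * (X : R3))

theorem psi_monomial (s t : ℕ) (a : ℝ) :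
    psi (monomial t (monomial s a)) = monomial (s + t) (monomial t (monomial s a)) := by
  rw [psi, coe_eval₂RingHom, eval₂_monomial, coe_eval₂RingHom, eval₂_monomial]
  have h1 : (algebraMap ℝ R3) a = C (C (C a)) := rfl
  rw [h1]
  simp only [← C_mul_X_pow_eq_monomial, C_mul, C_pow, pow_add]
  ring

theorem psi_coeff (f : ℝ[X][Y]) (k t s : ℕ) :
    (((psi f).coeff k).coeff t).coeff s = if s + t = k then (f.coeff t).coeff s else 0 := by
  induction f using Polynomial.induction_on' with
  | add p q hp hq =>
    rw [map_add]
    simp only [coeff_add, hp, hq]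
    split_ifs <;> simp
  | monomial n p =>
    induction p using Polynomial.induction_on' with
    | add p q hp hq =>
      rw [map_add, map_add]
      simp only [coeff_add, hp, hq]
      split_ifs <;> simp
    | monomial m a =>
      rw [psi_monomial]
      simp only [coeff_monomial]
      by_cases h1 : n = t
      · subst h1
        by_cases h2 : m = s
        · subst h2
          by_cases h3 : m + n = k
          · simp [h3, coeff_monomial]
          · simp [h3, coeff_monomial]
        · by_cases h3 : m + n = k
          · simp [h3, coeff_monomial, h2]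
          · simp [h3, coeff_monomial, h2]
      · by_cases h3 : m + n = k
        · simp [h3, coeff_monomial, h1]
        · simp [h3, coeff_monomial, h1]

theorem td_iff (D : ℕ) (f : ℝ[X][Y]) : TD D f ↔ (psi f).natDegree ≤ D := by
  rw [natDegree_le_iff_coeff_eq_zero]
  constructor
  · intro h N hN
    ext t s
    rw [psi_coeff]
    simp only [coeff_zero]
    split_ifs with h1
    · by_contra hne
      have := h s t hne
      omega
    · rfl
  · intro h s t hne
    by_contra hlt
    have h1 := h (s + t) (by omega)
    have h2 := psi_coeff f (s + t) t s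
    rw [h1, if_pos rfl] at h2
    exact hne (by simpa using h2.symm)

theorem psi_injective : Function.Injective psi := by
  rw [injective_iff_map_eq_zero]
  intro f hf
  ext t s
  have h := psi_coeff f (s + t) t s
  rw [hf, if_pos rfl] at h
  simpa using h.symm

theorem td_mul {D E : ℕ} {f g : ℝ[X][Y]} (hf : TD D f) (hg : TD E g) : TD (D + E) (f * g) := by
  rw [td_iff] at *
  rw [map_mul]
  exact natDegree_mul_le_of_le hf hg

theorem td_add {D : ℕ} {f g : ℝ[X][Y]} (hf : TD D f) (hg : TD D g) : TD D (f + g) := by
  rw [td_iff] at *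
  rw [map_add]
  exact natDegree_add_le_of_degree_le hf hg

theorem td_pow {D : ℕ} {f : ℝ[X][Y]} (hf : TD D f) (n : ℕ) : TD (n * D) (f ^ n) := by
  rw [td_iff] at *
  rw [map_pow]
  exact natDegree_pow_le_of_le n hf

theorem td_mono {D E : ℕ} {f : ℝ[X][Y]} (hf : TD D f) (h : D ≤ E) : TD E f :=
  fun s t hst => (hf s t hst).trans h

/-- K2b. Degrees of factors. -/
theorem td_of_dvd {D : ℕ} {f g : ℝ[X][Y]} (hg : g ≠ 0) (h : f ∣ g) (hD : TD D g) : TD D f := by
  obtain ⟨k, rfl⟩ := h
  rw [td_iff] at *
  rw [map_mul] at hD
  have hf : psi f ≠ 0 := by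
    rw [Ne, map_eq_zero_iff psi psi_injective]
    exact left_ne_zero_of_mul hg
  have hk : psi k ≠ 0 := by
    rw [Ne, map_eq_zero_iff psi psi_injective]
    exact right_ne_zero_of_mul hg
  rw [natDegree_mul hf hk] at hD
  omega

end Pool.Agent.H612.PG
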