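import Pool.Agent.H612.PG.Cert
import Pool.Agent.H612.PG.TDeg
import Pool.Agent.H612.PG.Shear
import Pool.Agent.H612.PG.Factor

/-! Task L4: a base of monic irreducible polynomials. -/

namespace Pool.Agent.H612.PG

open Polynomial
open scoped Polynomial.Bivariate
open Pool.Agent.H612.PG.Shear

namespace CompB

theorem evalEval_ext {p q : ℝ[X][Y]} (h : ∀ x y, p.evalEval x y = q.evalEval x y) : p = q := by
  refine Polynomial.eq_of_infinite_eval_eq p q ?_
  refine Set.Infinite.mono (s := Set.range (C : ℝ → ℝ[X])) ?_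
    (Set.infinite_range_of_injective C_injective)
  rintro _ ⟨y, rfl⟩
  exact Polynomial.funext fun x => h x y

theorem td_natDegree {E : ℕ} {f : ℝ[X][Y]} (hf : TD E f) : f.natDegree ≤ E := by
  rw [natDegree_le_iff_coeff_eq_zero]
  intro N hN
  ext s
  by_contra h
  have := hf s N (by simpa using h)
  omega

theorem length_le (l : List ℝ[X][Y]) (hl : ∀ q ∈ l, q.Monic ∧ Irreducible q) :
    l.length ≤ l.prod.natDegree ∧ l.prod.Monic := by
  induction l with
  | nil => simp
  | cons q l ih =>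
    obtain ⟨hqm, hqi⟩ := hl q List.mem_cons_self
    obtain ⟨h1, h2⟩ := ih fun r hr => hl r (List.mem_cons_of_mem _ hr)
    rw [List.prod_cons, hqm.natDegree_mul h2, List.length_cons]
    refine ⟨?_, hqm.mul h2⟩
    have : q.natDegree ≠ 0 := by
      intro h0
      rw [hqm.natDegree_eq_zero] at h0
      rw [h0] at hqi
      exact not_irreducible_one hqi
    omega

/-- The property of a single polynomial. -/
def Pr (lam : ℝ) (f : ℝ[X][Y]) (E : ℕ) : Prop :=
  ∃ (c : ℝ) (l : List ℝ[X][Y]), (∀ q ∈ l, q.Monic ∧ Irreducible q) ∧ TD E l.prod ∧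
    l.length ≤ E ∧ ∀ x y, f.evalEval (x + lam * y) y = c * l.prod.evalEval x y

theorem td_one (E : ℕ) : TD E (1 : ℝ[X][Y]) := by
  have h := td_mono (td_C 1) (Nat.zero_le E)
  simpa using h

theorem pr_of (lam : ℝ) (f : ℝ[X][Y]) (E : ℕ) (hE : TD E f)
    (h : f ≠ 0 → ∃ (c : ℝ) (g : ℝ[X][Y]), c ≠ 0 ∧ g.Monic ∧
      ∀ x y, f.evalEval (x + lam * y) y = c * g.evalEval x y) : Pr lam f E := by
  by_cases hf : f = 0
  · subst hf
    exact ⟨0, [], by simp, by simpa using td_one E, by simp, by simp⟩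
  · obtain ⟨c, g, hc, hg, he⟩ := h hf
    obtain ⟨l, hl, hp⟩ := exists_monic_factors g hg
    have h1 : g = C (C c⁻¹) * sh lam f := by
      refine evalEval_ext fun x y => ?_
      rw [evalEval_mul, evalEval_sh, he]
      simp only [evalEval_C, eval_C]
      field_simp
    have h2 : TD E g := by
      rw [h1]
      have := td_mul (td_C c⁻¹) (td_sh lam hE)
      rwa [zero_add] at this
    refine ⟨c, l, hl, hp ▸ h2, ?_, by rw [hp]; exact he⟩
    have h3 := (length_le l hl).1
    rw [hp] at h3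
    exact h3.trans (td_natDegree h2)

theorem concat (lam : ℝ) (L : List ℝ[X][Y]) (Ds : List ℕ)
    (h : List.Forall₂ (fun f E => Pr lam f E) L Ds) :
    ∃ M : List ℝ[X][Y], (∀ q ∈ M, q.Monic ∧ Irreducible q) ∧ TD Ds.sum M.prod ∧
      M.length ≤ Ds.sum ∧ ∀ f ∈ L, ∃ (c : ℝ) (l : List ℝ[X][Y]), l.length ≤ Ds.sum ∧
        (∀ q ∈ l, q ∈ M) ∧ ∀ x y, f.evalEval (x + lam * y) y = c * l.prod.evalEval x y := by
  induction h with
  | nil => exact ⟨[], by simp, by simpa using td_one 0, by simp, by simp⟩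
  | @cons f E L Ds hf _ ih =>
    obtain ⟨M, hM, hT, hlen, hfac⟩ := ih
    obtain ⟨c, l, hl, hTl, hll, he⟩ := hf
    refine ⟨l ++ M, ?_, ?_, ?_, ?_⟩
    · intro q hq
      rcases List.mem_append.1 hq with h | h
      · exact hl q h
      · exact hM q h
    · rw [List.prod_append, List.sum_cons]
      exact td_mul hTl hT
    · rw [List.length_append, List.sum_cons]
      omega
    · intro f' hf'
      rw [List.sum_cons]
      rcases List.mem_cons.1 hf' with h | h
      · subst h
        exact ⟨c, l, by omega, fun q hq => List.mem_append_left _ hq, he⟩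
      · obtain ⟨c', l', h1, h2, h3⟩ := hfac f' h
        exact ⟨c', l', by omega, fun q hq => List.mem_append_right _ (h2 q hq), h3⟩

end CompB

open CompB in
/-- L4. A base of monic irreducible polynomials. -/
theorem exists_base (L : List ℝ[X][Y]) (Ds : List ℕ) (D : ℕ)
    (h : List.Forall₂ (fun f E => TD E f) L Ds) (hD : Ds.sum ≤ D) :
    ∃ (lam : ℝ) (B : List ℝ[X][Y]), (∀ q ∈ B, q.Monic ∧ Irreducible q) ∧ B.Nodup ∧
      B.length ≤ D ∧ TD D B.prod ∧ ∀ f ∈ L, ∃ (c : ℝ) (l : List ℝ[X][Y]), l.length ≤ D ∧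
        (∀ q ∈ l, q ∈ B) ∧ ∀ x y, f.evalEval (x + lam * y) y = c * l.prod.evalEval x y := by
  classical
  have hL : ∀ f ∈ L, TD Ds.sum f := by
    clear hD
    induction h with
    | nil => simp
    | @cons f E L Ds hf _ ih =>
      intro f' hf'
      rw [List.sum_cons]
      rcases List.mem_cons.1 hf' with h | h
      · subst h
        exact td_mono hf (by omega)
      · exact td_mono (ih f' h) (by omega)
  obtain ⟨lam, hlam'⟩ := exists_shear L Ds.sum hL
  have hlam : ∀ f ∈ L, f ≠ 0 → ∃ (c : ℝ) (g : ℝ[X][Y]), c ≠ 0 ∧ g.Monic ∧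
      ∀ x y, f.evalEval (x + lam * y) y = c * g.evalEval x y := by
    intro f hf hne
    obtain ⟨c, g, h1, h2, -, h3⟩ := hlam' f hf hne
    exact ⟨c, g, h1, h2, h3⟩
  have h' : List.Forall₂ (fun f E => Pr lam f E) L Ds := by
    clear hD hL hlam'
    induction h with
    | nil => exact List.Forall₂.nil
    | @cons f E L Ds hf _ ih =>
      refine List.Forall₂.cons (pr_of lam f E hf fun hne => ?_)
        (ih fun f' hf' hne => hlam f' (List.mem_cons_of_mem _ hf') hne)
      exact hlam f List.mem_cons_self hne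
  obtain ⟨M, hM, hT, hlen, hfac⟩ := concat lam L Ds h'
  refine ⟨lam, M.dedup, fun q hq => hM q (List.mem_dedup.1 hq), M.nodup_dedup,
    (M.dedup_sublist.length_le.trans hlen).trans hD, ?_, fun f hf => ?_⟩
  · have hne : M.prod ≠ 0 := (length_le M hM).2.ne_zero
    exact td_mono (td_of_dvd hne M.dedup_sublist.prod_dvd_prod hT) hD
  · obtain ⟨c, l, h1, h2, h3⟩ := hfac f hf
    exact ⟨c, l, h1.trans hD, fun q hq => List.mem_dedup.2 (h2 q hq), h3⟩

end Pool.Agent.H612.PG
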