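import Pool.Agent.H612.PG.Cert
import Pool.Agent.H612.PG.TDeg
import Pool.Agent.H612.PG.Shear

/-! L5, L6: polynomials given by terms; restriction to a line. -/

namespace Pool.Agent.H612.PG

open Polynomial Pool.Agent.NPC.H612 Shear
open scoped Polynomial.Bivariate

/-- The variables. -/
noncomputable def wd (i : ℕ) : ℝ[X][Y] := if i = 0 then C X else if i = 1 then X else 0

theorem td_zero (D : ℕ) : TD D 0 := by
  intro s t h
  simp at h

theorem td_wd (i : ℕ) : TD 1 (wd i) := by
  unfold wd
  split_ifs
  · exact td_X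
  · exact td_Y
  · exact td_zero _

theorem ev_wd (x y : ℝ) (i : ℕ) : (wd i).evalEval x y = xt (![x, y] : Fin 2 → ℝ) i := by
  unfold wd
  rcases i with _ | _ | i
  · rw [if_pos rfl, evalEval_C, eval_X]
    rfl
  · simp [xt]
  · simp [xt]

theorem td_list_prod (l : List ℕ) : TD l.length (l.map wd).prod := by
  induction l with
  | nil => simpa using td_C 1
  | cons a l ih =>
    rw [List.map_cons, List.prod_cons, List.length_cons, Nat.add_comm]
    exact td_mul (td_wd a) ih

theorem ev_list_prod (x y : ℝ) (l : List ℕ) : (l.map wd).prod.evalEval x y =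
    (l.map (xt (![x, y] : Fin 2 → ℝ))).prod := by
  induction l with
  | nil => simp
  | cons a l ih =>
    rw [List.map_cons, List.prod_cons, List.map_cons, List.prod_cons, evalEval_mul, ih, ev_wd]

/-- L5. Polynomials written as lists of terms. -/
theorem exists_poly (p : List (ℤ × List ℕ)) : ∃ f : ℝ[X][Y],
    TD (p.flatMap fun t => t.2).length f ∧
    ∀ x y : ℝ, wval (xt (![x, y] : Fin 2 → ℝ)) p = f.evalEval x y := by
  induction p with
  | nil =>
    refine ⟨0, td_zero _, fun x y => ?_⟩
    simp [wval]
  | cons a p ih =>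
    obtain ⟨f, h1, h2⟩ := ih
    refine ⟨C (C (a.1 : ℝ)) * (a.2.map wd).prod + f, td_add ?_ ?_, fun x y => ?_⟩
    · refine td_mono (td_mul (td_C _) (td_list_prod a.2)) ?_
      simp
    · refine td_mono h1 ?_
      simp
    · rw [evalEval_add, evalEval_mul, ev_list_prod, ← h2, evalEval_C, eval_C]
      simp [wval]

/-- Restriction to a line. -/
noncomputable def ln (a b c d : ℝ) : ℝ[X][Y] →+* ℝ[X] :=
  eval₂RingHom (eval₂RingHom C (C a + X * C b)) (C c + X * C d)

theorem ln_monomial (a b c d : ℝ) (s t : ℕ) (r : ℝ) : ln a b c d (monomial t (monomial s r)) =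
    C r * (C a + X * C b) ^ s * (C c + X * C d) ^ t := by
  rw [ln, coe_eval₂RingHom, eval₂_monomial, coe_eval₂RingHom, eval₂_monomial]

/-- L6. Restriction to a line. -/
theorem exists_line (f : ℝ[X][Y]) (E : ℕ) (hf : TD E f) (a b c d : ℝ) : ∃ q : ℝ[X],
    q.natDegree ≤ E ∧ ∀ t, q.eval t = f.evalEval (a + t * b) (c + t * d) := by
  refine ⟨ln a b c d f, ?_, fun t => ?_⟩
  · have h1 : f = ∑ t ∈ f.support, ∑ s ∈ (f.coeff t).support,
        monomial t (monomial s ((f.coeff t).coeff s)) := by
      conv_lhs => rw [f.as_sum_support]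
      refine Finset.sum_congr rfl fun t _ => ?_
      conv_lhs => rw [(f.coeff t).as_sum_support, map_sum]
    rw [h1, map_sum]
    refine natDegree_sum_le_of_forall_le _ _ fun t _ => ?_
    rw [map_sum]
    refine natDegree_sum_le_of_forall_le _ _ fun s hs => ?_
    rw [ln_monomial]
    have h2 : s + t ≤ E := hf s t (mem_support_iff.1 hs)
    have h3 : ∀ u v : ℝ, (C u + X * C v : ℝ[X]).natDegree ≤ 1 := fun u v => by
      refine natDegree_add_le_of_degree_le (by simp) ?_
      rw [mul_comm]
      exact (natDegree_C_mul_le _ _).trans natDegree_X_le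
    calc _ ≤ (0 + s * 1) + t * 1 := natDegree_mul_le_of_le (natDegree_mul_le_of_le (by simp)
          (natDegree_pow_le_of_le s (h3 _ _))) (natDegree_pow_le_of_le t (h3 _ _))
      _ ≤ E := by omega
  · clear hf
    induction f using Polynomial.induction_on' with
    | add p q hp hq => rw [map_add, eval_add, evalEval_add, hp, hq]
    | monomial n p =>
      induction p using Polynomial.induction_on' with
      | add p q hp hq => rw [map_add, map_add, eval_add, evalEval_add, hp, hq]
      | monomial m r =>
        rw [ln_monomial]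
        simp only [evalEval, eval_mul, eval_pow, eval_add, eval_C, eval_X, eval_monomial]

end Pool.Agent.H612.PG
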