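import Pool.Agent.H612.PG.Bezout

/-! K4: restriction to the pencil of lines through a point. -/

namespace Pool.Agent.H612.PG

open Polynomial
open scoped Polynomial.Bivariate

namespace Pencil

/-- `X ↦ x₀ + ρ`, `Y ↦ y₀ + m ρ`, values in `ℝ[ρ][m]`. -/
noncomputable def theta (x₀ y₀ : ℝ) : ℝ[X][Y] →+* ℝ[X][Y] :=
  (compRingHom (C X * X + C (C y₀))).comp (mapRingHom (compRingHom (X + C x₀)))

theorem theta_apply (x₀ y₀ : ℝ) (P : ℝ[X][Y]) :
    theta x₀ y₀ P = (P.map (compRingHom (X + C x₀))).comp (C X * X + C (C y₀)) := rfl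

theorem theta_C (x₀ y₀ : ℝ) (r : ℝ[X]) : theta x₀ y₀ (C r) = C (r.comp (X + C x₀)) := by
  rw [theta_apply]; simp

theorem theta_eval (x₀ y₀ m ρ : ℝ) (P : ℝ[X][Y]) :
    (theta x₀ y₀ P).evalEval ρ m = P.evalEval (x₀ + ρ) (y₀ + m * ρ) := by
  rw [theta_apply]
  induction P using Polynomial.induction_on' with
  | add p q hp hq => simp only [Polynomial.map_add, add_comp, evalEval_add, hp, hq]
  | monomial n a =>
    rw [← C_mul_X_pow_eq_monomial]
    simp only [Polynomial.map_mul, map_C, Polynomial.map_pow, map_X, mul_comp, C_comp, pow_comp,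
      X_comp, evalEval_mul, evalEval_C, evalEval_pow, evalEval_add, coe_compRingHom_apply,
      eval_comp, eval_add, eval_X, eval_C, evalEval_X, add_comm ρ x₀]
    congr 2
    ring

theorem swap_eval (x y : ℝ) (P : ℝ[X][Y]) :
    (Bivariate.swap (R := ℝ) P).evalEval x y = P.evalEval y x := by
  have h := Bivariate.aevalAeval_swap x y P
  rwa [coe_aevalAeval_eq_evalEval, coe_aevalAeval_eq_evalEval] at h

theorem natDegree_lin (y₀ : ℝ) : (C X * X + C (C y₀) : ℝ[X][Y]).natDegree = 1 :=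
  natDegree_linear (by exact X_ne_zero)

theorem leadingCoeff_lin (y₀ : ℝ) : (C X * X + C (C y₀) : ℝ[X][Y]).leadingCoeff = X :=
  leadingCoeff_linear (by exact X_ne_zero)

theorem theta_natDegree (x₀ y₀ : ℝ) (Φ : ℝ[X][Y]) (hm : Φ.Monic) :
    (theta x₀ y₀ Φ).natDegree = Φ.natDegree := by
  rw [theta_apply, natDegree_comp, natDegree_lin, mul_one, hm.natDegree_map]

theorem theta_leadingCoeff (x₀ y₀ : ℝ) (Φ : ℝ[X][Y]) (hm : Φ.Monic) :
    (theta x₀ y₀ Φ).leadingCoeff = X ^ Φ.natDegree := by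
  rw [theta_apply, leadingCoeff_comp (by rw [natDegree_lin]; exact one_ne_zero), leadingCoeff_lin,
    (hm.map _).leadingCoeff, one_mul, hm.natDegree_map]

theorem theta_ne_zero (x₀ y₀ : ℝ) (Φ : ℝ[X][Y]) (hm : Φ.Monic) : theta x₀ y₀ Φ ≠ 0 := by
  rw [← leadingCoeff_ne_zero, theta_leadingCoeff x₀ y₀ Φ hm]
  exact pow_ne_zero _ X_ne_zero

theorem theta_derivative (x₀ y₀ : ℝ) (Φ : ℝ[X][Y]) :
    derivative (theta x₀ y₀ Φ) = C X * theta x₀ y₀ (derivative Φ) := by
  rw [theta_apply, theta_apply, derivative_comp, ← derivative_map]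
  simp

theorem natDegree_swap_theta (x₀ y₀ : ℝ) (D : ℕ) (Φ : ℝ[X][Y]) (hD : TD D Φ) :
    (Bivariate.swap (R := ℝ) (theta x₀ y₀ Φ)).natDegree ≤ D := by
  rw [Φ.as_sum_support, map_sum, map_sum]
  refine natDegree_sum_le_of_forall_le _ _ fun t _ => ?_
  rw [(Φ.coeff t).as_sum_support, map_sum, map_sum, map_sum]
  refine natDegree_sum_le_of_forall_le _ _ fun s hs => ?_
  have h := hD s t (mem_support_iff.mp hs)
  refine le_trans ?_ h
  have e : Bivariate.swap (R := ℝ) (theta x₀ y₀ (monomial t (monomial s ((Φ.coeff t).coeff s))))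
      = C (C ((Φ.coeff t).coeff s)) * (X + C (C x₀)) ^ s * (X * C X + C (C y₀)) ^ t := by
    rw [← C_mul_X_pow_eq_monomial, ← C_mul_X_pow_eq_monomial, theta_apply]
    simp only [Polynomial.map_mul, map_C, Polynomial.map_pow, map_X, mul_comp, C_comp, pow_comp,
      X_comp, coe_compRingHom_apply, map_mul, map_pow, map_add, add_comp, Bivariate.swap_C_C,
      Bivariate.swap_X, Bivariate.swap_Y]
  rw [e]
  refine natDegree_mul_le_of_le ?_ ?_
  · refine (natDegree_C_mul_le _ _).trans ?_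
    refine natDegree_pow_le_of_le s (natDegree_X_add_C _).le |>.trans (by simp)
  · refine (natDegree_pow_le_of_le t (m := 1) ?_).trans (by simp)
    compute_degree


/-- The claim: irreducible `q` with `q² ∣ θ Φ` divide `C X`. -/
theorem claim (x₀ y₀ : ℝ) (Φ : ℝ[X][Y]) (hm : Φ.Monic) (hsq : Squarefree Φ) (q' : ℝ[X][Y])
    (hqp : Prime q') (hqq' : q' * q' ∣ theta x₀ y₀ Φ) : q' ∣ C X := by
  by_contra hne
  have h1 : q' ∣ derivative (theta x₀ y₀ Φ) := by
    obtain ⟨w, hw⟩ := hqq'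
    rw [hw]
    simp only [derivative_mul]
    exact Dvd.intro (derivative q' * w + derivative q' * w + q' * derivative w) (by ring)
  rw [theta_derivative] at h1
  have h2 : q' ∣ theta x₀ y₀ (derivative Φ) := (hqp.dvd_or_dvd h1).resolve_left hne
  have h3 : q' ∣ theta x₀ y₀ Φ := (Dvd.intro _ rfl).trans hqq'
  obtain ⟨A, B, r, hr, hAB, -⟩ := exists_bezout Φ hsq hm.ne_zero _ _ le_rfl le_rfl
  have h4 : q' ∣ C (r.comp (X + C x₀)) := by
    rw [← theta_C x₀ y₀, ← hAB, map_add, map_mul, map_mul]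
    exact dvd_add (h3.mul_left _) (h2.mul_left _)
  have hr' : r.comp (X + C x₀) ≠ 0 := by
    intro h0
    rw [comp_eq_zero_iff] at h0
    rcases h0 with h0 | ⟨-, h0⟩
    · exact hr h0
    · have := congrArg natDegree h0
      rw [natDegree_X_add_C, natDegree_C] at this
      omega
  have h5 : q'.natDegree = 0 := by
    have := natDegree_le_of_dvd h4 (by simpa using hr')
    simpa using this
  obtain ⟨q0, hq0⟩ : ∃ q0, q' = C q0 := ⟨_, eq_C_of_natDegree_eq_zero h5⟩
  have hq0p : Prime q0 := by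
    rw [← prime_C_iff, ← hq0]
    exact hqp
  have h6 : q0 ∣ (theta x₀ y₀ Φ).coeff (theta x₀ y₀ Φ).natDegree := by
    have := h3
    rw [hq0, C_dvd_iff_dvd_coeff] at this
    exact this _
  rw [coeff_natDegree, theta_leadingCoeff x₀ y₀ Φ hm] at h6
  have h7 := hq0p.dvd_of_dvd_pow h6
  exact hne (by rw [hq0]; exact map_dvd C h7)

theorem claim_swap (x₀ y₀ : ℝ) (Φ : ℝ[X][Y]) (hm : Φ.Monic) (hsq : Squarefree Φ) (q : ℝ[X][Y])
    (hq : Irreducible q) (hqq : q * q ∣ Bivariate.swap (R := ℝ) (theta x₀ y₀ Φ)) :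
    Associated q X := by
  have hqi : Irreducible (Bivariate.swap (R := ℝ) q) :=
    (MulEquiv.irreducible_iff (Bivariate.swap (R := ℝ))).mpr hq
  have hqq' : Bivariate.swap (R := ℝ) q * Bivariate.swap (R := ℝ) q ∣ theta x₀ y₀ Φ := by
    have := map_dvd (Bivariate.swap (R := ℝ)) hqq
    rwa [map_mul, Bivariate.swap_swap_apply] at this
  have hne := claim x₀ y₀ Φ hm hsq _ hqi.prime hqq'
  have h8 : q ∣ X := by
    have := map_dvd (Bivariate.swap (R := ℝ)) hne
    rwa [Bivariate.swap_swap_apply, Bivariate.swap_X] at this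
  exact (hq.dvd_irreducible_iff_associated irreducible_X).mp h8

theorem squarefree_aux (f h : ℝ[X][Y]) (a : ℕ) (hfh : f = X ^ a * h) (hh0 : h ≠ 0)
    (hXh : ¬ X ∣ h) (hcl : ∀ q : ℝ[X][Y], Irreducible q → q * q ∣ f → Associated q X) :
    Squarefree (X * h) := by
  refine (squarefree_iff_irreducible_sq_not_dvd_of_ne_zero (mul_ne_zero X_ne_zero hh0)).mpr ?_
  intro q hq hqq
  by_cases hqX : q ∣ X
  · have hass : Associated q X := (hq.dvd_irreducible_iff_associated irreducible_X).mp hqX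
    have : (X : ℝ[X][Y]) * X ∣ X * h := (hass.mul_mul hass).symm.dvd.trans hqq
    exact hXh ((mul_dvd_mul_iff_left X_ne_zero).mp this)
  · have hrel : IsRelPrime (q * q) X := by
      have h1 : IsRelPrime q X := hq.isRelPrime_iff_not_dvd.mpr hqX
      exact h1.mul_left h1
    have h2 : q * q ∣ h := hrel.dvd_of_dvd_mul_left hqq
    have h3 : q * q ∣ f := by
      rw [hfh]
      exact h2.mul_left _
    exact hqX (hcl q hq h3).dvd

end Pencil

open Pencil in
/-- K4. The restrictions of `Φ` to the lines through the point `(x₀, y₀)`; here `h` is a polynomial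
in `m` (inner variable) and `ρ` (outer variable). -/
theorem exists_pencil (Φ : ℝ[X][Y]) (hm : Φ.Monic) (hsq : Squarefree Φ) (x₀ y₀ : ℝ) (D : ℕ)
    (hD : TD D Φ) : ∃ (a : ℕ) (h : ℝ[X][Y]), a ≤ D ∧ h ≠ 0 ∧ Squarefree (X * h) ∧ dX h ≤ D ∧
      h.natDegree ≤ D ∧
      ∀ m ρ, Φ.evalEval (x₀ + ρ) (y₀ + m * ρ) = ρ ^ a * h.evalEval m ρ := by
  have hg0 : theta x₀ y₀ Φ ≠ 0 := theta_ne_zero x₀ y₀ Φ hm
  have hgn := theta_natDegree x₀ y₀ Φ hm
  have hcl := claim_swap x₀ y₀ Φ hm hsq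
  have hev := fun m ρ => theta_eval x₀ y₀ m ρ Φ
  have hfD := natDegree_swap_theta x₀ y₀ D Φ hD
  generalize theta x₀ y₀ Φ = g at *
  have hgf : Bivariate.swap (R := ℝ) (Bivariate.swap (R := ℝ) g) = g :=
    Bivariate.swap_swap_apply g
  generalize Bivariate.swap (R := ℝ) g = f at *
  have hf0 : f ≠ 0 := by
    rintro rfl
    exact hg0 (by rw [← hgf, map_zero])
  have hnD : Φ.natDegree ≤ D := by
    have := hD 0 Φ.natDegree (by
      rw [coeff_natDegree, hm.leadingCoeff]; simp)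
    simpa using this
  obtain ⟨h, hfh, hXh⟩ := exists_eq_pow_rootMultiplicity_mul_and_not_dvd f hf0 0
  rw [C_0, sub_zero] at hfh hXh
  generalize rootMultiplicity 0 f = a at *
  have hh0 : h ≠ 0 := by
    rintro rfl
    exact hXh (dvd_zero _)
  have hdeg : f.natDegree = a + h.natDegree := by
    rw [hfh, natDegree_mul (pow_ne_zero _ X_ne_zero) hh0, natDegree_X_pow]
  refine ⟨a, h, by omega, hh0, squarefree_aux f h a hfh hh0 hXh hcl, ?_, by omega, ?_⟩
  · have e : g = C (X ^ a) * Bivariate.swap (R := ℝ) h := by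
      rw [← hgf, hfh, map_mul, map_pow, Bivariate.swap_Y, C_pow]
    have h1 : g.natDegree = (Bivariate.swap (R := ℝ) h).natDegree := by
      rw [e, natDegree_C_mul (pow_ne_zero _ X_ne_zero)]
    unfold dX
    rw [← h1, hgn]
    exact hnD
  · intro m ρ
    rw [← hev, ← hgf, swap_eval, hfh, evalEval_mul, evalEval_pow, evalEval_X]

end Pool.Agent.H612.PG
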