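import Pool.Agent.H612.PG.CompA
import Pool.Agent.H612.PG.CompC0
import Pool.Agent.H612.PG.CompB
import Pool.Agent.H612.PG.Pencil

/-! Task L7: completeness of the certificates. -/

namespace Pool.Agent.H612.PG

open Polynomial Pool.Agent.NPC.H612
open scoped Polynomial.Bivariate

namespace Comp

/-- The array of the coefficients. -/
noncomputable def arr (f : ℝ[X][Y]) (s t : ℕ) : ℝ := (f.coeff t).coeff s

theorem P2_arr (f : ℝ[X][Y]) (N : ℕ) (hx : dX f < N) (hy : f.natDegree < N) (x y : ℝ) :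
    P2 N (arr f) x y = f.evalEval x y := by
  obtain ⟨c, h1, h2, -⟩ := exists_array f N hx hy
  have : c = arr f := by
    funext s t; exact h1 s t
  rw [← this, h2]

theorem P2y_arr (f : ℝ[X][Y]) (N : ℕ) (hx : dX f < N) (hy : f.natDegree < N) (x y : ℝ) :
    P2y N (arr f) x y = (derivative f).evalEval x y := by
  obtain ⟨c, h1, -, h2⟩ := exists_array f N hx hy
  have : c = arr f := by
    funext s t; exact h1 s t
  rw [← this, h2]

theorem td_dX {E : ℕ} {f : ℝ[X][Y]} (hf : TD E f) : dX f ≤ E := by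
  rw [Bez.dX_le_iff]
  intro j
  rw [natDegree_le_iff_coeff_eq_zero]
  intro N hN
  by_contra h
  have := hf N j h
  omega

theorem P2_td {E N : ℕ} {f : ℝ[X][Y]} (hf : TD E f) (h : E < N) (x y : ℝ) :
    P2 N (arr f) x y = f.evalEval x y :=
  P2_arr f N ((td_dX hf).trans_lt h) ((CompB.td_natDegree hf).trans_lt h) x y

theorem prod_getD {M : Type} [CommMonoid M] (L : List M) (n : ℕ) (h : L.length ≤ n) :
    ∏ l ∈ Finset.range n, L.getD l 1 = L.prod := by
  induction L generalizing n with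
  | nil => simp
  | cons a L ih =>
    obtain ⟨n, rfl⟩ : ∃ m, n = m + 1 := ⟨n - 1, by simp at h; omega⟩
    rw [Finset.prod_range_succ', List.prod_cons, mul_comm]
    simp only [List.getD_cons_zero, List.getD_cons_succ]
    rw [ih n (by simpa using h)]

theorem getD_mem_or {M : Type} [One M] (L : List M) (l : ℕ) : L.getD l 1 ∈ L ∨ L.getD l 1 = 1 := by
  by_cases h : l < L.length
  · left
    rw [List.getD_eq_getElem _ _ h]
    exact List.getElem_mem h
  · right
    rw [List.getD_eq_default _ _ (not_lt.1 h)]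

theorem exists_getD {M : Type} [One M] {L : List M} {a : M} (h : a ∈ L) :
    ∃ l < L.length, L.getD l 1 = a := by
  obtain ⟨l, hl, he⟩ := List.mem_iff_getElem.1 h
  exact ⟨l, hl, by rw [List.getD_eq_getElem _ _ hl, he]⟩

/-- The line through `(x₀, y₀)` with slope `m`. -/
noncomputable def lin (x₀ y₀ m : ℝ) : ℝ[X][Y] := X - C (C y₀ + C m * (X - C x₀))

theorem lin_monic (x₀ y₀ m : ℝ) : (lin x₀ y₀ m).Monic := monic_X_sub_C _

theorem lin_irr (x₀ y₀ m : ℝ) : Irreducible (lin x₀ y₀ m) := irreducible_X_sub_C _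

theorem lin_eval (x₀ y₀ m x y : ℝ) : (lin x₀ y₀ m).evalEval x y = y - y₀ - m * (x - x₀) := by
  simp [lin, evalEval]
  ring

theorem lin_td (x₀ y₀ m : ℝ) : TD 1 (lin x₀ y₀ m) := by
  have h : lin x₀ y₀ m = (X + C (C (-m)) * C X) + C (C (m * x₀ - y₀)) := by
    unfold lin
    simp only [C_add, C_mul, C_sub, C_neg]
    ring
  rw [h]
  refine td_add (td_add Shear.td_Y ?_) (td_mono (Shear.td_C _) (Nat.zero_le _))
  have := td_mul (Shear.td_C (-m)) Shear.td_X
  rwa [zero_add] at this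

theorem evalEval_finset_prod {ι : Type} (s : Finset ι) (f : ι → ℝ[X][Y]) (x y : ℝ) :
    (∏ i ∈ s, f i).evalEval x y = ∏ i ∈ s, (f i).evalEval x y :=
  map_prod (evalEvalRingHom x y) f s

theorem td_list_prod (L : List ℝ[X][Y]) (h : ∀ q ∈ L, TD 1 q) : TD L.length L.prod := by
  induction L with
  | nil => simpa using CompB.td_one 0
  | cons a L ih =>
    rw [List.prod_cons, List.length_cons, add_comm]
    exact td_mul (h a List.mem_cons_self) (ih fun q hq => h q (List.mem_cons_of_mem _ hq))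

/-- Polynomials in sheared coordinates. -/
theorem exists_stage1 (φ : QF) : ∃ (lam : ℝ) (B : List ℝ[X][Y]),
    (∀ q ∈ B, q.Monic ∧ Irreducible q) ∧ B.Nodup ∧ B.length ≤ szD φ ∧ TD (szD φ) B.prod ∧
    ∃ (cc : ℕ → ℝ) (ll : ℕ → List ℝ[X][Y]), ∀ j < φ.polys.length, (ll j).length ≤ szD φ ∧
      (∀ q ∈ ll j, q ∈ B) ∧ ∀ x y : ℝ, wval (xt (![x + lam * y, y] : Fin 2 → ℝ))
        (φ.polys.getD j []) = cc j * (ll j).prod.evalEval x y := by
  choose fp hT he using exists_poly
  have hL : ∀ P : List PolyData, List.Forall₂ (fun f E => TD E f) (P.map fp)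
      (P.map fun p => (p.flatMap fun t => t.2).length) := by
    intro P
    induction P with
    | nil => exact List.Forall₂.nil
    | cons p P ih => exact List.Forall₂.cons (hT p) ih
  have hs : (φ.polys.map fun p => (p.flatMap fun t => t.2).length).sum ≤ szD φ := by
    unfold szD
    rw [List.length_flatMap]
  obtain ⟨lam, B, h1, h2, h3, h4, h5⟩ := exists_base _ _ _ (hL φ.polys) hs
  refine ⟨lam, B, h1, h2, h3, h4, ?_⟩
  have h6 : ∀ j, ∃ (c : ℝ) (l : List ℝ[X][Y]), j < φ.polys.length → l.length ≤ szD φ ∧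
      (∀ q ∈ l, q ∈ B) ∧ ∀ x y : ℝ, wval (xt (![x + lam * y, y] : Fin 2 → ℝ))
        (φ.polys.getD j []) = c * l.prod.evalEval x y := by
    intro j
    by_cases hj : j < φ.polys.length
    · obtain ⟨c, l, h7, h8, h9⟩ := h5 (fp (φ.polys.getD j [])) (by
        rw [List.getD_eq_getElem _ _ hj]
        exact List.mem_map_of_mem (List.getElem_mem hj))
      refine ⟨c, l, fun _ => ⟨h7, h8, fun x y => ?_⟩⟩
      rw [he, h9]
    · exact ⟨0, [], fun h => absurd h hj⟩
  choose cc ll hcl using h6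
  exact ⟨cc, ll, hcl⟩

/-- The guards in sheared coordinates. -/
theorem exists_stage2 (k : ℕ) (φ : QF) (h : Guardable (gallery 2 φ) k) (lam : ℝ) :
    ∃ g : ℕ → ℝ × ℝ, (∀ i < k, (![(g i).1 + lam * (g i).2, (g i).2] : Fin 2 → ℝ) ∈ gallery 2 φ) ∧
      (∀ i < k, ∀ j < k, i ≠ j → g i ≠ g j) ∧
      ∀ p : ℝ × ℝ, (![p.1 + lam * p.2, p.2] : Fin 2 → ℝ) ∈ gallery 2 φ → ∃ i < k, ∀ t : ℝ, 0 ≤ t →
        t ≤ 1 → (![((g i).1 + t * (p.1 - (g i).1)) + lam * ((g i).2 + t * (p.2 - (g i).2)),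
          (g i).2 + t * (p.2 - (g i).2)] : Fin 2 → ℝ) ∈ gallery 2 φ := by
  classical
  obtain ⟨G, hk, hG, hvis⟩ := h
  let e : Fin k ≃ G := (Finset.equivFinOfCardEq hk).symm
  let u : ℕ → (Fin 2 → ℝ) := fun i => if hi : i < k then (e ⟨i, hi⟩ : Fin 2 → ℝ) else 0
  have hu : ∀ i (hi : i < k), u i = e ⟨i, hi⟩ := fun i hi => dif_pos hi
  have hrec : ∀ v : Fin 2 → ℝ, (![(v 0 - lam * v 1) + lam * v 1, v 1] : Fin 2 → ℝ) = v := by
    intro v
    ext i
    fin_cases i <;> simp
  refine ⟨fun i => (u i 0 - lam * u i 1, u i 1), ?_, ?_, ?_⟩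
  · intro i hi
    simp only
    rw [hrec, hu i hi]
    exact hG (e ⟨i, hi⟩).2
  · intro i hi j hj hij heq
    simp only [Prod.mk.injEq] at heq
    obtain ⟨h1, h2⟩ := heq
    have h3 : u i = u j := by
      rw [← hrec (u i), ← hrec (u j)]
      rw [h1, h2]
    rw [hu i hi, hu j hj] at h3
    have h4 := e.injective (Subtype.ext h3)
    exact hij (by simpa using h4)
  · intro p hp
    obtain ⟨v, hv, hseg⟩ := hvis _ hp
    obtain ⟨⟨i, hi⟩, hei⟩ := e.surjective ⟨v, hv⟩
    refine ⟨i, hi, fun t ht0 ht1 => ?_⟩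
    have hui : u i = v := by rw [hu i hi, hei]
    apply hseg
    rw [segment_eq_image']
    refine ⟨t, ⟨ht0, ht1⟩, ?_⟩
    simp only
    rw [hui]
    ext j
    fin_cases j
    · simp [Matrix.vecHead]
      ring
    · simp [Matrix.vecHead, Matrix.vecTail]

/-- The product of the critical lines and the base. -/
theorem exists_stage3 (D k : ℕ) (B : List ℝ[X][Y]) (hB : ∀ q ∈ B, q.Monic ∧ Irreducible q)
    (hBn : B.Nodup) (hBl : B.length ≤ D) (hBt : TD D B.prod) (g : ℕ → ℝ × ℝ) :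
    ∃ (hP : ℕ → ℝ[X][Y]) (dPen : ℕ → BCd) (FP : ℕ → ℝ[X][Y]) (Ψ : ℝ[X][Y]) (dPsi : BCd),
      (∀ i, TD D (hP i) ∨ (dX (hP i) ≤ D ∧ (hP i).natDegree ≤ D)) ∧
      (∀ l < D, TD D (FP l)) ∧ (∀ l, TD (D + 1) (FP l)) ∧
      (∀ l < D, FP l = B.getD l 1) ∧
      (∀ i, ∃ a ≤ D, ∀ m ρ : ℝ, B.prod.evalEval ((g i).1 + ρ) ((g i).2 + m * ρ) =
        ρ ^ a * (hP i).evalEval m ρ) ∧
      (∀ i, BC (N1 D) (fun m ρ => ρ * (hP i).evalEval m ρ)
        (fun m ρ => (hP i).evalEval m ρ + ρ * (derivative (hP i)).evalEval m ρ) (dPen i)) ∧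
      (∀ i < k, ∀ c < N1 D, ∃ l < R1 D k, FP l = lin (g i).1 (g i).2 ((dPen i).z c)) ∧
      Ψ.Monic ∧ TD (R1 D k) Ψ ∧ (∏ l ∈ Finset.range (R1 D k), FP l = Ψ) ∧
      BC (N2 D k) (fun x y => Ψ.evalEval x y) (fun x y => (derivative Ψ).evalEval x y) dPsi := by
  classical
  have hm : B.prod.Monic := (CompB.length_le B hB).2
  have hsq : Squarefree B.prod := squarefree_prod B hB hBn
  have h1 : ∀ i, ∃ (a : ℕ) (h : ℝ[X][Y]), a ≤ D ∧ h ≠ 0 ∧ Squarefree (X * h) ∧ dX h ≤ D ∧
      h.natDegree ≤ D ∧ ∀ m ρ, B.prod.evalEval ((g i).1 + ρ) ((g i).2 + m * ρ) =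
        ρ ^ a * h.evalEval m ρ := fun i => exists_pencil B.prod hm hsq (g i).1 (g i).2 D hBt
  choose a hP ha hne hsqP hdx hnd hev using h1
  have h2 : ∀ i, ∃ d, BC (N1 D) (fun m ρ => ρ * (hP i).evalEval m ρ)
        (fun m ρ => (hP i).evalEval m ρ + ρ * (derivative (hP i)).evalEval m ρ) d := by
    intro i
    obtain ⟨d, hd⟩ := exists_BC (X * hP i) (hsqP i) (mul_ne_zero X_ne_zero (hne i)) D (D + 1)
      (N1 D) (by
        refine (Bez.dX_mul_le _ _).trans ?_
        have : dX (X : ℝ[X][Y]) ≤ 0 := by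
          rw [Bez.dX_le_iff]
          intro j
          rw [coeff_X]
          split_ifs <;> simp
        have := hdx i
        omega) (by
        refine natDegree_mul_le.trans ?_
        rw [natDegree_X]
        have := hnd i
        omega) (by
        unfold N1
        nlinarith)
    refine ⟨d, ?_⟩
    convert hd using 3
    · simp [evalEval]
    · simp [evalEval]
  choose dPen hPen using h2
  -- the critical lines
  set Lc : List ℝ[X][Y] := (List.range k).flatMap fun i =>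
    (List.range (N1 D)).map fun c => lin (g i).1 (g i).2 ((dPen i).z c) with hLc
  set B' : List ℝ[X][Y] := Lc.dedup.filter (fun q => q ∉ B) with hB'
  have hLlen : Lc.length = k * N1 D := by
    rw [hLc, List.length_flatMap]
    simp
  have hB'len : B'.length ≤ k * N1 D := by
    rw [← hLlen]
    exact (List.length_filter_le _ _).trans Lc.dedup_sublist.length_le
  have hmemL : ∀ q ∈ Lc, q.Monic ∧ Irreducible q ∧ TD 1 q := by
    intro q hq
    rw [hLc, List.mem_flatMap] at hq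
    obtain ⟨i, -, hq⟩ := hq
    rw [List.mem_map] at hq
    obtain ⟨c, -, rfl⟩ := hq
    exact ⟨lin_monic _ _ _, lin_irr _ _ _, lin_td _ _ _⟩
  have hmemB' : ∀ q ∈ B', q.Monic ∧ Irreducible q ∧ TD 1 q := by
    intro q hq
    rw [hB', List.mem_filter] at hq
    exact hmemL q (List.mem_dedup.1 hq.1)
  have hall : ∀ q ∈ B ++ B', q.Monic ∧ Irreducible q := by
    intro q hq
    rcases List.mem_append.1 hq with h | h
    · exact hB q h
    · exact ⟨(hmemB' q h).1, (hmemB' q h).2.1⟩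
  have hnodup : (B ++ B').Nodup := by
    rw [List.nodup_append]
    refine ⟨hBn, Lc.nodup_dedup.filter _, ?_⟩
    intro q hq q' hq' heq
    subst heq
    rw [hB', List.mem_filter] at hq'
    exact absurd hq (by simpa using hq'.2)
  have hΨm : (B ++ B').prod.Monic := (CompB.length_le _ hall).2
  have hΨsq : Squarefree (B ++ B').prod := squarefree_prod _ hall hnodup
  have hΨtd : TD (R1 D k) (B ++ B').prod := by
    rw [List.prod_append]
    refine td_mul hBt (td_mono (td_list_prod B' fun q hq => (hmemB' q hq).2.2) hB'len)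
  obtain ⟨dPsi, hdPsi⟩ := exists_BC (B ++ B').prod hΨsq hΨm.ne_zero (R1 D k) (R1 D k) (N2 D k)
    (td_dX hΨtd) (CompB.td_natDegree hΨtd) (by unfold N2; nlinarith)
  let FP : ℕ → ℝ[X][Y] := fun l => if l < D then B.getD l 1 else B'.getD (l - D) 1
  have hFPD : ∀ l < D, FP l = B.getD l 1 := fun l hl => if_pos hl
  have hFPR : ∀ l, FP (D + l) = B'.getD l 1 := by
    intro l
    have : ¬ D + l < D := by omega
    simp only [FP, if_neg this, Nat.add_sub_cancel_left]
  have hBtd : ∀ l, TD D (B.getD l 1) := by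
    intro l
    rcases getD_mem_or B l with h | h
    · exact td_of_dvd hm.ne_zero (List.dvd_prod h) hBt
    · rw [h]; exact CompB.td_one D
  have hB'td : ∀ l, TD 1 (B'.getD l 1) := by
    intro l
    rcases getD_mem_or B' l with h | h
    · exact (hmemB' _ h).2.2
    · rw [h]; exact CompB.td_one 1
  refine ⟨hP, dPen, FP, (B ++ B').prod, dPsi, fun i => Or.inr ⟨hdx i, hnd i⟩, ?_, ?_, hFPD,
    fun i => ⟨a i, ha i, hev i⟩, hPen, ?_, hΨm, hΨtd, ?_, hdPsi⟩
  · intro l hl
    rw [hFPD l hl]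
    exact hBtd l
  · intro l
    simp only [FP]
    split_ifs
    · exact td_mono (hBtd l) (by omega)
    · exact td_mono (hB'td _) (by omega)
  · intro i hi c hc
    by_cases h : lin (g i).1 (g i).2 ((dPen i).z c) ∈ B
    · obtain ⟨l, hl, hle⟩ := exists_getD h
      refine ⟨l, ?_, ?_⟩
      · unfold R1; omega
      · rw [hFPD l (by omega), hle]
    · have h3 : lin (g i).1 (g i).2 ((dPen i).z c) ∈ B' := by
        rw [hB', List.mem_filter, List.mem_dedup, hLc, List.mem_flatMap]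
        refine ⟨⟨i, List.mem_range.2 hi, List.mem_map.2 ⟨c, List.mem_range.2 hc, rfl⟩⟩, ?_⟩
        simpa using h
      obtain ⟨l, hl, hle⟩ := exists_getD h3
      refine ⟨D + l, ?_, ?_⟩
      · unfold R1; omega
      · rw [hFPR, hle]
  · unfold R1
    rw [Finset.prod_range_add]
    have h4 : ∏ x ∈ Finset.range D, FP x = B.prod := by
      rw [← prod_getD B D hBl]
      exact Finset.prod_congr rfl fun l hl => hFPD l (Finset.mem_range.1 hl)
    have h5 : ∏ x ∈ Finset.range (k * N1 D), FP (D + x) = B'.prod := by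
      rw [← prod_getD B' _ hB'len]
      exact Finset.prod_congr rfl fun l _ => hFPR l
    rw [h4, h5, List.prod_append]

end Comp

open Comp in
/-- L7. Completeness of the certificates (uses L1-L6, K3 `squarefree_prod`, K4 `exists_pencil`). -/
theorem exists_dat (k : ℕ) (φ : QF) (h : Guardable (gallery 2 φ) k) :
    ∃ d : Dat, d.Good (szD φ) k φ := by
  classical
  obtain ⟨lam, B, hB, hBn, hBl, hBt, cc, ll, hcl⟩ := exists_stage1 φ
  obtain ⟨g, hg1, hg2, hg3⟩ := exists_stage2 k φ h lam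
  set D := szD φ with hDdef
  obtain ⟨hP, dPen, FP, Ψ, dPsi, hPtd, hFD, hFtd, hFB, hpen, hPen, hlin, hΨm, hΨtd, hΨp, hdPsi⟩ :=
    exists_stage3 D k B hB hBn hBl hBt g
  have hN0 : D + 1 < N0 D := by unfold N0; omega
  have hN2 : R1 D k < N2 D k := by unfold N2; nlinarith
  have hD2 : D ≤ N2 D k := by unfold R1 at hN2; omega
  have hN2' : 1 ≤ N2 D k := by unfold N2; nlinarith
  have eF : ∀ l x y, P2 (N0 D) (arr (FP l)) x y = (FP l).evalEval x y :=
    fun l => P2_td (hFtd l) hN0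
  have eΨ : ∀ x y, P2 (N2 D k) (arr Ψ) x y = Ψ.evalEval x y := P2_td hΨtd hN2
  have eΨy : ∀ x y, P2y (N2 D k) (arr Ψ) x y = (derivative Ψ).evalEval x y :=
    P2y_arr Ψ _ ((td_dX hΨtd).trans_lt hN2) ((CompB.td_natDegree hΨtd).trans_lt hN2)
  have hPd : ∀ i, dX (hP i) < N0 D ∧ (hP i).natDegree < N0 D := by
    intro i
    rcases hPtd i with h | ⟨h1, h2⟩
    · exact ⟨(td_dX h).trans_lt (by omega), (CompB.td_natDegree h).trans_lt (by omega)⟩
    · exact ⟨by omega, by omega⟩
  have eh : ∀ i x y, P2 (N0 D) (arr (hP i)) x y = (hP i).evalEval x y :=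
    fun i => P2_arr _ _ (hPd i).1 (hPd i).2
  have ehy : ∀ i x y, P2y (N0 D) (arr (hP i)) x y = (derivative (hP i)).evalEval x y :=
    fun i => P2y_arr _ _ (hPd i).1 (hPd i).2
  -- stage 0
  let d0 : Dat :=
    { lam := lam, g := g, Fc := fun l => arr (FP l), Qc := fun j q => arr ((ll j).getD q 1),
      cc := cc, Ps := arr Ψ, hc := fun i => arr (hP i), dPsi := dPsi, dPen := dPen,
      dFib := fun _ => dPsi, dSeg := fun _ _ _ _ => dPsi }
  have h10 : ∀ q₁, ∃ dd, BC (N2 D k) (fun y _ => Ψ.evalEval (d0.xs D k q₁) y)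
      (fun _ _ => 0) dd := by
    intro q₁
    obtain ⟨dd, hdd⟩ := exists_BC_one (Ψ.map (evalRingHom (d0.xs D k q₁))) (N2 D k)
      (hΨm.map _).ne_zero (natDegree_map_le.trans
        ((CompB.td_natDegree hΨtd).trans hN2.le)) hN2'
    refine ⟨dd, ?_⟩
    convert hdd using 2
    funext _
    rw [map_evalRingHom_eval]
  choose dFib hdFib using h10
  -- stage 1
  let d1 : Dat := { d0 with dFib := dFib }
  have h11 : ∀ q₁ q₂ i l, ∃ dd, l < D →
      (∀ t, (FP l).evalEval (d1.sx D k q₁ q₂ i t) (d1.sy D k q₁ q₂ i t) = 0) ∨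
      BC (N2 D k) (fun t _ => (FP l).evalEval (d1.sx D k q₁ q₂ i t) (d1.sy D k q₁ q₂ i t))
        (fun _ _ => 0) dd := by
    intro q₁ q₂ i l
    by_cases hl : l < D
    · obtain ⟨q, hqd, hq⟩ := exists_line (FP l) D (hFD l hl) (d1.g i).1
        (d1.xs D k q₁ - (d1.g i).1) (d1.g i).2 (d1.ys D k q₁ q₂ - (d1.g i).2)
      by_cases hq0 : q = 0
      · refine ⟨dPsi, fun _ => Or.inl fun t => ?_⟩
        have := hq t
        rw [hq0, eval_zero] at this
        exact this.symm
      · obtain ⟨dd, hdd⟩ := exists_BC_one q (N2 D k) hq0 (hqd.trans hD2) hN2'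
        refine ⟨dd, fun _ => Or.inr ?_⟩
        convert hdd using 2
        funext _
        rw [hq]
        rfl
    · exact ⟨dPsi, fun h => absurd h hl⟩
  choose dSeg hdSeg using h11
  -- stage 2
  let d2 : Dat := { d1 with dSeg := dSeg }
  refine ⟨d2, ?_⟩
  have eF2 : ∀ l x y, d2.F D l x y = (FP l).evalEval x y := eF
  have eQ2 : ∀ j < φ.polys.length, ∀ q x y, d2.Q D j q x y =
      ((ll j).getD q 1).evalEval x y := by
    intro j hj q x y
    have h0 : TD (D + 1) ((ll j).getD q 1) := by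
      rcases getD_mem_or (ll j) q with hq | hq
      · obtain ⟨l, hl, hle⟩ := exists_getD ((hcl j hj).2.1 _ hq)
        rw [← hle, ← hFB l (by omega)]
        exact hFtd l
      · rw [hq]
        exact CompB.td_one _
    exact P2_td h0 hN0 x y
  constructor
  · exact fun i hi => hg1 i hi
  · exact fun i hi j hj hij => hg2 i hi j hj hij
  · -- c2
    intro j hj q _
    rcases getD_mem_or (ll j) q with hq | hq
    · left
      obtain ⟨l, hl, hle⟩ := exists_getD ((hcl j hj).2.1 _ hq)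
      refine ⟨l, by omega, fun x y => ?_⟩
      rw [eQ2 j hj, eF2, hFB l (by omega), hle]
    · right
      intro x y
      rw [eQ2 j hj, hq, evalEval_one]
  · -- c3
    intro j hj x y
    obtain ⟨h1, h2, h3⟩ := hcl j hj
    rw [← prod_getD (ll j) D h1] at h3
    have h4 := h3 x y
    rw [evalEval_finset_prod] at h4
    rw [show d2.cc j = cc j from rfl, show d2.lam = lam from rfl, h4]
    congr 1
    exact Finset.prod_congr rfl fun q _ => (eQ2 j hj q x y).symm
  · -- c4
    refine ⟨Ψ.natDegree, (CompB.td_natDegree hΨtd).trans_lt hN2, ?_, ?_⟩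
    · show (Ψ.coeff Ψ.natDegree).coeff 0 = 1
      rw [hΨm.coeff_natDegree, coeff_one_zero]
    · intro s _ t _ hst
      show (Ψ.coeff t).coeff s = 0
      rcases hst with ⟨rfl, hs⟩ | hlt
      · rw [hΨm.coeff_natDegree, coeff_one, if_neg hs]
      · rw [coeff_eq_zero_of_natDegree_lt hlt, coeff_zero]
  · -- c5
    intro x y
    rw [show d2.Psi D k x y = Ψ.evalEval x y from eΨ x y, ← hΨp, evalEval_finset_prod]
    exact Finset.prod_congr rfl fun l _ => eF2 l x y
  · -- c6
    have e1 : d2.Psi D k = fun x y => Ψ.evalEval x y := by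
      funext x y; exact eΨ x y
    have e2 : d2.Psiy D k = fun x y => (derivative Ψ).evalEval x y := by
      funext x y; exact eΨy x y
    rw [e1, e2]
    exact hdPsi
  · -- c7
    intro i _
    obtain ⟨a, ha, hev⟩ := hpen i
    refine ⟨a, ha, fun m ρ => ?_⟩
    rw [show d2.hc i = arr (hP i) from rfl, eh, show d2.g i = g i from rfl, ← hev,
      ← prod_getD B D hBl, evalEval_finset_prod]
    refine Finset.prod_congr rfl fun l hl => ?_
    rw [eF2, hFB l (Finset.mem_range.1 hl)]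
  · -- c8
    intro i _
    have h1 := hPen i
    rw [show d2.hc i = arr (hP i) from rfl]
    simp only [eh, ehy]
    exact h1
  · -- c9
    intro i hi c hc
    obtain ⟨l, hl, hle⟩ := hlin i hi c hc
    refine ⟨l, hl, fun x y => ?_⟩
    rw [eF2, hle, lin_eval]
  · -- c10
    intro q₁ _
    have e1 : (fun y (_ : ℝ) => d2.Psi D k (d2.xs D k q₁) y) =
        fun y (_ : ℝ) => Ψ.evalEval (d0.xs D k q₁) y := by
      funext y _; exact eΨ _ y
    rw [e1]
    exact hdFib q₁
  · -- c11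
    intro q₁ _ q₂ _
    by_cases hS : (d2.xs D k q₁, d2.ys D k q₁ q₂) ∈ d2.S φ
    · right
      obtain ⟨i, hi, hvis⟩ := hg3 _ hS
      refine ⟨i, hi, fun l hl => ?_, fun q₃ _ ht0 ht1 => hvis _ ht0 ht1⟩
      rcases hdSeg q₁ q₂ i l hl with h0 | h0
      · left
        intro t
        rw [eF2]
        exact h0 t
      · right
        simp only [eF2]
        exact h0
    · exact Or.inl hS

end Pool.Agent.H612.PG
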