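import Pool.Agent.H612.PG.AlgDefs

/-! K6: every real polynomial divides a product of linear and positive quadratic factors. -/

namespace Pool.Agent.H612.PG

open Polynomial
open scoped Polynomial.Bivariate

namespace RealFac

/-- one factor -/
theorem exists_factor (r : ℝ[X]) (n : ℕ) (hr : r ≠ 0) (hn : r.natDegree ≤ n + 1) :
    ∃ (g g' r' : ℝ[X]) (z α β : ℝ), 0 < β ∧ g'.natDegree ≤ 3 ∧ r = g * r' ∧ r' ≠ 0 ∧
      r'.natDegree ≤ n ∧ g * g' = (X - C z) * ((X - C α) ^ 2 + C β) := by
  have hq : ∀ α β : ℝ, ((X - C α) ^ 2 + C β : ℝ[X]).natDegree = 2 := by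
    intro α β
    have h1 : ((X - C α) ^ 2 : ℝ[X]).natDegree = 2 := by
      rw [natDegree_pow, natDegree_X_sub_C]
    rw [natDegree_add_C, h1]
  by_cases h0 : r.natDegree = 0
  · refine ⟨1, (X - C 0) * ((X - C 0) ^ 2 + C 1), r, 0, 0, 1, one_pos, ?_, by simp, hr, by omega,
      by simp⟩
    refine (natDegree_mul_le).trans ?_
    rw [hq, natDegree_X_sub_C]
  · have hdeg : 0 < (r.map (algebraMap ℝ ℂ)).degree := by
      rw [degree_map]
      exact natDegree_pos_iff_degree_pos.1 (Nat.pos_of_ne_zero h0)
    obtain ⟨w, hw⟩ := Complex.exists_root hdeg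
    have hw' : aeval w r = 0 := by
      rw [IsRoot, eval_map_algebraMap] at hw
      exact hw
    by_cases him : w.im = 0
    · have hwr : w = (w.re : ℂ) := by
        apply Complex.ext
        · simp
        · simp [him]
      have hroot : r.IsRoot w.re := by
        rw [hwr] at hw'
        have h2 : aeval ((w.re : ℝ) : ℂ) r = ((r.eval w.re : ℝ) : ℂ) := by
          have := aeval_algebraMap_apply ℂ (w.re) r
          simpa using this
        rw [h2] at hw'
        exact_mod_cast hw'
      obtain ⟨r', hr'⟩ := dvd_iff_isRoot.2 hroot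
      have hr0 : r' ≠ 0 := by
        rintro rfl
        rw [mul_zero] at hr'
        exact hr hr'
      refine ⟨X - C w.re, (X - C 0) ^ 2 + C 1, r', w.re, 0, 1, one_pos, by rw [hq]; norm_num,
        hr', hr0, ?_, rfl⟩
      rw [hr', natDegree_mul (X_sub_C_ne_zero _) hr0, natDegree_X_sub_C] at hn
      omega
    · obtain ⟨r', hr'⟩ := quadratic_dvd_of_aeval_eq_zero_im_ne_zero r hw' him
      have hquad : (X ^ 2 - C (2 * w.re) * X + C (‖w‖ ^ 2) : ℝ[X]) =
          (X - C w.re) ^ 2 + C (w.im ^ 2) := by
        have h3 : ‖w‖ ^ 2 = w.re ^ 2 + w.im ^ 2 := by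
          rw [Complex.sq_norm, Complex.normSq_apply]
          ring
        rw [h3]
        simp only [C_add, C_mul, C_pow, map_ofNat]
        ring
      rw [hquad] at hr'
      have hr0 : r' ≠ 0 := by
        rintro rfl
        rw [mul_zero] at hr'
        exact hr hr'
      have hg0 : ((X - C w.re) ^ 2 + C (w.im ^ 2) : ℝ[X]) ≠ 0 := by
        intro h
        have := hq w.re (w.im ^ 2)
        rw [h] at this
        simp at this
      refine ⟨(X - C w.re) ^ 2 + C (w.im ^ 2), X - C 0, r', 0, w.re, w.im ^ 2, by positivity,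
        by rw [natDegree_X_sub_C]; norm_num, hr', hr0, ?_, by ring⟩
      rw [hr', natDegree_mul hg0 hr0, hq] at hn
      omega

end RealFac

/-- K6. Every nonzero real polynomial of degree at most `n` divides a product of `n` linear factors
and `n` positive quadratic factors. -/
theorem exists_real_factor (r : ℝ[X]) (n : ℕ) (hr : r ≠ 0) (hn : r.natDegree ≤ n) :
    ∃ (E : ℝ[X]) (z α β : ℕ → ℝ), (∀ b, 0 < β b) ∧ E.natDegree ≤ 3 * n ∧
      r * E = (∏ a ∈ Finset.range n, (X - C (z a))) *
        ∏ b ∈ Finset.range n, ((X - C (α b)) ^ 2 + C (β b)) := by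
  induction n generalizing r with
  | zero =>
    have h0 : r.natDegree = 0 := by omega
    obtain ⟨c, rfl⟩ := natDegree_eq_zero.1 h0
    have hc : c ≠ 0 := by
      rintro rfl
      simp at hr
    refine ⟨C c⁻¹, fun _ => 0, fun _ => 0, fun _ => 1, fun _ => one_pos, by simp, ?_⟩
    rw [← C_mul, mul_inv_cancel₀ hc]
    simp
  | succ n ih =>
    obtain ⟨g, g', r', z, α, β, hβ, hg', rfl, hr0, hr', hgg⟩ := RealFac.exists_factor r n hr hn
    obtain ⟨E, zz, αα, ββ, h1, h2, h3⟩ := ih r' hr0 hr'
    refine ⟨E * g', Function.update zz n z, Function.update αα n α, Function.update ββ n β, ?_, ?_,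
      ?_⟩
    · intro b
      by_cases hb : b = n
      · subst hb; rw [Function.update_self]; exact hβ
      · rw [Function.update_of_ne hb]; exact h1 b
    · refine (natDegree_mul_le).trans ?_
      omega
    · rw [Finset.prod_range_succ, Finset.prod_range_succ]
      simp only [Function.update_self]
      have e1 : ∏ a ∈ Finset.range n, (X - C (Function.update zz n z a) : ℝ[X]) =
          ∏ a ∈ Finset.range n, (X - C (zz a)) := by
        refine Finset.prod_congr rfl fun a ha => ?_
        rw [Function.update_of_ne (Finset.mem_range.1 ha).ne]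
      have e2 : ∏ b ∈ Finset.range n, ((X - C (Function.update αα n α b)) ^ 2 +
          C (Function.update ββ n β b) : ℝ[X]) =
          ∏ b ∈ Finset.range n, ((X - C (αα b)) ^ 2 + C (ββ b)) := by
        refine Finset.prod_congr rfl fun a ha => ?_
        rw [Function.update_of_ne (Finset.mem_range.1 ha).ne,
          Function.update_of_ne (Finset.mem_range.1 ha).ne]
      rw [e1, e2]
      calc g * r' * (E * g') = (r' * E) * (g * g') := by ring
        _ = _ := by rw [h3, hgg]; ring

end Pool.Agent.H612.PG
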