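import Pool.Agent.H612.PG.Cert
import Pool.Agent.H612.PG.Bezout
import Pool.Agent.H612.PG.RealFac

/-! L1, L2, L3: arrays of coefficients and Bezout certificates. -/

namespace Pool.Agent.H612.PG

open Polynomial
open scoped Polynomial.Bivariate

/-- Evaluation as a double sum over the coefficients. -/
theorem evalEval_eq_sum (f : ℝ[X][Y]) (N : ℕ) (hx : dX f < N) (hy : f.natDegree < N) (x y : ℝ) :
    f.evalEval x y = ∑ s ∈ Finset.range N, ∑ t ∈ Finset.range N,
      (f.coeff t).coeff s * x ^ s * y ^ t := by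
  have h1 : ∀ t, (f.coeff t).natDegree < N := fun t =>
    lt_of_le_of_lt ((Bez.dX_le_iff f (dX f)).1 le_rfl t) hx
  unfold evalEval
  rw [eval_eq_sum_range' hy, eval_finset_sum, Finset.sum_comm]
  refine Finset.sum_congr rfl fun t _ => ?_
  rw [eval_mul, eval_pow, eval_C, eval_eq_sum_range' (h1 t), Finset.sum_mul]

/-- L1. Arrays of coefficients. -/
theorem exists_array (f : ℝ[X][Y]) (N : ℕ) (hx : dX f < N) (hy : f.natDegree < N) :
    ∃ c : ℕ → ℕ → ℝ, (∀ s t, c s t = (f.coeff t).coeff s) ∧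
      (∀ x y, P2 N c x y = f.evalEval x y) ∧
      ∀ x y, P2y N c x y = (derivative f).evalEval x y := by
  refine ⟨fun s t => (f.coeff t).coeff s, fun _ _ => rfl, fun x y => ?_, fun x y => ?_⟩
  · rw [evalEval_eq_sum f N hx hy]
    rfl
  · have h0 : 0 < N := by omega
    obtain ⟨M, rfl⟩ : ∃ M, N = M + 1 := ⟨N - 1, by omega⟩
    have hx' : dX (derivative f) < M + 1 := lt_of_le_of_lt (Bez.dX_derivative_le f) hx
    have hy' : (derivative f).natDegree < M + 1 :=
      lt_of_le_of_lt ((natDegree_derivative_le f).trans (Nat.sub_le _ _)) hy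
    rw [evalEval_eq_sum _ (M + 1) hx' hy']
    unfold P2y
    refine Finset.sum_congr rfl fun s _ => ?_
    rw [Finset.sum_range_succ', Finset.sum_range_succ]
    have h1 : (((derivative f).coeff M).coeff s) = 0 := by
      rw [coeff_derivative]
      have : f.coeff (M + 1) = 0 := coeff_eq_zero_of_natDegree_lt hy
      rw [this, zero_mul, coeff_zero]
    rw [h1]
    simp only [Nat.cast_zero, zero_mul, mul_zero, add_zero]
    refine Finset.sum_congr rfl fun t _ => ?_
    have h2 : ((derivative f).coeff t).coeff s = (f.coeff (t + 1)).coeff s * ((t : ℝ) + 1) := by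
      rw [coeff_derivative]
      have : ((t : ℝ[X]) + 1) = C ((t : ℝ) + 1) := by simp
      rw [this, coeff_mul_C]
    rw [h2, Nat.add_sub_cancel]
    push_cast
    ring

theorem dX_C (r : ℝ[X]) : dX (C r) ≤ r.natDegree := by
  rw [Bez.dX_le_iff]
  intro j
  rw [coeff_C]
  split_ifs
  · exact le_rfl
  · simp

/-- L2. Certificates for squarefree polynomials. -/
theorem exists_BC (G : ℝ[X][Y]) (hG : Squarefree G) (h0 : G ≠ 0) (a b n : ℕ) (ha : dX G ≤ a)
    (hb : G.natDegree ≤ b) (hn : 2 * a * b + a + b + 1 ≤ n) :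
    ∃ d, BC n (fun u v => G.evalEval u v) (fun u v => (derivative G).evalEval u v) d := by
  obtain ⟨A, B, r, hr, hAB, hA, hB, hA', hB', hr'⟩ := exists_bezout G hG h0 a b ha hb
  obtain ⟨E, z, α, β, hβ, hE, hrE⟩ := exists_real_factor r n hr (by omega)
  have hdeg : ∀ P : ℝ[X][Y], dX P ≤ 2 * a * b → P.natDegree ≤ b →
      dX (C E * P) < 8 * n ∧ (C E * P).natDegree < 8 * n := by
    intro P h1 h2
    have h3 := Bez.dX_mul_le (C E) P
    have h4 := dX_C E
    have h5 := natDegree_C_mul_le E P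
    constructor <;> omega
  obtain ⟨cA, -, hcA, -⟩ := exists_array (C E * A) (8 * n) (hdeg A hA hA').1 (hdeg A hA hA').2
  obtain ⟨cB, -, hcB, -⟩ := exists_array (C E * B) (8 * n) (hdeg B hB hB').1 (hdeg B hB hB').2
  refine ⟨⟨cA, cB, z, α, β⟩, fun b _ => hβ b, fun u v => ?_⟩
  simp only
  rw [hcA, hcB, ← evalEval_mul, ← evalEval_mul, ← evalEval_add]
  have e : C E * A * G + C E * B * derivative G = C (r * E) := by
    have : C E * A * G + C E * B * derivative G = C E * (A * G + B * derivative G) := by ring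
    rw [this, hAB, ← C_mul, mul_comm]
  rw [e, evalEval_C, hrE]
  simp [eval_prod]

/-- L3. Certificates for univariate polynomials. -/
theorem exists_BC_one (f : ℝ[X]) (n : ℕ) (h0 : f ≠ 0) (hn : f.natDegree ≤ n) (h1 : 1 ≤ n) :
    ∃ d, BC n (fun u _ => f.eval u) (fun _ _ => 0) d := by
  obtain ⟨E, z, α, β, hβ, hE, hrE⟩ := exists_real_factor f n h0 hn
  obtain ⟨cA, -, hcA, -⟩ := exists_array (C E) (8 * n)
    (lt_of_le_of_lt (dX_C E) (by omega)) (by rw [natDegree_C]; omega)
  refine ⟨⟨cA, fun _ _ => 0, z, α, β⟩, fun b _ => hβ b, fun u v => ?_⟩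
  simp only
  rw [hcA, mul_zero, add_zero, evalEval_C, mul_comm, ← eval_mul, hrE]
  simp [eval_prod]

end Pool.Agent.H612.PG
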