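import Pool.Agent.H612.PG.Cert

/-! Stubs of the tasks for completeness of certificates. -/

namespace Pool.Agent.H612.PG

open Polynomial Pool.Agent.NPC.H612
open scoped Polynomial.Bivariate

/-- L1. Arrays of coefficients. -/
theorem exists_array (f : ℝ[X][Y]) (N : ℕ) (hx : dX f < N) (hy : f.natDegree < N) :
    ∃ c : ℕ → ℕ → ℝ, (∀ s t, c s t = (f.coeff t).coeff s) ∧
      (∀ x y, P2 N c x y = f.evalEval x y) ∧
      ∀ x y, P2y N c x y = (derivative f).evalEval x y := by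
  sorry

/-- L2. Certificates for squarefree polynomials. -/
theorem exists_BC (G : ℝ[X][Y]) (hG : Squarefree G) (h0 : G ≠ 0) (a b n : ℕ) (ha : dX G ≤ a)
    (hb : G.natDegree ≤ b) (hn : 2 * a * b + a + b + 1 ≤ n) :
    ∃ d, BC n (fun u v => G.evalEval u v) (fun u v => (derivative G).evalEval u v) d := by
  sorry

/-- L3. Certificates for univariate polynomials. -/
theorem exists_BC_one (f : ℝ[X]) (n : ℕ) (h0 : f ≠ 0) (hn : f.natDegree ≤ n) (h1 : 1 ≤ n) :
    ∃ d, BC n (fun u _ => f.eval u) (fun _ _ => 0) d := by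
  sorry

/-- L4. A base of monic irreducible polynomials. -/
theorem exists_base (L : List ℝ[X][Y]) (Ds : List ℕ) (D : ℕ)
    (h : List.Forall₂ (fun f E => TD E f) L Ds) (hD : Ds.sum ≤ D) :
    ∃ (lam : ℝ) (B : List ℝ[X][Y]), (∀ q ∈ B, q.Monic ∧ Irreducible q) ∧ B.Nodup ∧
      B.length ≤ D ∧ TD D B.prod ∧ ∀ f ∈ L, ∃ (c : ℝ) (l : List ℝ[X][Y]), l.length ≤ D ∧
        (∀ q ∈ l, q ∈ B) ∧ ∀ x y, f.evalEval (x + lam * y) y = c * l.prod.evalEval x y := by
  sorry

/-- L5. Polynomials written as lists of terms. -/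
theorem exists_poly (p : List (ℤ × List ℕ)) : ∃ f : ℝ[X][Y],
    TD (p.flatMap fun t => t.2).length f ∧
    ∀ x y : ℝ, wval (xt (![x, y] : Fin 2 → ℝ)) p = f.evalEval x y := by
  sorry

/-- L6. Restriction to a line. -/
theorem exists_line (f : ℝ[X][Y]) (E : ℕ) (hf : TD E f) (a b c d : ℝ) : ∃ q : ℝ[X],
    q.natDegree ≤ E ∧ ∀ t, q.eval t = f.evalEval (a + t * b) (c + t * d) := by
  sorry

/-- L7. Completeness of the certificates (uses L1-L6, K3 `squarefree_prod`, K4 `exists_pencil`). -/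
theorem exists_dat (k : ℕ) (φ : QF) (h : Guardable (gallery 2 φ) k) :
    ∃ d : Dat, d.Good (szD φ) k φ := by
  sorry

end Pool.Agent.H612.PG
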