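import Mathlib

/-!
# Crossing lemmas for continuously differentiable functions depending on a parameter
-/

namespace Pool.Agent.H612.PG

open Filter Topology Set

/-- Product neighbourhoods. -/
theorem ev_prod {X : Type*} [TopologicalSpace X] {P : X → ℝ → Prop} {x₀ : X} {t₀ : ℝ}
    (h : ∀ᶠ q : X × ℝ in 𝓝 (x₀, t₀), P q.1 q.2) :
    ∃ ε > 0, ∀ᶠ x in 𝓝 x₀, ∀ t, |t - t₀| ≤ ε → P x t := by
  rw [nhds_prod_eq, eventually_prod_iff] at h
  obtain ⟨pa, ha, pb, hb, hab⟩ := h
  obtain ⟨ε, hε, hb'⟩ := Metric.eventually_nhds_iff.1 hb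
  refine ⟨ε / 2, by positivity, ha.mono fun x hx t ht => hab hx (hb' ?_)⟩
  rw [Real.dist_eq]
  linarith

theorem StrictMono_ev {X : Type*} [TopologicalSpace X] {f f' : X → ℝ → ℝ} {x₀ : X} {t₀ : ℝ}
    (hf' : Continuous fun q : X × ℝ => f' q.1 q.2)
    (hd : ∀ x t, HasDerivAt (f x) (f' x t) t) (hpos : 0 < f' x₀ t₀) :
    ∃ ε > 0, ∀ᶠ x in 𝓝 x₀, StrictMonoOn (f x) (Icc (t₀ - ε) (t₀ + ε)) := by
  have h1 : ∀ᶠ q : X × ℝ in 𝓝 (x₀, t₀), 0 < f' q.1 q.2 :=
    hf'.continuousAt.eventually (lt_mem_nhds hpos)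
  obtain ⟨ε, hε, h2⟩ := ev_prod (P := fun x t => 0 < f' x t) h1
  refine ⟨ε, hε, h2.mono fun x hx => ?_⟩
  refine strictMonoOn_of_deriv_pos (convex_Icc _ _)
    (fun t _ => (hd x t).continuousAt.continuousWithinAt) fun t ht => ?_
  rw [(hd x t).deriv]
  rw [interior_Icc] at ht
  refine hx t ?_
  rw [abs_le]
  constructor <;> linarith [ht.1, ht.2]

/-- The crossing lemma: near a point where the derivative does not vanish, the functions are
strictly monotone (after multiplication by `σ = ±1`). -/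
theorem crossing {X : Type*} [TopologicalSpace X] {f f' : X → ℝ → ℝ} {x₀ : X} {t₀ : ℝ}
    (hf' : Continuous fun q : X × ℝ => f' q.1 q.2)
    (hd : ∀ x t, HasDerivAt (f x) (f' x t) t) (hne : f' x₀ t₀ ≠ 0) :
    ∃ σ : ℝ, (σ = 1 ∨ σ = -1) ∧ ∃ ε > 0, ∀ᶠ x in 𝓝 x₀,
      StrictMonoOn (fun t => σ * f x t) (Icc (t₀ - ε) (t₀ + ε)) := by
  rcases lt_or_gt_of_ne hne with h | h
  · obtain ⟨ε, hε, h1⟩ := StrictMono_ev (f := fun x t => -1 * f x t)
      (f' := fun x t => -1 * f' x t) (x₀ := x₀) (t₀ := t₀) (continuous_const.mul hf')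
      (fun x t => (hd x t).const_mul (-1)) (by linarith)
    exact ⟨-1, Or.inr rfl, ε, hε, h1⟩
  · obtain ⟨ε, hε, h1⟩ := StrictMono_ev (f := fun x t => 1 * f x t)
      (f' := fun x t => 1 * f' x t) (x₀ := x₀) (t₀ := t₀) (continuous_const.mul hf')
      (fun x t => (hd x t).const_mul 1) (by linarith)
    exact ⟨1, Or.inl rfl, ε, hε, h1⟩

/-- Sign is locally constant where the function does not vanish. -/
theorem sign_ev {X : Type*} [TopologicalSpace X] {f : X → ℝ} {x₀ : X} (hf : ContinuousAt f x₀)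
    (h : f x₀ ≠ 0) : ∀ᶠ x in 𝓝 x₀, SignType.sign (f x) = SignType.sign (f x₀) := by
  rcases lt_or_gt_of_ne h with h | h
  · filter_upwards [hf.eventually (gt_mem_nhds h)] with x hx
    rw [sign_neg hx, sign_neg h]
  · filter_upwards [hf.eventually (lt_mem_nhds h)] with x hx
    rw [sign_pos hx, sign_pos h]

/-- A continuous function without zeros on a preconnected set has constant sign there. -/
theorem sign_const {X : Type*} [TopologicalSpace X] {f : X → ℝ} {C : Set X}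
    (hC : IsPreconnected C) (hf : ContinuousOn f C) (h : ∀ x ∈ C, f x ≠ 0) {x y : X} (hx : x ∈ C)
    (hy : y ∈ C) : SignType.sign (f x) = SignType.sign (f y) := by
  rcases lt_or_gt_of_ne (h x hx) with h1 | h1 <;> rcases lt_or_gt_of_ne (h y hy) with h2 | h2
  · rw [sign_neg h1, sign_neg h2]
  · obtain ⟨z, hz, hz0⟩ := hC.intermediate_value hx hy hf ⟨h1.le, h2.le⟩
    exact absurd hz0 (h z hz)
  · obtain ⟨z, hz, hz0⟩ := hC.intermediate_value hy hx hf ⟨h2.le, h1.le⟩
    exact absurd hz0 (h z hz)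
  · rw [sign_pos h1, sign_pos h2]

/-- A locally constant predicate on a preconnected set is constant. -/
theorem pred_const {X : Type*} [TopologicalSpace X] {C : Set X} (hC : IsPreconnected C)
    {P : X → Prop} (h : ∀ x ∈ C, ∀ᶠ y in 𝓝[C] x, (P y ↔ P x)) {x y : X} (hx : x ∈ C)
    (hy : y ∈ C) : P x ↔ P y := by
  classical
  have hf : ContinuousOn (fun x => decide (P x)) C := by
    intro a ha
    have : Tendsto (fun x => decide (P x)) (𝓝[C] a) (pure (decide (P a))) := by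
      rw [tendsto_pure]
      filter_upwards [h a ha] with b hb
      exact decide_eq_decide.2 hb
    exact this.mono_right (pure_le_nhds _)
  have := hC.constant hf hx hy
  exact decide_eq_decide.1 this

/-- Samples of a finite set. -/
noncomputable def samp (Z : Finset ℝ) : Set ℝ :=
  {s | ∃ a ∈ Z, ∃ b ∈ Z, ∃ e : ℝ, (e = -1 ∨ e = 0 ∨ e = 1) ∧ s = (a + b) / 2 + e}

theorem mem_samp_self {Z : Finset ℝ} {x : ℝ} (h : x ∈ Z) : x ∈ samp Z :=
  ⟨x, h, x, h, 0, Or.inr (Or.inl rfl), by ring⟩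

/-- Every point outside of `Z` can be joined to a sample within the complement of `Z`. -/
theorem exists_samp {Z : Finset ℝ} (hZ : Z.Nonempty) {x : ℝ} (hx : x ∉ Z) :
    ∃ s ∈ samp Z, ∀ z ∈ Z, z ∉ uIcc s x := by
  classical
  by_cases hl : ∃ z ∈ Z, z < x
  · by_cases hr : ∃ z ∈ Z, x < z
    · -- between two elements
      obtain ⟨a₀, ha₀, ha₀'⟩ := hl
      obtain ⟨b₀, hb₀, hb₀'⟩ := hr
      have hL : (Z.filter (· < x)).Nonempty := ⟨a₀, Finset.mem_filter.2 ⟨ha₀, ha₀'⟩⟩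
      have hR : (Z.filter (x < ·)).Nonempty := ⟨b₀, Finset.mem_filter.2 ⟨hb₀, hb₀'⟩⟩
      set a := (Z.filter (· < x)).max' hL with ha
      set b := (Z.filter (x < ·)).min' hR with hb
      have ha1 := Finset.mem_filter.1 ((Z.filter (· < x)).max'_mem hL)
      have hb1 := Finset.mem_filter.1 ((Z.filter (x < ·)).min'_mem hR)
      rw [← ha] at ha1
      rw [← hb] at hb1
      refine ⟨(a + b) / 2, ⟨a, ha1.1, b, hb1.1, 0, Or.inr (Or.inl rfl), by ring⟩,
        fun z hz hmem => ?_⟩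
      have hzx : z ≠ x := fun h => hx (h ▸ hz)
      have h1 : z ≤ a ∨ b ≤ z := by
        rcases lt_or_gt_of_ne hzx with h | h
        · exact Or.inl ((Z.filter (· < x)).le_max' z (Finset.mem_filter.2 ⟨hz, h⟩))
        · exact Or.inr ((Z.filter (x < ·)).min'_le z (Finset.mem_filter.2 ⟨hz, h⟩))
      rw [mem_uIcc] at hmem
      have h2 := ha1.2
      have h3 := hb1.2
      rcases h1 with h1 | h1 <;> rcases hmem with h4 | h4 <;> linarith [h4.1, h4.2]
    · push Not at hr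
      set a := Z.max' hZ with ha
      refine ⟨a + 1, ⟨a, Z.max'_mem hZ, a, Z.max'_mem hZ, 1, Or.inr (Or.inr rfl), by ring⟩,
        fun z hz hmem => ?_⟩
      have h1 : z < x := lt_of_le_of_ne (hr z hz) fun h => hx (h ▸ hz)
      have h2 : z ≤ a := Z.le_max' z hz
      rw [mem_uIcc] at hmem
      rcases hmem with h4 | h4 <;> linarith [h4.1, h4.2]
  · push Not at hl
    set a := Z.min' hZ with ha
    refine ⟨a - 1, ⟨a, Z.min'_mem hZ, a, Z.min'_mem hZ, -1, Or.inl rfl, by ring⟩,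
      fun z hz hmem => ?_⟩
    have h1 : x < z := lt_of_le_of_ne (hl z hz) fun h => hx (h ▸ hz)
    have h2 : a ≤ z := Z.min'_le z hz
    rw [mem_uIcc] at hmem
    rcases hmem with h4 | h4 <;> linarith [h4.1, h4.2]

end Pool.Agent.H612.PG
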