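import Pool.Agent.H612.PG.Cert
import Pool.Agent.H612.ClosedPoly

/-!
# The existential formula of the planar art gallery problem: definitions
-/

namespace Pool.Agent.H612.PG

open Pool.Agent.NPC Pool.Agent.NPC.ER Pool.Agent.NPC.H612

/-! ### Bounded sums, products, quantifiers -/

/-- Sum of terms. -/
def sumR (n : ℕ) (f : ℕ → Tm) : Tm := sumT ((List.range n).map f)

/-- Product of terms. -/
def prodR (n : ℕ) (f : ℕ → Tm) : Tm := prodT ((List.range n).map f)

/-- Bounded conjunction. -/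
def allR (n : ℕ) (f : ℕ → Fm) : Fm := conj ((List.range n).map f)

/-- Bounded disjunction. -/
def exR (n : ℕ) (f : ℕ → Fm) : Fm := disj ((List.range n).map f)

/-- Numerals. -/
def numT (n : ℕ) : Tm := natT n.bits

/-- Powers with exponents at most `N`. -/
def powR (N : ℕ) (x : Tm) (s : ℕ) : Tm := prodR N fun m => if m < s then x else Tm.one

/-- Difference. -/
def subT (x y : Tm) : Tm := Tm.add x (Tm.neg y)

/-! ### Names of the variables -/

/-- Names of the variables. -/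
def nm (T a b c e K s t : ℕ) : ℕ :=
  Nat.pair T (Nat.pair a (Nat.pair b (Nat.pair c (Nat.pair e (Nat.pair K (Nat.pair s t))))))

/-- The variables. -/
def vr (T a b c e K s t : ℕ) : Tm := Tm.var (nm T a b c e K s t)

/-- Polynomials with variable coefficients. -/
def P2T (N T a b c e K : ℕ) (x y : Tm) : Tm :=
  sumR N fun s => sumR N fun t =>
    Tm.mul (Tm.mul (vr T a b c e K s t) (powR N x s)) (powR N y t)

/-- Their derivatives. -/
def P2yT (N T a b c e K : ℕ) (x y : Tm) : Tm :=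
  sumR N fun s => sumR N fun t =>
    Tm.mul (Tm.mul (vr T a b c e K s t) (powR N x s)) (Tm.mul (numT t) (powR N y (t - 1)))

/-- The size of the grid. -/
def GS (D k : ℕ) : ℕ := 20 * N2 D k

/-- Identities on the grid. -/
def grid (M : ℕ) (A B : ℕ → ℕ → Tm) : Fm :=
  allR (M + 1) fun u => allR (M + 1) fun w => Fm.eq (A u w) (B u w)

/-- The formula for Bezout certificates. -/
def BCF (M n : ℕ) (G G' : ℕ → ℕ → Tm) (T a b c e : ℕ) : Fm :=
  Fm.and (allR n fun m => Fm.lt Tm.zero (vr T a b c e 4 m 0))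
    (grid M (fun u w => Tm.add (Tm.mul (P2T (8 * n) T a b c e 0 (numT u) (numT w)) (G u w))
      (Tm.mul (P2T (8 * n) T a b c e 1 (numT u) (numT w)) (G' u w)))
    (fun u _ => Tm.mul (prodR n fun m => subT (numT u) (vr T a b c e 2 m 0))
      (prodR n fun m => Tm.add (Tm.mul (subT (numT u) (vr T a b c e 3 m 0))
        (subT (numT u) (vr T a b c e 3 m 0))) (vr T a b c e 4 m 0))))

/-! ### The parts of the certificate -/

/-- The shear. -/
def lamT : Tm := vr 0 0 0 0 0 0 0 0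

/-- First coordinates of the guards. -/
def g1T (i : ℕ) : Tm := vr 1 i 0 0 0 0 0 0

/-- Second coordinates of the guards. -/
def g2T (i : ℕ) : Tm := vr 2 i 0 0 0 0 0 0

/-- One half. -/
def halfT : Tm := vr 12 0 0 0 0 0 0 0

/-- The functions `F l`. -/
def FT (D l : ℕ) (x y : Tm) : Tm := P2T (N0 D) 3 l 0 0 0 0 x y

/-- The factors. -/
def QT (D j q : ℕ) (x y : Tm) : Tm := P2T (N0 D) 4 j q 0 0 0 x y

/-- The product. -/
def PsiT (D k : ℕ) (x y : Tm) : Tm := P2T (N2 D k) 6 0 0 0 0 0 x y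

/-- The derivative of the product. -/
def PsiyT (D k : ℕ) (x y : Tm) : Tm := P2yT (N2 D k) 6 0 0 0 0 0 x y

/-- The function of the critical directions. -/
def hT (D i : ℕ) (x y : Tm) : Tm := P2T (N0 D) 7 i 0 0 0 0 x y

/-- Its derivative. -/
def hyT (D i : ℕ) (x y : Tm) : Tm := P2yT (N0 D) 7 i 0 0 0 0 x y

/-- Samples. -/
def smpT (n : ℕ) (f : ℕ → Tm) (q : ℕ) : Tm :=
  Tm.add (Tm.mul (Tm.add (f (q / 3 / n)) (f (q / 3 % n))) halfT)
    (subT (numT (q % 3)) Tm.one)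

/-- The critical abscissas. -/
def ZfT (D k a : ℕ) : Tm := if a < N2 D k then vr 8 0 0 0 0 2 a 0 else g1T (a - N2 D k)

/-- The sample abscissas. -/
def xsT (D k q : ℕ) : Tm := smpT (N2 D k + k) (ZfT D k) q

/-- The critical ordinates. -/
def WfT (D k q₁ a : ℕ) : Tm := if a < N2 D k then vr 10 q₁ 0 0 0 2 a 0 else g2T (a - N2 D k)

/-- The sample ordinates. -/
def ysT (D k q₁ q₂ : ℕ) : Tm := smpT (N2 D k + k) (WfT D k q₁) q₂

/-- The critical parameters. -/
def TfT (D k q₁ q₂ i a : ℕ) : Tm :=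
  if a < D * N2 D k then vr 11 q₁ q₂ i (a / N2 D k) 2 (a % N2 D k) 0
  else if a = D * N2 D k then Tm.zero else Tm.one

/-- The sample parameters. -/
def tsT (D k q₁ q₂ i q₃ : ℕ) : Tm := smpT (D * N2 D k + 2) (TfT D k q₁ q₂ i) q₃

/-- First coordinate on a segment. -/
def sxT (D k q₁ i : ℕ) (t : Tm) : Tm := Tm.add (g1T i) (Tm.mul t (subT (xsT D k q₁) (g1T i)))

/-- Second coordinate on a segment. -/
def syT (D k q₁ q₂ i : ℕ) (t : Tm) : Tm :=
  Tm.add (g2T i) (Tm.mul t (subT (ysT D k q₁ q₂) (g2T i)))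

/-- Coordinates of the original plane. -/
def shT (x y : Tm) (c : ℕ) : Tm := if c = 0 then Tm.add x (Tm.mul lamT y) else y

/-- Membership in the set `S`. -/
def SF (φ : QF) (x y : Tm) : Fm := subF 2 (shT x y) φ

/-! ### The conditions -/

/-- One half. -/
def hF : Fm := Fm.eq (Tm.add halfT halfT) Tm.one

def f1 (k : ℕ) (φ : QF) : Fm := allR k fun i => SF φ (g1T i) (g2T i)

def f1' (k : ℕ) : Fm := allR k fun i => allR k fun j => if i = j then tt else
  Fm.or (Fm.not (Fm.eq (g1T i) (g1T j))) (Fm.not (Fm.eq (g2T i) (g2T j)))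

def f2 (D k J : ℕ) : Fm := allR J fun j => allR D fun q =>
  Fm.or (exR D fun l => grid (GS D k) (fun x y => QT D j q (numT x) (numT y))
    (fun x y => FT D l (numT x) (numT y)))
  (grid (GS D k) (fun x y => QT D j q (numT x) (numT y)) fun _ _ => Tm.one)

def f3 (D k : ℕ) (φ : QF) : Fm := allR φ.polys.length fun j =>
  grid (GS D k) (fun x y => pT 2 (shT (numT x) (numT y)) (φ.polys.getD j []))
    (fun x y => Tm.mul (vr 5 j 0 0 0 0 0 0) (prodR D fun q => QT D j q (numT x) (numT y)))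

def f4 (D k : ℕ) : Fm := exR (N2 D k) fun n => Fm.and (Fm.eq (vr 6 0 0 0 0 0 0 n) Tm.one)
  (allR (N2 D k) fun s => allR (N2 D k) fun t => if (t = n ∧ s ≠ 0) ∨ n < t then
    Fm.eq (vr 6 0 0 0 0 0 s t) Tm.zero else tt)

def f5 (D k : ℕ) : Fm := grid (GS D k)
  (fun x y => prodR (R1 D k) fun l => FT D l (numT x) (numT y))
  (fun x y => PsiT D k (numT x) (numT y))

def f6 (D k : ℕ) : Fm := BCF (GS D k) (N2 D k) (fun x y => PsiT D k (numT x) (numT y))
  (fun x y => PsiyT D k (numT x) (numT y)) 8 0 0 0 0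

def f7 (D k : ℕ) : Fm := allR k fun i => exR (D + 1) fun a => grid (GS D k)
  (fun m r => prodR D fun l => FT D l (Tm.add (g1T i) (numT r))
    (Tm.add (g2T i) (Tm.mul (numT m) (numT r))))
  (fun m r => Tm.mul (powR (D + 1) (numT r) a) (hT D i (numT m) (numT r)))

def f8 (D k : ℕ) : Fm := allR k fun i => BCF (GS D k) (N1 D)
  (fun m r => Tm.mul (numT r) (hT D i (numT m) (numT r)))
  (fun m r => Tm.add (hT D i (numT m) (numT r)) (Tm.mul (numT r) (hyT D i (numT m) (numT r))))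
  9 i 0 0 0

def f9 (D k : ℕ) : Fm := allR k fun i => allR (N1 D) fun c => exR (R1 D k) fun l =>
  grid (GS D k) (fun x y => FT D l (numT x) (numT y))
    (fun x y => subT (subT (numT y) (g2T i)) (Tm.mul (vr 9 i 0 0 0 2 c 0)
      (subT (numT x) (g1T i))))

def f10 (D k : ℕ) : Fm := allR (NX D k) fun q₁ => BCF (GS D k) (N2 D k)
  (fun y _ => PsiT D k (xsT D k q₁) (numT y)) (fun _ _ => Tm.zero) 10 q₁ 0 0 0

/-- The function on the segments. -/
def sgT (D k q₁ q₂ i l t : ℕ) : Tm :=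
  FT D l (sxT D k q₁ i (numT t)) (syT D k q₁ q₂ i (numT t))

/-- The point on a segment belongs to the set. -/
def svF (D k : ℕ) (φ : QF) (q₁ q₂ i q₃ : ℕ) : Fm :=
  Fm.or (Fm.not (Fm.and (Fm.le Tm.zero (tsT D k q₁ q₂ i q₃))
    (Fm.le (tsT D k q₁ q₂ i q₃) Tm.one)))
  (SF φ (sxT D k q₁ i (tsT D k q₁ q₂ i q₃)) (syT D k q₁ q₂ i (tsT D k q₁ q₂ i q₃)))

/-- The roots on a segment. -/
def srF (D k q₁ q₂ i l : ℕ) : Fm :=
  Fm.or (grid (GS D k) (fun t _ => sgT D k q₁ q₂ i l t) (fun _ _ => Tm.zero))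
    (BCF (GS D k) (N2 D k) (fun t _ => sgT D k q₁ q₂ i l t) (fun _ _ => Tm.zero) 11 q₁ q₂ i l)

def f11 (D k : ℕ) (φ : QF) : Fm := allR (NX D k) fun q₁ => allR (NX D k) fun q₂ =>
  Fm.or (Fm.not (SF φ (xsT D k q₁) (ysT D k q₁ q₂))) (exR k fun i =>
    Fm.and (allR D fun l => srF D k q₁ q₂ i l) (allR (NT D k) fun q₃ => svF D k φ q₁ q₂ i q₃))

/-- The formula. -/
def pgFm (k : ℕ) (φ : QF) : Fm :=
  conj [hF, f1 k φ, f1' k, f2 (szD φ) k φ.polys.length, f3 (szD φ) k φ, f4 (szD φ) k,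
    f5 (szD φ) k, f6 (szD φ) k, f7 (szD φ) k, f8 (szD φ) k, f9 (szD φ) k, f10 (szD φ) k,
    f11 (szD φ) k φ]

end Pool.Agent.H612.PG
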