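import Pool.Agent.H612.PG.FmSem

/-!
# The existential formula of the planar art gallery problem: correctness
-/

namespace Pool.Agent.H612.PG

open Pool.Agent.NPC Pool.Agent.NPC.ER Pool.Agent.NPC.H612

theorem UF2.mono {M M' : ℕ} {f : ℝ → ℝ → ℝ} (h : UF2 M f) (hM : M ≤ M') : UF2 M' f :=
  ⟨fun y => (h.1 y).mono hM, fun x => (h.2 x).mono hM⟩

theorem UF2.P2 (N : ℕ) (c : ℕ → ℕ → ℝ) : UF2 N (PG.P2 N c) :=
  ⟨fun y => (UF.id.P2 (UF.const 0 y) N c).mono (by simp),
    fun x => ((UF.const 0 x).P2 UF.id N c).mono (by simp)⟩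

theorem UF2.P2y (N : ℕ) (c : ℕ → ℕ → ℝ) : UF2 N (PG.P2y N c) :=
  ⟨fun y => (UF.id.P2y (UF.const 0 y) N c).mono (by simp),
    fun x => ((UF.const 0 x).P2y UF.id N c).mono (by simp)⟩

theorem UF2.const (M : ℕ) (c : ℝ) : UF2 M fun _ _ => c :=
  ⟨fun _ => UF.const M c, fun _ => UF.const M c⟩

theorem UF2.prod {M n : ℕ} {f : ℕ → ℝ → ℝ → ℝ} (h : ∀ i < n, UF2 M (f i)) :
    UF2 (n * M) fun x y => ∏ i ∈ Finset.range n, f i x y :=
  ⟨fun y => UF.prod n fun i hi => (h i hi).1 y, fun x => UF.prod n fun i hi => (h i hi).2 x⟩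

theorem UF2.mul {M M' : ℕ} {f g : ℝ → ℝ → ℝ} (hf : UF2 M f) (hg : UF2 M' g) :
    UF2 (M + M') fun x y => f x y * g x y :=
  ⟨fun y => (hf.1 y).mul (hg.1 y), fun x => (hf.2 x).mul (hg.2 x)⟩

theorem UF2.add {M : ℕ} {f g : ℝ → ℝ → ℝ} (hf : UF2 M f) (hg : UF2 M g) :
    UF2 M fun x y => f x y + g x y :=
  ⟨fun y => ((hf.1 y).add (hg.1 y)).mono (by simp), fun x => ((hf.2 x).add (hg.2 x)).mono (by simp)⟩

theorem UF2.sub {M : ℕ} {f g : ℝ → ℝ → ℝ} (hf : UF2 M f) (hg : UF2 M g) :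
    UF2 M fun x y => f x y - g x y :=
  ⟨fun y => ((hf.1 y).sub (hg.1 y)).mono (by simp), fun x => ((hf.2 x).sub (hg.2 x)).mono (by simp)⟩

theorem UF2.fst : UF2 1 fun x _ => x := ⟨fun _ => UF.id, fun x => UF.const _ x⟩

theorem UF2.snd : UF2 1 fun _ y => y := ⟨fun y => UF.const _ y, fun _ => UF.id⟩

theorem UF2.ofLeft {M : ℕ} {f : ℝ → ℝ} (h : UF M f) : UF2 M fun x _ => f x :=
  ⟨fun _ => h, fun x => UF.const _ (f x)⟩

/-- Lengths of the monomials. -/
theorem length_le_szD {φ : QF} {p : List (ℤ × List ℕ)} (hp : p ∈ φ.polys) {t : ℤ × List ℕ}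
    (ht : t ∈ p) : t.2.length ≤ szD φ := by
  unfold szD
  rw [List.length_flatMap]
  refine le_trans ?_ (List.single_le_sum (by simp) _ (List.mem_map.2 ⟨p, hp, rfl⟩))
  rw [List.length_flatMap]
  exact List.single_le_sum (by simp) _ (List.mem_map.2 ⟨t, ht, rfl⟩)

theorem UF2.wval {φ : QF} {j : ℕ} (hj : j < φ.polys.length) (lam : ℝ) :
    UF2 (szD φ) fun x y => NPC.H612.wval (xt ![x + lam * y, y]) (φ.polys.getD j []) := by
  have hp : φ.polys.getD j [] ∈ φ.polys := by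
    rw [List.getD_eq_getElem _ _ hj]
    exact List.getElem_mem hj
  constructor
  · intro y
    refine UF.wval (x := fun i x => xt ![x + lam * y, y] i) (fun i => ?_)
      fun t ht => length_le_szD hp ht
    rcases i with _ | _ | i
    · exact (UF.id.add (UF.const 0 (lam * y))).mono (by simp)
    · exact UF.const _ _
    · simpa [xt] using UF.const 1 0
  · intro x
    refine UF.wval (x := fun i y => xt ![x + lam * y, y] i) (fun i => ?_)
      fun t ht => length_le_szD hp ht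
    rcases i with _ | _ | i
    · exact ((UF.const 0 x).add ((UF.const 0 lam).mul UF.id)).mono (by simp)
    · exact UF.id
    · simpa [xt] using UF.const 1 0

section

variable {v : ℕ → ℝ} {D k : ℕ}

theorem holds_f1 (φ : QF) : (f1 k φ).Holds v ↔ ∀ i < k, (datOf v).g i ∈ (datOf v).S φ := by
  unfold f1
  rw [holds_allR]
  refine forall₂_congr fun i _ => ?_
  rw [holds_SF]
  rfl

theorem holds_f1' : (f1' k).Holds v ↔ ∀ i < k, ∀ j < k, i ≠ j →
    (datOf v).g i ≠ (datOf v).g j := by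
  unfold f1'
  rw [holds_allR]
  refine forall₂_congr fun i _ => ?_
  rw [holds_allR]
  refine forall₂_congr fun j _ => ?_
  by_cases h : i = j
  · rw [if_pos h]
    exact ⟨fun _ h' => absurd h h', fun _ => holds_tt _⟩
  · rw [if_neg h]
    have h1 : (datOf v).g i ≠ (datOf v).g j ↔
        ¬ (g1T i).eval v = (g1T j).eval v ∨ ¬ (g2T i).eval v = (g2T j).eval v := by
      rw [Ne, Prod.ext_iff, Classical.not_and_iff_not_or_not]
      rfl
    rw [h1]
    exact ⟨fun h' _ => h', fun h' => h' h⟩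

theorem GS_ge : N2 D k ≤ GS D k := by
  unfold GS
  omega

theorem N0_le' (D k : ℕ) : N0 D + 1 ≤ N2 D k := by
  have := R1_le D k
  unfold N0 N2
  nlinarith

theorem holds_f2 (J : ℕ) : (f2 D k J).Holds v ↔ ∀ j < J, ∀ q < D,
    (∃ l < D, ∀ x y, (datOf v).Q D j q x y = (datOf v).F D l x y) ∨
      ∀ x y, (datOf v).Q D j q x y = 1 := by
  have hN : N0 D ≤ GS D k := by
    have := N0_le' D k
    have := GS_ge (D := D) (k := k)
    omega
  unfold f2
  rw [holds_allR]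
  refine forall₂_congr fun j _ => ?_
  rw [holds_allR]
  refine forall₂_congr fun q _ => ?_
  rw [Fm.Holds, holds_exR]
  refine or_congr (exists_congr fun l => and_congr Iff.rfl ?_) ?_
  · refine holds_grid_iff (fun u w => ?_) (fun u w => ?_) ((UF2.P2 _ _).mono hN)
      ((UF2.P2 _ _).mono hN)
    · rw [eval_QT, eval_numT, eval_numT]
    · rw [eval_FT, eval_numT, eval_numT]
  · refine holds_grid_iff (fun u w => ?_) (fun u w => ?_) ((UF2.P2 _ _).mono hN)
      (UF2.const _ _)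
    · rw [eval_QT, eval_numT, eval_numT]
    · rfl

theorem holds_f3 (φ : QF) : (f3 (szD φ) k φ).Holds v ↔ ∀ j < φ.polys.length, ∀ x y : ℝ,
    wval (xt ![x + (datOf v).lam * y, y]) (φ.polys.getD j []) =
      (datOf v).cc j * ∏ q ∈ Finset.range (szD φ), (datOf v).Q (szD φ) j q x y := by
  unfold f3
  rw [holds_allR]
  refine forall₂_congr fun j hj => ?_
  have h1 := R1_mul_le (szD φ) k
  have h2 := R1_le (szD φ) k
  have h3 : szD φ * N0 (szD φ) ≤ GS (szD φ) k :=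
    (Nat.mul_le_mul_right _ h2).trans (h1.trans GS_ge)
  refine holds_grid_iff (fun u w => ?_) (fun u w => ?_) ((UF2.wval hj _).mono ?_) ?_
  · rw [eval_pT]
    have : (fun c : Fin 2 => (shT (numT u) (numT w) c).eval v) =
        ![(u : ℝ) + (datOf v).lam * w, (w : ℝ)] := by
      funext c
      fin_cases c
      · show (numT u).eval v + lamT.eval v * (numT w).eval v = _
        rw [eval_numT, eval_numT]
        rfl
      · show (numT w).eval v = _
        rw [eval_numT]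
        rfl
    rw [this]
  · rw [Tm.eval, eval_prodR]
    simp only [eval_QT, eval_numT]
    rfl
  · refine le_trans ?_ h3
    exact Nat.le_mul_of_pos_right _ (by unfold N0; omega)
  · refine ((UF2.const 0 _).mul (UF2.prod (n := szD φ) (M := N0 (szD φ)) fun q _ =>
      UF2.P2 _ _)).mono ?_
    rw [zero_add]
    exact h3

theorem holds_f4 : (f4 D k).Holds v ↔ ∃ n < N2 D k, (datOf v).Ps 0 n = 1 ∧
    ∀ s < N2 D k, ∀ t < N2 D k, (t = n ∧ s ≠ 0) ∨ n < t → (datOf v).Ps s t = 0 := by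
  unfold f4
  rw [holds_exR]
  refine exists_congr fun n => and_congr Iff.rfl ?_
  rw [Fm.Holds, holds_allR]
  refine and_congr Iff.rfl (forall₂_congr fun s _ => ?_)
  rw [holds_allR]
  refine forall₂_congr fun t _ => ?_
  by_cases h : (t = n ∧ s ≠ 0) ∨ n < t
  · rw [if_pos h]
    exact ⟨fun h' _ => h', fun h' => h' h⟩
  · rw [if_neg h]
    exact ⟨fun _ h' => absurd h' h, fun _ => holds_tt _⟩

theorem holds_f5 : (f5 D k).Holds v ↔ ∀ x y, ∏ l ∈ Finset.range (R1 D k),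
    (datOf v).F D l x y = (datOf v).Psi D k x y := by
  unfold f5
  refine holds_grid_iff (fun u w => ?_) (fun u w => ?_) ?_ ((UF2.P2 _ _).mono GS_ge)
  · rw [eval_prodR]
    simp only [eval_FT, eval_numT]
  · rw [eval_PsiT, eval_numT, eval_numT]
  · exact (UF2.prod (M := N0 D) fun l _ => UF2.P2 _ _).mono ((R1_mul_le D k).trans GS_ge)

theorem holds_f6 : (f6 D k).Holds v ↔
    BC (N2 D k) ((datOf v).Psi D k) ((datOf v).Psiy D k) (datOf v).dPsi := by
  unfold f6
  refine holds_BCF (M' := N2 D k) (fun u w => ?_) (fun u w => ?_) (UF2.P2 _ _) (UF2.P2y _ _) ?_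
    _ _ _ _ _
  · rw [eval_PsiT, eval_numT, eval_numT]
    rfl
  · rw [eval_PsiyT, eval_numT, eval_numT]
    rfl
  · unfold GS
    omega

theorem holds_f7 : (f7 D k).Holds v ↔ ∀ i < k, ∃ a ≤ D, ∀ m ρ, ∏ l ∈ Finset.range D,
    (datOf v).F D l (((datOf v).g i).1 + ρ) (((datOf v).g i).2 + m * ρ) =
      ρ ^ a * P2 (N0 D) ((datOf v).hc i) m ρ := by
  unfold f7
  rw [holds_allR]
  refine forall₂_congr fun i _ => ?_
  rw [holds_exR]
  refine exists_congr fun a => ?_
  rw [Nat.lt_succ_iff]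
  refine and_congr_right fun ha => ?_
  have hD := D_mul_le D k
  have hN := N0_le' D k
  have hR := R1_le D k
  have hG : N2 D k + 2 * N2 D k ≤ GS D k := by
    unfold GS
    omega
  have hDN : D ≤ N2 D k := by
    unfold N0 at hN
    omega
  refine holds_grid_iff (fun u w => ?_) (fun u w => ?_) ?_ ?_
  · rw [eval_prodR]
    simp only [eval_FT, Tm.eval, eval_numT]
    rfl
  · rw [Tm.eval, eval_powR (by omega), eval_hT, eval_numT, eval_numT]
  · constructor
    · intro y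
      refine (UF.prod D (M := 2 * N0 D) fun l _ => ((UF.const 0 _).P2 (((UF.const 0 _).add
        (UF.id.mul (UF.const 0 y))).mono (M' := 1) (by simp)) (N0 D) _).mono (by omega)).mono ?_
      omega
    · intro x
      refine (UF.prod D (M := 2 * N0 D) fun l _ => (((UF.const 0 _).add UF.id).P2
        (((UF.const 0 _).add ((UF.const 0 x).mul UF.id)).mono (M' := 1) (by simp)) (N0 D) _).mono
          (by simp; omega)).mono ?_
      omega
  · constructor
    · intro y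
      refine ((UF.const 0 (y ^ a)).mul ((UF2.P2 (N0 D) _).1 y)).mono ?_
      omega
    · intro x
      refine ((UF.id.pow a).mul ((UF2.P2 (N0 D) _).2 x)).mono ?_
      omega

theorem holds_f8 : (f8 D k).Holds v ↔ ∀ i < k, BC (N1 D)
    (fun m ρ => ρ * P2 (N0 D) ((datOf v).hc i) m ρ)
    (fun m ρ => P2 (N0 D) ((datOf v).hc i) m ρ + ρ * P2y (N0 D) ((datOf v).hc i) m ρ)
    ((datOf v).dPen i) := by
  unfold f8
  rw [holds_allR]
  refine forall₂_congr fun i _ => ?_
  refine holds_BCF (M' := 1 + N0 D) (fun u w => ?_) (fun u w => ?_)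
    (UF2.snd.mul (UF2.P2 _ _)) (((UF2.P2 _ _).mono (by omega)).add (UF2.snd.mul (UF2.P2y _ _)))
    ?_ _ _ _ _ _
  · rw [Tm.eval, eval_hT, eval_numT, eval_numT]
  · rw [Tm.eval, Tm.eval, eval_hT, eval_hyT, eval_numT, eval_numT]
  · have := N1_le D k
    have := N0_le' D k
    unfold GS
    omega

theorem holds_f9 : (f9 D k).Holds v ↔ ∀ i < k, ∀ c < N1 D, ∃ l < R1 D k, ∀ x y,
    (datOf v).F D l x y = y - ((datOf v).g i).2 - ((datOf v).dPen i).z c *
      (x - ((datOf v).g i).1) := by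
  unfold f9
  rw [holds_allR]
  refine forall₂_congr fun i _ => ?_
  rw [holds_allR]
  refine forall₂_congr fun c _ => ?_
  rw [holds_exR]
  refine exists_congr fun l => and_congr Iff.rfl ?_
  have hN := N0_le' D k
  have hG := GS_ge (D := D) (k := k)
  refine holds_grid_iff (fun u w => ?_) (fun u w => ?_) ((UF2.P2 _ _).mono (by omega)) ?_
  · rw [eval_FT, eval_numT, eval_numT]
  · rw [eval_subT, eval_subT, Tm.eval, eval_subT, eval_numT, eval_numT]
    rfl
  · exact (((UF2.snd.sub (UF2.const 1 _)).mono (M' := 0 + 1) le_rfl).sub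
      ((UF2.const 0 _).mul (UF2.fst.sub (UF2.const 1 _)))).mono (by omega)

theorem holds_f10 (hv : halfT.eval v = 1 / 2) : (f10 D k).Holds v ↔ ∀ q₁ < NX D k,
    BC (N2 D k) (fun y _ => (datOf v).Psi D k ((datOf v).xs D k q₁) y) (fun _ _ => 0)
      ((datOf v).dFib q₁) := by
  unfold f10
  rw [holds_allR]
  refine forall₂_congr fun q _ => ?_
  refine holds_BCF (M' := N2 D k) (fun u w => ?_) (fun u w => ?_)
    (UF2.ofLeft ((UF2.P2 _ _).2 _)) (UF2.const _ _) ?_ _ _ _ _ _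
  · rw [eval_PsiT, eval_xsT hv, eval_numT]
    rfl
  · rfl
  · unfold GS
    omega

theorem uf_seg (l : ℕ) (a b c e : ℝ) :
    UF (2 * N0 D) fun t => (datOf v).F D l (a + t * b) (c + t * e) := by
  refine UF.mono (((UF.const 0 a).add (UF.id.mul (UF.const 0 b))).P2
    ((UF.const 0 c).add (UF.id.mul (UF.const 0 e))) (N0 D) _) ?_
  simp
  omega

theorem holds_srF (hv : halfT.eval v = 1 / 2) (q₁ q₂ i l : ℕ) : (srF D k q₁ q₂ i l).Holds v ↔
    (∀ t, (datOf v).F D l ((datOf v).sx D k q₁ q₂ i t) ((datOf v).sy D k q₁ q₂ i t) = 0) ∨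
      BC (N2 D k) (fun t _ => (datOf v).F D l ((datOf v).sx D k q₁ q₂ i t)
        ((datOf v).sy D k q₁ q₂ i t)) (fun _ _ => 0) ((datOf v).dSeg q₁ q₂ i l) := by
  have hN := N0_le' D k
  have hG : 8 * N2 D k + 2 * N0 D ≤ GS D k := by
    unfold GS
    omega
  have he : ∀ t : ℕ, (sgT D k q₁ q₂ i l t).eval v = (datOf v).F D l
      ((datOf v).sx D k q₁ q₂ i t) ((datOf v).sy D k q₁ q₂ i t) := by
    intro t
    unfold sgT
    rw [eval_FT, eval_sxT hv D k q₁ q₂, eval_syT hv, eval_numT]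
  have hu : UF2 (2 * N0 D) (fun t _ => (datOf v).F D l ((datOf v).sx D k q₁ q₂ i t)
        ((datOf v).sy D k q₁ q₂ i t)) := UF2.ofLeft (uf_seg l _ _ _ _)
  unfold srF
  rw [Fm.Holds]
  refine or_congr ?_ ?_
  · refine (holds_grid_iff (f := fun t _ => (datOf v).F D l ((datOf v).sx D k q₁ q₂ i t)
        ((datOf v).sy D k q₁ q₂ i t)) (g := fun _ _ => 0) (fun u w => ?_) (fun u w => ?_)
      (hu.mono (by omega)) (UF2.const _ _)).trans ?_
    · exact he u
    · rfl
    · exact ⟨fun h t => h t 0, fun h t _ => h t⟩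
  · refine holds_BCF (M' := 2 * N0 D) (fun u w => ?_) (fun u w => ?_) hu (UF2.const _ _) hG
      _ _ _ _ _
    · exact he u
    · rfl

theorem holds_svF (hv : halfT.eval v = 1 / 2) (φ : QF) (q₁ q₂ i q₃ : ℕ) :
    (svF D k φ q₁ q₂ i q₃).Holds v ↔ (0 ≤ (datOf v).ts D k q₁ q₂ i q₃ →
      (datOf v).ts D k q₁ q₂ i q₃ ≤ 1 →
      ((datOf v).sx D k q₁ q₂ i ((datOf v).ts D k q₁ q₂ i q₃),
        (datOf v).sy D k q₁ q₂ i ((datOf v).ts D k q₁ q₂ i q₃)) ∈ (datOf v).S φ) := by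
  unfold svF
  rw [Fm.Holds, Fm.Holds, Fm.Holds, Fm.Holds, Fm.Holds, holds_SF, eval_sxT hv D k q₁ q₂,
    eval_syT hv, eval_tsT hv, Tm.eval, Tm.eval, ← imp_iff_not_or, and_imp]

theorem holds_f11 (hv : halfT.eval v = 1 / 2) (φ : QF) : (f11 D k φ).Holds v ↔
    ∀ q₁ < NX D k, ∀ q₂ < NX D k,
      ((datOf v).xs D k q₁, (datOf v).ys D k q₁ q₂) ∉ (datOf v).S φ ∨ ∃ i < k,
    (∀ l < D, (∀ t, (datOf v).F D l ((datOf v).sx D k q₁ q₂ i t)
        ((datOf v).sy D k q₁ q₂ i t) = 0) ∨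
      BC (N2 D k) (fun t _ => (datOf v).F D l ((datOf v).sx D k q₁ q₂ i t)
        ((datOf v).sy D k q₁ q₂ i t)) (fun _ _ => 0) ((datOf v).dSeg q₁ q₂ i l)) ∧
    ∀ q₃ < NT D k, 0 ≤ (datOf v).ts D k q₁ q₂ i q₃ → (datOf v).ts D k q₁ q₂ i q₃ ≤ 1 →
      ((datOf v).sx D k q₁ q₂ i ((datOf v).ts D k q₁ q₂ i q₃),
        (datOf v).sy D k q₁ q₂ i ((datOf v).ts D k q₁ q₂ i q₃)) ∈ (datOf v).S φ := by
  unfold f11
  rw [holds_allR]
  refine forall₂_congr fun q₁ _ => ?_
  rw [holds_allR]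
  refine forall₂_congr fun q₂ _ => ?_
  rw [Fm.Holds, Fm.Holds, holds_SF, eval_xsT hv, eval_ysT hv, holds_exR]
  refine or_congr Iff.rfl (exists_congr fun i => and_congr Iff.rfl ?_)
  rw [Fm.Holds, holds_allR, holds_allR]
  exact and_congr (forall₂_congr fun l _ => holds_srF hv q₁ q₂ i l)
    (forall₂_congr fun q₃ _ => holds_svF hv φ q₁ q₂ i q₃)

/-- The formula expresses the existence of a certificate. -/
theorem holds_pgFm (φ : QF) : (pgFm k φ).Holds v ↔
    halfT.eval v = 1 / 2 ∧ (datOf v).Good (szD φ) k φ := by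
  unfold pgFm
  rw [holds_conj]
  simp only [List.forall_mem_cons, List.not_mem_nil, false_imp_iff, implies_true, and_true]
  rw [holds_hF]
  refine and_congr_right fun hv => ?_
  rw [holds_f1, holds_f1', holds_f2, holds_f3, holds_f4, holds_f5, holds_f6, holds_f7, holds_f8,
    holds_f9, holds_f10 hv, holds_f11 hv]
  constructor
  · rintro ⟨h1, h1', h2, h3, h4, h5, h6, h7, h8, h9, h10, h11⟩
    exact ⟨h1, h1', h2, h3, h4, h5, h6, h7, h8, h9, h10, h11⟩
  · rintro ⟨h1, h1', h2, h3, h4, h5, h6, h7, h8, h9, h10, h11⟩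
    exact ⟨h1, h1', h2, h3, h4, h5, h6, h7, h8, h9, h10, h11⟩

theorem etr_pgFm (k : ℕ) (φ : QF) : ETR (pgFm k φ) ↔ ∃ d : Dat, d.Good (szD φ) k φ := by
  constructor
  · rintro ⟨v, hv⟩
    exact ⟨datOf v, ((holds_pgFm φ).1 hv).2⟩
  · rintro ⟨d, hd⟩
    refine ⟨vOf d, (holds_pgFm φ).2 ⟨?_, ?_⟩⟩
    · show vOf d (nm 12 0 0 0 0 0 0 0) = 1 / 2
      rw [vOf_nm]
      rfl
    · rw [datOf_vOf]
      exact hd

end

end Pool.Agent.H612.PG
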