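import Pool.Agent.H612.PG.Sound
import Pool.Agent.H612.PG.Cert

/-!
# Certificates are sound
-/

namespace Pool.Agent.H612.PG

open Filter Topology Set
open Pool.Agent.NPC.H612

/-! ### Functions given by arrays -/

theorem contDiff_P2 (N : ℕ) (c : ℕ → ℕ → ℝ) : ContDiff ℝ 1 fun p : ℝ × ℝ => P2 N c p.1 p.2 := by
  unfold P2
  refine ContDiff.sum fun s _ => ContDiff.sum fun t _ => ?_
  exact (contDiff_const.mul (contDiff_fst.pow s)).mul (contDiff_snd.pow t)

theorem hasDeriv_P2 (N : ℕ) (c : ℕ → ℕ → ℝ) (x y : ℝ) :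
    HasDerivAt (fun y => P2 N c x y) (P2y N c x y) y := by
  unfold P2 P2y
  refine HasDerivAt.fun_sum fun s _ => HasDerivAt.fun_sum fun t _ => ?_
  exact (hasDerivAt_pow t y).const_mul _

theorem continuous_P2 (N : ℕ) (c : ℕ → ℕ → ℝ) : Continuous fun p : ℝ × ℝ => P2 N c p.1 p.2 :=
  (contDiff_P2 N c).continuous

/-! ### Products -/

/-- Simple zeros of products. -/
theorem prod_simple {n : ℕ} {f : ℕ → ℝ → ℝ} {f' : ℕ → ℝ} {D t : ℝ}
    (hf : ∀ l < n, HasDerivAt (f l) (f' l) t)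
    (hD : HasDerivAt (fun t => ∏ l ∈ Finset.range n, f l t) D t)
    (h : ∏ l ∈ Finset.range n, f l t = 0 → D ≠ 0) :
    ∀ l < n, f l t = 0 → f' l ≠ 0 ∧ ∀ l' < n, l' ≠ l → f l' t ≠ 0 := by
  intro l hl h0
  have h1 : HasDerivAt (fun t => ∏ l ∈ Finset.range n, f l t)
      (∑ i ∈ Finset.range n, (∏ j ∈ (Finset.range n).erase i, f j t) • f' i) t :=
    HasDerivAt.fun_finset_prod fun i hi => hf i (Finset.mem_range.1 hi)
  have h2 := hD.unique h1
  have hz : ∏ l ∈ Finset.range n, f l t = 0 :=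
    Finset.prod_eq_zero (Finset.mem_range.2 hl) h0
  have h3 := h hz
  have h4 : ∑ i ∈ Finset.range n, (∏ j ∈ (Finset.range n).erase i, f j t) • f' i =
      (∏ j ∈ (Finset.range n).erase l, f j t) • f' l := by
    refine Finset.sum_eq_single l (fun i _ hne => ?_) fun hn =>
      absurd (Finset.mem_range.2 hl) hn
    rw [Finset.prod_eq_zero (Finset.mem_erase.2 ⟨hne.symm, Finset.mem_range.2 hl⟩) h0, zero_smul]
  rw [h2, h4, smul_eq_mul] at h3
  refine ⟨right_ne_zero_of_mul h3, fun l' hl' hne hl0 => ?_⟩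
  exact left_ne_zero_of_mul h3 (Finset.prod_eq_zero
    (Finset.mem_erase.2 ⟨hne, Finset.mem_range.2 hl'⟩) hl0)

/-! ### Bezout certificates -/

theorem BC.ne {n : ℕ} {G G' : ℝ → ℝ → ℝ} {d : BCd} (h : BC n G G' d) {u : ℝ}
    (hu : ∀ a < n, u ≠ d.z a) (v : ℝ) : ¬ (G u v = 0 ∧ G' u v = 0) := by
  rintro ⟨h1, h2⟩
  have h3 := h.2 u v
  rw [h1, h2, mul_zero, mul_zero, add_zero] at h3
  have h4 : (∏ a ∈ Finset.range n, (u - d.z a)) ≠ 0 := by
    rw [Finset.prod_ne_zero_iff]
    intro a ha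
    exact sub_ne_zero.2 (hu a (Finset.mem_range.1 ha))
  have h5 : (∏ b ∈ Finset.range n, ((u - d.al b) ^ 2 + d.be b)) ≠ 0 := by
    rw [Finset.prod_ne_zero_iff]
    intro b hb
    have := h.1 b (Finset.mem_range.1 hb)
    positivity
  exact mul_ne_zero h4 h5 h3.symm

/-! ### Samples -/

theorem exists_smp {n : ℕ} {f : ℕ → ℝ} {s : ℝ}
    (hs : s ∈ samp ((Finset.range n).image f)) : ∃ q < 3 * n ^ 2, smp n f q = s := by
  obtain ⟨a, ha, b, hb, e, he, rfl⟩ := hs
  rw [Finset.mem_image] at ha hb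
  obtain ⟨a', ha', rfl⟩ := ha
  obtain ⟨b', hb', rfl⟩ := hb
  rw [Finset.mem_range] at ha' hb'
  have hn : 0 < n := by omega
  have key : ∀ e' : ℕ, e' < 3 → ∃ q < 3 * n ^ 2, q / 3 / n = a' ∧ q / 3 % n = b' ∧ q % 3 = e' := by
    intro e' he'
    refine ⟨(a' * n + b') * 3 + e', ?_, ?_, ?_, ?_⟩
    · have h1 : (a' + 1) * n ≤ n * n := Nat.mul_le_mul_right n ha'
      have h2 : (a' + 1) * n = a' * n + n := by ring
      have h3 : n ^ 2 = n * n := by ring
      omega
    · have h1 : ((a' * n + b') * 3 + e') / 3 = a' * n + b' := by omega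
      rw [h1, mul_comm, Nat.mul_add_div hn, Nat.div_eq_of_lt hb', add_zero]
    · have h1 : ((a' * n + b') * 3 + e') / 3 = a' * n + b' := by omega
      rw [h1, mul_comm, Nat.mul_add_mod, Nat.mod_eq_of_lt hb']
    · omega
  rcases he with rfl | rfl | rfl
  · obtain ⟨q, hq, h1, h2, h3⟩ := key 0 (by norm_num)
    exact ⟨q, hq, by unfold smp; rw [h1, h2, h3]; norm_num⟩
  · obtain ⟨q, hq, h1, h2, h3⟩ := key 1 (by norm_num)
    exact ⟨q, hq, by unfold smp; rw [h1, h2, h3]; norm_num⟩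
  · obtain ⟨q, hq, h1, h2, h3⟩ := key 2 (by norm_num)
    exact ⟨q, hq, by unfold smp; rw [h1, h2, h3]; norm_num⟩

/-! ### Signs -/

theorem val_congr_sign {e e' : PolyData → ℝ} (φ : QF)
    (h : ∀ p ∈ φ.polys, SignType.sign (e p) = SignType.sign (e' p)) : φ.Val e ↔ φ.Val e' := by
  have hz : ∀ p ∈ φ.polys, (e p = 0 ↔ e' p = 0) := fun p hp => by
    rw [← sign_eq_zero_iff, h p hp, sign_eq_zero_iff]
  have hp : ∀ p ∈ φ.polys, (0 < e p ↔ 0 < e' p) := fun p hp => by
    rw [← sign_eq_one_iff, h p hp, sign_eq_one_iff]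
  have hn : ∀ p ∈ φ.polys, (e p < 0 ↔ e' p < 0) := fun p hp => by
    rw [← sign_eq_neg_one_iff, h p hp, sign_eq_neg_one_iff]
  clear h
  induction φ with
  | eqZ p => exact hz p (by simp [QF.polys])
  | gtZ p => exact hp p (by simp [QF.polys])
  | geZ p =>
    simp only [QF.Val]
    rw [← not_lt, ← not_lt]
    exact not_congr (hn p (by simp [QF.polys]))
  | not φ ih =>
    simp only [QF.Val]
    exact not_congr (ih hz hp hn)
  | and φ ψ ih1 ih2 =>
    simp only [QF.polys, List.mem_append] at hz hp hn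
    simp only [QF.Val]
    exact and_congr (ih1 (fun p h => hz p (Or.inl h)) (fun p h => hp p (Or.inl h))
      (fun p h => hn p (Or.inl h))) (ih2 (fun p h => hz p (Or.inr h)) (fun p h => hp p (Or.inr h))
      (fun p h => hn p (Or.inr h)))
  | or φ ψ ih1 ih2 =>
    simp only [QF.polys, List.mem_append] at hz hp hn
    simp only [QF.Val]
    exact or_congr (ih1 (fun p h => hz p (Or.inl h)) (fun p h => hp p (Or.inl h))
      (fun p h => hn p (Or.inl h))) (ih2 (fun p h => hz p (Or.inr h)) (fun p h => hp p (Or.inr h))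
      (fun p h => hn p (Or.inr h)))

/-! ### Samples on segments -/

/-- If all samples of a segment belong to `S` then the segment is contained in `S`. -/
theorem seg_of_samples {r : ℕ} {F : ℕ → ℝ × ℝ → ℝ} {S : Set (ℝ × ℝ)}
    (hF : ∀ l, Continuous (F l))
    (hS : ∀ p p' : ℝ × ℝ, sv r F p = sv r F p' → (p ∈ S ↔ p' ∈ S)) {g z : ℝ × ℝ} {T : Finset ℝ}
    (h0 : (0 : ℝ) ∈ T) (h1 : (1 : ℝ) ∈ T)
    (hT : ∀ l < r, (∀ t, F l (seg g z t) = 0) ∨ ∀ t, F l (seg g z t) = 0 → t ∈ T)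
    (hs : ∀ t ∈ samp T, 0 ≤ t → t ≤ 1 → seg g z t ∈ S) : Vis S g z := by
  intro t ht0 ht1
  by_cases ht : t ∈ T
  · exact hs t (mem_samp_self ht) ht0 ht1
  · obtain ⟨s, hs1, hs2⟩ := exists_samp ⟨0, h0⟩ ht
    have hs0 : 0 ≤ s := by
      by_contra hc
      push Not at hc
      exact hs2 0 h0 (mem_uIcc.2 (Or.inl ⟨hc.le, ht0⟩))
    have hs1' : s ≤ 1 := by
      by_contra hc
      push Not at hc
      exact hs2 1 h1 (mem_uIcc.2 (Or.inr ⟨ht1, hc.le⟩))
    have : sv r F (seg g z t) = sv r F (seg g z s) := by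
      refine sv_eq fun l hl => ?_
      rcases hT l hl with h2 | h2
      · rw [h2, h2]
      · exact sign_const (C := uIcc s t) (f := fun t => F l (seg g z t)) isPreconnected_uIcc
          ((hF l).comp (continuous_seg_right g z)).continuousOn
          (fun a ha h3 => hs2 a (h2 a h3) ha) right_mem_uIcc left_mem_uIcc
    exact (hS _ _ this).2 (hs s hs1 hs0 hs1')

/-! ### Local boundedness of the zeros of monic polynomials -/

theorem monic_bound {N n : ℕ} {c : ℕ → ℕ → ℝ} (hn : n < N) (h1 : c 0 n = 1)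
    (h2 : ∀ s < N, ∀ t < N, (t = n ∧ s ≠ 0) ∨ n < t → c s t = 0) (x₀ : ℝ) :
    ∃ C : ℝ, ∀ x, |x - x₀| < 1 → ∀ y, C ≤ |y| → P2 N c x y ≠ 0 := by
  set K : ℝ := ∑ s ∈ Finset.range N, ∑ t ∈ Finset.range N, |c s t| * (|x₀| + 1) ^ s with hK
  have hK0 : 0 ≤ K := by
    refine Finset.sum_nonneg fun s _ => Finset.sum_nonneg fun t _ => ?_
    positivity
  refine ⟨K + 1, fun x hx y hy h0 => ?_⟩
  have hx1 : |x| ≤ |x₀| + 1 := by
    have := abs_sub_abs_le_abs_sub x x₀
    linarith
  have hy1 : 1 ≤ |y| := by linarith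
  have hy0 : 0 < |y| := by linarith
  -- splitting off the leading term
  have e1 : P2 N c x y = y ^ n + ∑ s ∈ Finset.range N, ∑ t ∈ Finset.range n,
      c s t * x ^ s * y ^ t := by
    unfold P2
    have e2 : ∀ s ∈ Finset.range N, ∑ t ∈ Finset.range N, c s t * x ^ s * y ^ t =
        ∑ t ∈ Finset.range n, c s t * x ^ s * y ^ t + (if s = 0 then y ^ n else 0) := by
      intro s hs
      rw [Finset.mem_range] at hs
      rw [← Finset.sum_range_add_sum_Ico _ (show n ≤ N by omega)]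
      congr 1
      have hmem : n ∈ Finset.Ico n N := Finset.mem_Ico.2 ⟨le_rfl, hn⟩
      rw [Finset.sum_eq_single_of_mem n hmem]
      · split_ifs with hs0
        · rw [hs0, h1]
          simp
        · rw [h2 s hs n hn (Or.inl ⟨rfl, hs0⟩)]
          simp
      · intro t ht hne
        rw [Finset.mem_Ico] at ht
        rw [h2 s hs t ht.2 (Or.inr (by omega))]
        simp
    rw [Finset.sum_congr rfl e2, Finset.sum_add_distrib, add_comm]
    congr 1
    rw [Finset.sum_ite_eq' (Finset.range N) 0, if_pos (Finset.mem_range.2 (by omega))]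
  rcases Nat.eq_zero_or_pos n with hn0 | hn0
  · subst hn0
    rw [e1] at h0
    simp at h0
  have e3 : |∑ s ∈ Finset.range N, ∑ t ∈ Finset.range n, c s t * x ^ s * y ^ t| ≤
      K * |y| ^ (n - 1) := by
    calc |∑ s ∈ Finset.range N, ∑ t ∈ Finset.range n, c s t * x ^ s * y ^ t| ≤
        ∑ s ∈ Finset.range N, ∑ t ∈ Finset.range n, |c s t * x ^ s * y ^ t| :=
          (Finset.abs_sum_le_sum_abs _ _).trans (Finset.sum_le_sum fun s _ =>
            Finset.abs_sum_le_sum_abs _ _)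
      _ ≤ ∑ s ∈ Finset.range N, ∑ t ∈ Finset.range n,
          |c s t| * (|x₀| + 1) ^ s * |y| ^ (n - 1) := by
          refine Finset.sum_le_sum fun s _ => Finset.sum_le_sum fun t ht => ?_
          rw [Finset.mem_range] at ht
          rw [abs_mul, abs_mul, abs_pow, abs_pow]
          refine mul_le_mul (mul_le_mul_of_nonneg_left ?_ (abs_nonneg _)) ?_ (by positivity)
            (by positivity)
          · exact pow_le_pow_left₀ (abs_nonneg _) hx1 s
          · exact pow_le_pow_right₀ hy1 (by omega)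
      _ ≤ K * |y| ^ (n - 1) := by
          rw [hK, Finset.sum_mul]
          refine Finset.sum_le_sum fun s _ => ?_
          rw [Finset.sum_mul]
          refine Finset.sum_le_sum_of_subset_of_nonneg ?_ fun t _ _ => by positivity
          intro t ht
          rw [Finset.mem_range] at ht ⊢
          omega
  have e4 : |y| ^ n = |y| * |y| ^ (n - 1) := by
    rw [← pow_succ']
    congr 1
    omega
  have e5 : y ^ n = -∑ s ∈ Finset.range N, ∑ t ∈ Finset.range n, c s t * x ^ s * y ^ t := by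
    linarith [e1.symm.trans h0]
  have e6 : |y| ^ n ≤ K * |y| ^ (n - 1) := by
    rw [← abs_pow, e5, abs_neg]
    exact e3
  have e7 : 0 < |y| ^ (n - 1) := by positivity
  rw [e4] at e6
  have := le_of_mul_le_mul_right e6 e7
  linarith

end Pool.Agent.H612.PG
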