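import Pool.Agent.H612.PG.Glue

/-!
# Certificates are sound (second part)
-/

namespace Pool.Agent.H612.PG

open Filter Topology Set
open Pool.Agent.NPC.H612

namespace Dat

variable {D k : ℕ} {d : Dat} {φ : QF}

/-- The functions on the plane. -/
noncomputable def FF (D : ℕ) (d : Dat) (l : ℕ) (p : ℝ × ℝ) : ℝ := d.F D l p.1 p.2

theorem contDiff_FF (l : ℕ) : ContDiff ℝ 1 (FF D d l) := contDiff_P2 _ _

/-- The set is determined by the signs. -/
theorem Good.sign (h : d.Good D k φ) (p p' : ℝ × ℝ) (hp : sv D (FF D d) p = sv D (FF D d) p') :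
    p ∈ d.S φ ↔ p' ∈ d.S φ := by
  unfold S gallery
  simp only [mem_setOf_eq]
  refine val_congr_sign φ fun q hq => ?_
  obtain ⟨j, hj, rfl⟩ := List.getElem_of_mem hq
  have e : φ.polys[j] = φ.polys.getD j [] := by
    rw [List.getD_eq_getElem?_getD, List.getElem?_eq_getElem hj]
    rfl
  rw [e, h.c3 j hj, h.c3 j hj]
  have e1 : ∀ a b : ℝ, SignType.sign (a * b) = SignType.sign a * SignType.sign b := sign_mul
  rw [e1, e1]
  congr 1
  have e2 : ∀ f : ℕ → ℝ, SignType.sign (∏ q ∈ Finset.range D, f q) =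
      ∏ q ∈ Finset.range D, SignType.sign (f q) := fun f => map_prod signHom f _
  rw [e2, e2]
  refine Finset.prod_congr rfl fun q hq => ?_
  rcases h.c2 j hj q (Finset.mem_range.1 hq) with ⟨l, hl, h1⟩ | h1
  · rw [h1, h1]
    have := congrFun hp l
    rw [sv_apply hl, sv_apply hl] at this
    exact this
  · rw [h1, h1]

theorem hasDeriv_line {F : ℝ × ℝ → ℝ} (hF : ContDiff ℝ 1 F) (g v : ℝ × ℝ) (t : ℝ) :
    HasDerivAt (fun t => F (g + t • v)) (fderiv ℝ F (g + t • v) v) t := by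
  have h1 : HasFDerivAt F (fderiv ℝ F (g + t • v)) (g + t • v) :=
    (hF.differentiable (by norm_num)).differentiableAt.hasFDerivAt
  have h2 : HasDerivAt (fun t : ℝ => g + t • v) v t := by
    have := ((hasDerivAt_id t).smul_const v).const_add g
    simpa using this
  exact h1.comp_hasDerivAt t h2

/-- Transversality outside of the critical directions. -/
theorem Good.trans (h : d.Good D k φ) {i : ℕ} (hi : i < k) {m : ℝ}
    (hm : ∀ c < N1 D, m ≠ (d.dPen i).z c) : Trans D (FF D d) (d.g i) m := by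
  obtain ⟨a, _, ha⟩ := h.c7 i hi
  have hbc := (h.c8 i hi).ne hm
  have hval : ∀ m ρ : ℝ, ∏ l ∈ Finset.range D, FF D d l (d.g i + ρ • ((1 : ℝ), m)) =
      ρ ^ a * P2 (N0 D) (d.hc i) m ρ := by
    intro m ρ
    rw [← ha m ρ]
    refine Finset.prod_congr rfl fun l _ => ?_
    unfold FF
    simp only [Prod.fst_add, Prod.snd_add, Prod.smul_fst, Prod.smul_snd, smul_eq_mul, mul_one,
      mul_comm]
  constructor
  · intro ρ hρ
    have hd : HasDerivAt (fun ρ => ∏ l ∈ Finset.range D, FF D d l (d.g i + ρ • ((1 : ℝ), m)))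
        ((a * ρ ^ (a - 1)) * P2 (N0 D) (d.hc i) m ρ + ρ ^ a * P2y (N0 D) (d.hc i) m ρ) ρ := by
      simp only [hval]
      exact (hasDerivAt_pow a ρ).mul (hasDeriv_P2 _ _ m ρ)
    refine prod_simple (f := fun l ρ => FF D d l (d.g i + ρ • ((1 : ℝ), m)))
      (fun l _ => hasDeriv_line (contDiff_FF l) _ _ ρ) hd fun h0 => ?_
    rw [hval] at h0
    have h1 : P2 (N0 D) (d.hc i) m ρ = 0 :=
      (mul_eq_zero.1 h0).resolve_left (pow_ne_zero _ hρ)
    rw [h1, mul_zero, zero_add]
    refine mul_ne_zero (pow_ne_zero _ hρ) fun h2 => hbc ρ ⟨?_, ?_⟩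
    · rw [h1, mul_zero]
    · rw [h1, h2, mul_zero, add_zero]
  · have h1 : P2 (N0 D) (d.hc i) m 0 ≠ 0 := by
      intro h1
      refine hbc 0 ⟨by rw [zero_mul], ?_⟩
      rw [h1, zero_mul, add_zero]
    have h2 : ∀ᶠ q : ℝ × ℝ in 𝓝 (m, 0), P2 (N0 D) (d.hc i) q.1 q.2 ≠ 0 :=
      (continuous_P2 _ _).continuousAt.eventually_ne h1
    rw [Metric.eventually_nhds_iff] at h2
    obtain ⟨δ, hδ, h3⟩ := h2
    refine ⟨δ, hδ, fun m' hm' ρ hρ hρδ l hl h0 => ?_⟩
    have h4 := h3 (y := (m', ρ)) (by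
      rw [Prod.dist_eq, max_lt_iff, Real.dist_eq, Real.dist_eq, sub_zero]
      exact ⟨hm', hρδ⟩)
    have h5 := hval m' ρ
    rw [Finset.prod_eq_zero (Finset.mem_range.2 hl) h0] at h5
    exact mul_ne_zero (pow_ne_zero a hρ) h4 h5.symm

/-- The critical directions of a guard. -/
noncomputable def MM (D : ℕ) (d : Dat) (i : ℕ) : Finset ℝ :=
  (Finset.range (N1 D)).image (d.dPen i).z

theorem Good.crit (h : d.Good D k φ) :
    Crit D (R1 D k) k (FF D d) (d.S φ) d.g (MM D d) where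
  hF := contDiff_FF
  hr := Nat.le_add_right _ _
  hS := h.sign
  hg := h.c1
  hM := fun i hi m hm => h.trans hi fun c hc he => hm
    (Finset.mem_image.2 ⟨c, Finset.mem_range.2 hc, he.symm⟩)
  hL := by
    intro i hi m hm
    obtain ⟨c, hc, rfl⟩ := Finset.mem_image.1 hm
    obtain ⟨l, hl, h1⟩ := h.c9 i hi c (Finset.mem_range.1 hc)
    exact ⟨l, hl, fun p => h1 p.1 p.2⟩

/-- The critical abscissas. -/
noncomputable def ZZ (D k : ℕ) (d : Dat) : Finset ℝ :=
  (Finset.range (N2 D k + k)).image (d.Zf D k)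

theorem N2_pos (D k : ℕ) : 0 < N2 D k := by
  unfold N2
  positivity

theorem Good.vtrans (h : d.Good D k φ) {x : ℝ} (hx : x ∉ ZZ D k d) :
    VTrans (R1 D k) (FF D d) x := by
  intro y
  have hx' : ∀ a < N2 D k, x ≠ d.dPsi.z a := by
    intro a ha he
    refine hx (Finset.mem_image.2 ⟨a, Finset.mem_range.2 (by omega), ?_⟩)
    unfold Zf
    rw [if_pos ha, he]
  have hbc := h.c6.ne hx'
  refine prod_simple (n := R1 D k) (f := fun l y => FF D d l (x, y))
    (D := d.Psiy D k x y) (fun l _ => hasDeriv_vert (contDiff_FF l) x y) ?_ fun h0 => ?_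
  · have e : (fun t => ∏ l ∈ Finset.range (R1 D k), FF D d l (x, t)) =
        fun t => P2 (N2 D k) d.Ps x t := by
      funext t
      exact h.c5 x t
    rw [e]
    exact hasDeriv_P2 _ _ x y
  · intro h1
    exact hbc y ⟨(h.c5 x y).symm.trans h0, h1⟩

/-- The critical ordinates. -/
noncomputable def WW (D k : ℕ) (d : Dat) (q : ℕ) : Finset ℝ :=
  (Finset.range (N2 D k + k)).image (d.Wf D k q)

theorem Good.wroots (h : d.Good D k φ) {q : ℕ} (hq : q < NX D k) {y : ℝ} {l : ℕ}
    (hl : l < R1 D k) (h0 : FF D d l (d.xs D k q, y) = 0) : y ∈ WW D k d q := by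
  by_contra hy
  have hy' : ∀ a < N2 D k, y ≠ (d.dFib q).z a := by
    intro a ha he
    refine hy (Finset.mem_image.2 ⟨a, Finset.mem_range.2 (by omega), ?_⟩)
    unfold Wf
    rw [if_pos ha, he]
  refine (h.c10 q hq).ne hy' 0 ⟨?_, rfl⟩
  rw [← h.c5]
  exact Finset.prod_eq_zero (Finset.mem_range.2 hl) h0

theorem Good.wg {q i : ℕ} (hi : i < k) : (d.g i).2 ∈ WW D k d q := by
  refine Finset.mem_image.2 ⟨N2 D k + i, Finset.mem_range.2 (by omega), ?_⟩
  unfold Wf
  rw [if_neg (by omega), Nat.add_sub_cancel_left]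

theorem Good.zg {i : ℕ} (hi : i < k) : (d.g i).1 ∈ ZZ D k d := by
  refine Finset.mem_image.2 ⟨N2 D k + i, Finset.mem_range.2 (by omega), ?_⟩
  unfold Zf
  rw [if_neg (by omega), Nat.add_sub_cancel_left]

/-- Visibility of the samples. -/
theorem Good.vis (h : d.Good D k φ) {q₁ q₂ : ℕ} (h1 : q₁ < NX D k) (h2 : q₂ < NX D k)
    (hS : (d.xs D k q₁, d.ys D k q₁ q₂) ∈ d.S φ) :
    ∃ i < k, Vis (d.S φ) (d.g i) (d.xs D k q₁, d.ys D k q₁ q₂) := by
  rcases h.c11 q₁ h1 q₂ h2 with h3 | ⟨i, hi, h3, h4⟩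
  · exact absurd hS h3
  refine ⟨i, hi, ?_⟩
  have hseg : ∀ t, seg (d.g i) (d.xs D k q₁, d.ys D k q₁ q₂) t =
      (d.sx D k q₁ q₂ i t, d.sy D k q₁ q₂ i t) := by
    intro t
    unfold seg sx sy
    ext <;> simp
  have hN := N2_pos D k
  refine seg_of_samples (r := D) (F := FF D d) (T := (Finset.range (D * N2 D k + 2)).image
    (d.Tf D k q₁ q₂ i)) (fun l => (contDiff_FF l).continuous) h.sign ?_ ?_ (fun l hl => ?_)
    (fun t ht ht0 ht1 => ?_)
  · refine Finset.mem_image.2 ⟨D * N2 D k, Finset.mem_range.2 (by omega), ?_⟩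
    unfold Tf
    rw [if_neg (by omega), if_pos rfl]
  · refine Finset.mem_image.2 ⟨D * N2 D k + 1, Finset.mem_range.2 (by omega), ?_⟩
    unfold Tf
    rw [if_neg (by omega), if_neg (by omega)]
  · rcases h3 l hl with h5 | h5
    · refine Or.inl fun t => ?_
      rw [hseg]
      exact h5 t
    · refine Or.inr fun t ht => ?_
      by_contra hc
      have hc' : ∀ a < N2 D k, t ≠ (d.dSeg q₁ q₂ i l).z a := by
        intro a ha he
        have hlt : l * N2 D k + a < D * N2 D k := by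
          calc l * N2 D k + a < l * N2 D k + N2 D k := by omega
            _ = (l + 1) * N2 D k := by ring
            _ ≤ D * N2 D k := Nat.mul_le_mul_right _ hl
        refine hc (Finset.mem_image.2 ⟨l * N2 D k + a, Finset.mem_range.2 (by omega), ?_⟩)
        unfold Tf
        rw [if_pos hlt, mul_comm l, Nat.mul_add_div hN, Nat.div_eq_of_lt ha, add_zero,
          Nat.mul_add_mod, Nat.mod_eq_of_lt ha, he]
      refine h5.ne hc' 0 ⟨?_, rfl⟩
      rw [hseg] at ht
      exact ht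
  · obtain ⟨q₃, hq₃, rfl⟩ := exists_smp ht
    rw [hseg]
    exact h4 q₃ hq₃ ht0 ht1

/-- All points of the sheared set are seen. -/
theorem Good.all (h : d.Good D k φ) : ∀ p ∈ d.S φ, ∃ i < k, Vis (d.S φ) (d.g i) p := by
  classical
  have hN := N2_pos D k
  have hx : ∀ x ∈ samp (ZZ D k d), ∃ q < NX D k, d.xs D k q = x := fun x hx => exists_smp hx
  let qf : ℝ → ℕ := fun x => if hx : ∃ q < NX D k, d.xs D k q = x then hx.choose else 0
  have hqf : ∀ x ∈ samp (ZZ D k d), qf x < NX D k ∧ d.xs D k (qf x) = x := by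
    intro x hx'
    have := hx x hx'
    simp only [qf]
    rw [dif_pos this]
    exact this.choose_spec
  have hne : ∀ f : ℕ → ℝ, ((Finset.range (N2 D k + k)).image f).Nonempty := fun f =>
    ⟨f 0, Finset.mem_image.2 ⟨0, Finset.mem_range.2 (by omega), rfl⟩⟩
  obtain ⟨n, hn, h1, h2⟩ := h.c4
  refine guard_of_samples h.crit (Z := ZZ D k d) (hne _) (fun i hi => Good.zg hi)
    (fun x hx => h.vtrans hx) (fun x₀ => ?_) (fun x => WW D k d (qf x)) (fun x => hne _)
    (fun x _ i hi => Good.wg hi) (fun x hx' y l hl h0 => ?_) (fun x hx' y hy hS => ?_)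
  · obtain ⟨C, hC⟩ := monic_bound hn h1 h2 x₀
    refine ⟨1, one_pos, C, fun x hx y hy l hl h0 => hC x hx y hy ?_⟩
    have := h.c5 x y
    rw [Finset.prod_eq_zero (Finset.mem_range.2 hl) h0] at this
    exact this.symm
  · obtain ⟨h3, h4⟩ := hqf x hx'
    refine h.wroots h3 hl ?_
    rw [h4]
    exact h0
  · obtain ⟨h3, h4⟩ := hqf x hx'
    obtain ⟨q₂, hq₂, h5⟩ := exists_smp hy
    have h6 : d.ys D k (qf x) q₂ = y := h5
    have h7 := h.vis h3 (show q₂ < NX D k from hq₂) (by rw [h4, h6]; exact hS)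
    rwa [h4, h6] at h7

/-- Certificates are sound. -/
theorem Good.guardable (h : d.Good D k φ) : Guardable (gallery 2 φ) k := by
  classical
  let L : ℝ × ℝ → (Fin 2 → ℝ) := fun p => ![p.1 + d.lam * p.2, p.2]
  have hLinj : Function.Injective L := by
    intro p q hpq
    have h1 := congrFun hpq 1
    have h0 := congrFun hpq 0
    simp only [L, Matrix.cons_val_zero, Matrix.cons_val_one] at h0 h1
    ext
    · rw [h1] at h0
      linarith
    · exact h1
  have hmem : ∀ p, L p ∈ gallery 2 φ ↔ p ∈ d.S φ := fun p => Iff.rfl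
  refine ⟨(Finset.range k).image fun i => L (d.g i), ?_, ?_, ?_⟩
  · rw [Finset.card_image_of_injOn, Finset.card_range]
    intro i hi j hj hij
    rw [Finset.mem_coe, Finset.mem_range] at hi hj
    by_contra hne
    exact h.c1' i hi j hj hne (hLinj hij)
  · intro g hg
    rw [Finset.mem_coe, Finset.mem_image] at hg
    obtain ⟨i, hi, rfl⟩ := hg
    exact h.c1 i (Finset.mem_range.1 hi)
  · intro p hp
    have hp' : p = L (p 0 - d.lam * p 1, p 1) := by
      ext c
      fin_cases c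
      · simp [L]
      · simp [L]
    have h1 : (p 0 - d.lam * p 1, p 1) ∈ d.S φ := by
      rw [← hmem, ← hp']
      exact hp
    obtain ⟨i, hi, hv⟩ := h.all _ h1
    refine ⟨L (d.g i), Finset.mem_image.2 ⟨i, Finset.mem_range.2 hi, rfl⟩, ?_⟩
    rw [segment_eq_image']
    rintro q ⟨t, ht, rfl⟩
    have h2 := hv t ht.1 ht.2
    have h3 : L (d.g i) + t • (p - L (d.g i)) = L (seg (d.g i) (p 0 - d.lam * p 1, p 1) t) := by
      ext c
      fin_cases c
      · show (d.g i).1 + d.lam * (d.g i).2 + t * (p 0 - ((d.g i).1 + d.lam * (d.g i).2)) =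
          (d.g i).1 + t * (p 0 - d.lam * p 1 - (d.g i).1) +
            d.lam * ((d.g i).2 + t * (p 1 - (d.g i).2))
        ring
      · show (d.g i).2 + t * (p 1 - (d.g i).2) = (d.g i).2 + t * (p 1 - (d.g i).2)
        rfl
    show L (d.g i) + t • (p - L (d.g i)) ∈ gallery 2 φ
    rw [h3]
    exact h2

end Dat

end Pool.Agent.H612.PG
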