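import Pool.Agent.H612.PG.Glue2
import Pool.Agent.H612.PG.FmIff
import Pool.Agent.H612.PG.FmPoly
import Pool.Agent.H612.PG.Comp

/-!
# The art gallery problem for semialgebraic galleries in the plane is in `∃ℝ`
-/

namespace Pool.Agent.NPC.H612

open Pool.Agent.NPC.ER Pool.Agent.H612.PG

/-- The art gallery problem for semialgebraic galleries in the plane; the number of guards is
written in unary. -/
def PlaneGallery (a : List Unit × QF) : Prop := Guardable (gallery 2 a.2) a.1.length

theorem planeGallery_iff (a : List Unit × QF) : PlaneGallery a ↔ ETR (pgFm a.1.length a.2) := by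
  rw [etr_pgFm]
  exact ⟨fun h => exists_dat _ _ h, fun ⟨_, hd⟩ => hd.guardable⟩

theorem planeGallery_inER : InER (lang PlaneGallery) :=
  InER.of_poly (φ := fun a : List Unit × QF => pgFm a.1.length a.2)
    (PGP.poly_pgFm (UPoly.length (Poly.fst Poly.id)) (Poly.snd Poly.id)) planeGallery_iff

end Pool.Agent.NPC.H612
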