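import Pool.Agent.H612.PG.Cross

/-!
# Visibility from a point in a generic direction

`seg g z t` runs through the segment from `g` to `z`. The set `S` is determined by the signs of the
functions `F l`, `l < r`. If the ray from `g` to `z` is transversal to the zero sets of the `F l`,
then near `z` the visibility from `g` depends only on the signs of the `F l`.
-/

namespace Pool.Agent.H612.PG

open Filter Topology Set

/-- The points of the segment from `g` to `z`. -/
def seg (g z : ℝ × ℝ) (t : ℝ) : ℝ × ℝ := g + t • (z - g)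

/-- Visibility: the segment between the points is contained in the set. -/
def Vis (S : Set (ℝ × ℝ)) (g z : ℝ × ℝ) : Prop := ∀ t, 0 ≤ t → t ≤ 1 → seg g z t ∈ S

@[simp] theorem seg_zero (g z : ℝ × ℝ) : seg g z 0 = g := by simp [seg]

@[simp] theorem seg_one (g z : ℝ × ℝ) : seg g z 1 = z := by simp [seg]

theorem continuous_seg (g : ℝ × ℝ) : Continuous fun q : (ℝ × ℝ) × ℝ => seg g q.1 q.2 := by
  unfold seg
  fun_prop

theorem continuous_seg_left (g : ℝ × ℝ) (t : ℝ) : Continuous fun z => seg g z t := by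
  unfold seg
  fun_prop

theorem continuous_seg_right (g z : ℝ × ℝ) : Continuous fun t => seg g z t := by
  unfold seg
  fun_prop

/-- The vector of the signs. -/
noncomputable def sv (r : ℕ) (F : ℕ → ℝ × ℝ → ℝ) (z : ℝ × ℝ) (l : ℕ) : SignType :=
  if l < r then SignType.sign (F l z) else 0

section

variable {r : ℕ} {F : ℕ → ℝ × ℝ → ℝ} {S : Set (ℝ × ℝ)}

theorem sv_eq {p p' : ℝ × ℝ} (h : ∀ l < r, SignType.sign (F l p) = SignType.sign (F l p')) :
    sv r F p = sv r F p' := by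
  funext l
  unfold sv
  split_ifs with hl
  · exact h l hl
  · rfl

theorem sv_apply {p : ℝ × ℝ} {l : ℕ} (hl : l < r) : sv r F p l = SignType.sign (F l p) := if_pos hl

theorem sv_eq' (l₀ : ℕ) {p p' : ℝ × ℝ}
    (h : ∀ l < r, l ≠ l₀ → SignType.sign (F l p) = SignType.sign (F l p'))
    (h₀ : SignType.sign (F l₀ p) = SignType.sign (F l₀ p')) : sv r F p = sv r F p' := by
  refine sv_eq fun l hl => ?_
  by_cases hll : l = l₀
  · rw [hll, h₀]
  · exact h l hl hll

theorem nb (hF : ∀ l, Continuous (F l)) {w : ℝ × ℝ} {l₀ : ℕ}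
    (h : ∀ l < r, l ≠ l₀ → F l w ≠ 0) :
    ∀ᶠ p in 𝓝 w, ∀ l < r, l ≠ l₀ → SignType.sign (F l p) = SignType.sign (F l w) := by
  have : ∀ᶠ p in 𝓝 w, ∀ l ∈ Finset.range r, l ≠ l₀ →
      SignType.sign (F l p) = SignType.sign (F l w) := by
    rw [Filter.eventually_all_finset]
    intro l hl
    by_cases hll : l = l₀
    · exact Eventually.of_forall fun _ h => absurd hll h
    · exact (sign_ev (hF l).continuousAt (h l (Finset.mem_range.1 hl) hll)).mono fun _ h _ => h
  exact this.mono fun p hp l hl => hp l (Finset.mem_range.2 hl)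

theorem nb' (hF : ∀ l, Continuous (F l)) {w : ℝ × ℝ} (h : ∀ l < r, F l w ≠ 0) :
    ∀ᶠ p in 𝓝 w, sv r F p = sv r F w := by
  have h1 := nb (l₀ := r) hF (fun l hl _ => h l hl)
  exact h1.mono fun p hp => sv_eq fun l hl => hp l hl (by omega)

variable (hF : ∀ l, ContDiff ℝ 1 (F l))
  (hS : ∀ p p' : ℝ × ℝ, sv r F p = sv r F p' → (p ∈ S ↔ p' ∈ S)) {g z : ℝ × ℝ}

include hF

theorem hasDeriv_seg (l : ℕ) (z : ℝ × ℝ) (t : ℝ) :
    HasDerivAt (fun t => F l (seg g z t)) (fderiv ℝ (F l) (seg g z t) (z - g)) t := by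
  have h1 : HasFDerivAt (F l) (fderiv ℝ (F l) (seg g z t)) (seg g z t) :=
    ((hF l).differentiable (by norm_num)).differentiableAt.hasFDerivAt
  have h2 : HasDerivAt (fun t => seg g z t) (z - g) t := by
    unfold seg
    have := ((hasDerivAt_id t).smul_const (z - g)).const_add g
    simpa using this
  exact h1.comp_hasDerivAt t h2

theorem cont_deriv_seg (l : ℕ) : Continuous fun q : (ℝ × ℝ) × ℝ =>
    fderiv ℝ (F l) (seg g q.1 q.2) (q.1 - g) := by
  have h1 := (hF l).continuous_fderiv_apply (by norm_num)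
  have h2 : Continuous fun q : (ℝ × ℝ) × ℝ => (seg g q.1 q.2, q.1 - g) :=
    (continuous_seg g).prodMk (continuous_fst.sub continuous_const)
  exact h1.comp h2

/-- The situation at a zero of `F l` on the ray. -/
theorem local_crossing {l₀ : ℕ} {t₀ : ℝ} (h0 : F l₀ (seg g z t₀) = 0)
    (hd : fderiv ℝ (F l₀) (seg g z t₀) (z - g) ≠ 0)
    (ho : ∀ l < r, l ≠ l₀ → F l (seg g z t₀) ≠ 0) {ε₀ : ℝ} (hε₀ : 0 < ε₀) :
    ∃ σ : ℝ, (σ = 1 ∨ σ = -1) ∧ ∃ ε > 0, ε ≤ ε₀ ∧ ∀ᶠ z' in 𝓝 z,
      StrictMonoOn (fun t => σ * F l₀ (seg g z' t)) (Icc (t₀ - ε) (t₀ + ε)) ∧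
      (∀ t ∈ Icc (t₀ - ε) (t₀ + ε), ∀ l < r, l ≠ l₀ →
        SignType.sign (F l (seg g z' t)) = SignType.sign (F l (seg g z t₀))) ∧
      σ * F l₀ (seg g z' (t₀ - ε)) < 0 ∧ 0 < σ * F l₀ (seg g z' (t₀ + ε)) := by
  obtain ⟨σ, hσ, ε₁, hε₁, h1⟩ := crossing (f := fun z t => F l₀ (seg g z t))
    (f' := fun z t => fderiv ℝ (F l₀) (seg g z t) (z - g)) (x₀ := z) (t₀ := t₀)
    (cont_deriv_seg hF l₀) (fun z t => hasDeriv_seg hF l₀ z t) hd
  have h2 : ∀ᶠ q : (ℝ × ℝ) × ℝ in 𝓝 (z, t₀), ∀ l < r, l ≠ l₀ →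
      SignType.sign (F l (seg g q.1 q.2)) = SignType.sign (F l (seg g z t₀)) :=
    (continuous_seg g).continuousAt.eventually (nb (fun l => (hF l).continuous) ho)
  obtain ⟨ε₂, hε₂, h3⟩ := ev_prod (P := fun z' t => ∀ l < r, l ≠ l₀ →
      SignType.sign (F l (seg g z' t)) = SignType.sign (F l (seg g z t₀))) h2
  set ε := min ε₀ (min ε₁ ε₂) with hε
  have hε0 : 0 < ε := lt_min hε₀ (lt_min hε₁ hε₂)
  have e1 : ε ≤ ε₁ := (min_le_right _ _).trans (min_le_left _ _)
  have e2 : ε ≤ ε₂ := (min_le_right _ _).trans (min_le_right _ _)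
  refine ⟨σ, hσ, ε, hε0, min_le_left _ _, ?_⟩
  have hm := h1.self_of_nhds.mono (Icc_subset_Icc (sub_le_sub_left e1 t₀)
    (add_le_add_right e1 t₀))
  have a1 : σ * F l₀ (seg g z (t₀ - ε)) < 0 := by
    have := hm (a := t₀ - ε) (b := t₀) ⟨le_rfl, by linarith⟩ ⟨by linarith, by linarith⟩
      (by linarith)
    simp only [h0, mul_zero] at this
    exact this
  have a2 : 0 < σ * F l₀ (seg g z (t₀ + ε)) := by
    have := hm (a := t₀) (b := t₀ + ε) ⟨by linarith, by linarith⟩ ⟨by linarith, le_rfl⟩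
      (by linarith)
    simp only [h0, mul_zero] at this
    exact this
  have c1 : ∀ t, Continuous fun z' => σ * F l₀ (seg g z' t) := fun t =>
    continuous_const.mul ((hF l₀).continuous.comp (continuous_seg_left g t))
  filter_upwards [h1, h3, (c1 (t₀ - ε)).continuousAt.eventually (gt_mem_nhds a1),
    (c1 (t₀ + ε)).continuousAt.eventually (lt_mem_nhds a2)] with z' k1 k2 k3 k4
  refine ⟨k1.mono (Icc_subset_Icc (sub_le_sub_left e1 t₀) (add_le_add_right e1 t₀)),
    fun t ht => k2 t ?_, k3, k4⟩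
  rw [abs_le]
  constructor <;> linarith [ht.1, ht.2]

theorem exists_zero {l₀ : ℕ} {σ t₁ t₂ : ℝ} (hσ : σ = 1 ∨ σ = -1) (h12 : t₁ ≤ t₂) {z' : ℝ × ℝ}
    (h1 : σ * F l₀ (seg g z' t₁) ≤ 0) (h2 : 0 ≤ σ * F l₀ (seg g z' t₂)) :
    ∃ t ∈ Icc t₁ t₂, F l₀ (seg g z' t) = 0 := by
  have hc : ContinuousOn (fun t => σ * F l₀ (seg g z' t)) (Icc t₁ t₂) :=
    (continuous_const.mul ((hF l₀).continuous.comp (continuous_seg_right g z'))).continuousOn
  obtain ⟨t, ht, ht0⟩ := intermediate_value_Icc h12 hc ⟨h1, h2⟩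
  refine ⟨t, ht, ?_⟩
  simp only at ht0
  rcases hσ with rfl | rfl
  · linarith
  · linarith

include hS

/-- A blocked point blocks nearby segments. -/
theorem blocked {t₀ : ℝ} (ht0 : 0 < t₀) (ht1 : t₀ < 1) (hw : seg g z t₀ ∉ S)
    (h1 : ∀ l < r, F l (seg g z t₀) = 0 → fderiv ℝ (F l) (seg g z t₀) (z - g) ≠ 0 ∧
      ∀ l' < r, l' ≠ l → F l' (seg g z t₀) ≠ 0) :
    ∀ᶠ z' in 𝓝 z, ¬ Vis S g z' := by
  by_cases hz : ∃ l₀ < r, F l₀ (seg g z t₀) = 0
  · obtain ⟨l₀, hl₀, h0⟩ := hz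
    obtain ⟨hd, ho⟩ := h1 l₀ hl₀ h0
    obtain ⟨σ, hσ, ε, hε, hεle, h2⟩ := local_crossing hF h0 hd ho
      (ε₀ := min t₀ (1 - t₀)) (lt_min ht0 (by linarith))
    have e1 : ε ≤ t₀ := hεle.trans (min_le_left _ _)
    have e2 : ε ≤ 1 - t₀ := hεle.trans (min_le_right _ _)
    refine h2.mono fun z' ⟨_, k2, k3, k4⟩ hv => ?_
    obtain ⟨t, ht, ht0'⟩ := exists_zero hF hσ (by linarith) k3.le k4.le
    have h3 : sv r F (seg g z' t) = sv r F (seg g z t₀) :=
      sv_eq' l₀ (k2 t ht) (by rw [ht0', h0])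
    exact hw ((hS _ _ h3).1 (hv t (by linarith [ht.1]) (by linarith [ht.2])))
  · push Not at hz
    have h2 : ∀ᶠ z' in 𝓝 z, sv r F (seg g z' t₀) = sv r F (seg g z t₀) :=
      (continuous_seg_left g t₀).continuousAt.eventually
        (nb' (fun l => (hF l).continuous) hz)
    exact h2.mono fun z' hz' hv => hw ((hS _ _ hz').1 (hv t₀ ht0.le ht1.le))

/-- Points in the interior of a segment in `S` are interior points of `S`. -/
theorem interior {t₀ : ℝ} (ht0 : 0 < t₀) (ht1 : t₀ < 1)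
    (hin : ∀ t, 0 ≤ t → t < 1 → seg g z t ∈ S)
    (h1 : ∀ l < r, F l (seg g z t₀) = 0 → fderiv ℝ (F l) (seg g z t₀) (z - g) ≠ 0 ∧
      ∀ l' < r, l' ≠ l → F l' (seg g z t₀) ≠ 0) :
    ∀ᶠ p in 𝓝 (seg g z t₀), p ∈ S := by
  by_cases hz : ∃ l₀ < r, F l₀ (seg g z t₀) = 0
  · obtain ⟨l₀, hl₀, h0⟩ := hz
    obtain ⟨hd, ho⟩ := h1 l₀ hl₀ h0
    obtain ⟨σ, hσ, ε, hε, hεle, h2⟩ := local_crossing hF h0 hd ho
      (ε₀ := min t₀ (1 - t₀) / 2) (half_pos (lt_min ht0 (by linarith)))
    have e1 : ε ≤ t₀ / 2 := hεle.trans (div_le_div_of_nonneg_right (min_le_left _ _) (by norm_num))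
    have e2 : ε ≤ (1 - t₀) / 2 :=
      hεle.trans (div_le_div_of_nonneg_right (min_le_right _ _) (by norm_num))
    obtain ⟨k1, k2, k3, k4⟩ := h2.self_of_nhds
    have m1 : seg g z (t₀ - ε) ∈ S := hin _ (by linarith) (by linarith)
    have m2 : seg g z t₀ ∈ S := hin _ ht0.le ht1
    have m3 : seg g z (t₀ + ε) ∈ S := hin _ (by linarith) (by linarith)
    refine (nb (fun l => (hF l).continuous) ho).mono fun p hp => ?_
    have q1 := k2 (t₀ - ε) ⟨le_rfl, by linarith⟩
    have q3 := k2 (t₀ + ε) ⟨by linarith, le_rfl⟩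
    have key : SignType.sign (F l₀ p) = SignType.sign (F l₀ (seg g z (t₀ - ε))) ∨
        F l₀ p = 0 ∨ SignType.sign (F l₀ p) = SignType.sign (F l₀ (seg g z (t₀ + ε))) := by
      rcases hσ with rfl | rfl
      · rw [one_mul] at k3 k4
        rw [sign_neg k3, sign_pos k4]
        rcases lt_trichotomy (F l₀ p) 0 with h | h | h
        · exact Or.inl (sign_neg h)
        · exact Or.inr (Or.inl h)
        · exact Or.inr (Or.inr (sign_pos h))
      · rw [sign_pos (show 0 < F l₀ (seg g z (t₀ - ε)) by linarith),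
          sign_neg (show F l₀ (seg g z (t₀ + ε)) < 0 by linarith)]
        rcases lt_trichotomy (F l₀ p) 0 with h | h | h
        · exact Or.inr (Or.inr (sign_neg h))
        · exact Or.inr (Or.inl h)
        · exact Or.inl (sign_pos h)
    rcases key with h | h | h
    · exact (hS _ _ (sv_eq' l₀ (fun l hl hne => (hp l hl hne).trans (q1 l hl hne).symm) h)).2 m1
    · exact (hS _ _ (sv_eq' l₀ hp (by rw [h, h0]))).2 m2
    · exact (hS _ _ (sv_eq' l₀ (fun l hl hne => (hp l hl hne).trans (q3 l hl hne).symm) h)).2 m3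
  · push Not at hz
    refine (nb' (fun l => (hF l).continuous) hz).mono fun p hp => ?_
    exact (hS _ _ hp).2 (hin _ ht0.le ht1)

/-- The beginning of the segments. -/
theorem start (hg : g ∈ S) (hin : ∀ t, 0 ≤ t → t < 1 → seg g z t ∈ S)
    (h2 : ∃ δ > 0, ∀ᶠ z' in 𝓝 z, ∀ t, 0 < t → t < δ → ∀ l < r, F l (seg g z' t) ≠ 0) :
    ∃ δ > 0, ∀ᶠ z' in 𝓝 z, ∀ t, 0 ≤ t → t < δ → seg g z' t ∈ S := by
  obtain ⟨δ, hδ, h3⟩ := h2
  rw [Metric.eventually_nhds_iff_ball] at h3
  obtain ⟨ε, hε, h4⟩ := h3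
  refine ⟨min δ 1, lt_min hδ one_pos, ?_⟩
  rw [Metric.eventually_nhds_iff_ball]
  refine ⟨ε, hε, fun z' hz' t ht0 ht1 => ?_⟩
  rcases lt_or_eq_of_le ht0 with ht0 | ht0
  · have htδ : t < δ := ht1.trans_le (min_le_left _ _)
    have : sv r F (seg g z' t) = sv r F (seg g z t) := by
      refine sv_eq fun l hl => ?_
      exact sign_const (C := Metric.ball z ε) (f := fun q => F l (seg g q t))
        (convex_ball z ε).isPreconnected
        ((hF l).continuous.comp (continuous_seg_left g t)).continuousOn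
        (fun q hq => h4 q hq t ht0 htδ l hl) hz' (Metric.mem_ball_self hε)
    exact (hS _ _ this).2 (hin t ht0.le (ht1.trans_le (min_le_right _ _)))
  · rw [← ht0, seg_zero]
    exact hg

/-- The end of the segments. -/
theorem finish (hin : ∀ t, 0 ≤ t → t < 1 → seg g z t ∈ S)
    (h1 : ∀ l < r, F l z = 0 → fderiv ℝ (F l) z (z - g) ≠ 0 ∧ ∀ l' < r, l' ≠ l → F l' z ≠ 0) :
    ∃ ε > 0, ε < 1 ∧ ∃ R : (ℕ → SignType) → Prop, ∀ᶠ z' in 𝓝 z,
      ((∀ t, 1 - ε ≤ t → t ≤ 1 → seg g z' t ∈ S) ↔ R (sv r F z')) := by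
  by_cases hz : ∃ l₀ < r, F l₀ z = 0
  · obtain ⟨l₀, hl₀, h0⟩ := hz
    obtain ⟨hd, ho⟩ := h1 l₀ hl₀ h0
    obtain ⟨σ, hσ, ε, hε, hεle, h2⟩ := local_crossing (g := g) (z := z) (t₀ := 1) (r := r) hF
      (by rwa [seg_one]) (by rwa [seg_one]) (by rwa [seg_one]) (ε₀ := 1 / 2) (by norm_num)
    refine ⟨ε, hε, by linarith, ?_⟩
    obtain ⟨k1, k2, k3, k4⟩ := h2.self_of_nhds
    simp only [seg_one] at k2
    have m1 : seg g z (1 - ε) ∈ S := hin _ (by linarith) (by linarith)
    have q1 := k2 (1 - ε) ⟨le_rfl, by linarith⟩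
    have q3 := k2 (1 + ε) ⟨by linarith, le_rfl⟩
    refine ⟨fun s => (s l₀ = SignType.sign (F l₀ (seg g z (1 - ε)))) ∨ (s l₀ = 0 ∧ z ∈ S) ∨
      (z ∈ S ∧ seg g z (1 + ε) ∈ S), ?_⟩
    filter_upwards [h2, nb (fun l => (hF l).continuous) ho] with z' hz' hnb
    obtain ⟨a1, a2, a3, a4⟩ := hz'
    simp only [seg_one] at a2
    rw [sv_apply hl₀]
    have hσ0 : σ ≠ 0 := by rcases hσ with rfl | rfl <;> norm_num
    -- sign of the crossing function
    have sgn1 : ∀ p p' : ℝ × ℝ, σ * F l₀ p < 0 → σ * F l₀ p' < 0 →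
        SignType.sign (F l₀ p) = SignType.sign (F l₀ p') := by
      intro p p' h h'
      rcases hσ with rfl | rfl
      · rw [sign_neg (by linarith), sign_neg (by linarith)]
      · rw [sign_pos (by linarith), sign_pos (by linarith)]
    have sgn2 : ∀ p p' : ℝ × ℝ, 0 < σ * F l₀ p → 0 < σ * F l₀ p' →
        SignType.sign (F l₀ p) = SignType.sign (F l₀ p') := by
      intro p p' h h'
      rcases hσ with rfl | rfl
      · rw [sign_pos (by linarith), sign_pos (by linarith)]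
      · rw [sign_neg (by linarith), sign_neg (by linarith)]
    have before : ∀ t, 1 - ε ≤ t → t ≤ 1 → σ * F l₀ (seg g z' t) < 0 → seg g z' t ∈ S := by
      intro t ht1 ht2 hlt
      refine (hS _ _ (sv_eq' l₀ (fun l hl hne => ?_) (sgn1 _ _ hlt k3))).2 m1
      rw [a2 t ⟨ht1, by linarith⟩ l hl hne, q1 l hl hne]
    have mono : ∀ t, 1 - ε ≤ t → t < 1 → σ * F l₀ (seg g z' t) < σ * F l₀ z' := by
      intro t ht1 ht2
      have := a1 (a := t) (b := 1) ⟨ht1, by linarith⟩ ⟨by linarith, by linarith⟩ ht2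
      simpa only [seg_one] using this
    rcases lt_trichotomy (σ * F l₀ z') 0 with h | h | h
    · -- the point lies before the curve
      have hR : SignType.sign (F l₀ z') = SignType.sign (F l₀ (seg g z (1 - ε))) :=
        sgn1 _ _ h k3
      simp only [hR, true_or, iff_true]
      intro t ht1 ht2
      rcases lt_or_eq_of_le ht2 with ht2 | ht2
      · exact before t ht1 ht2.le ((mono t ht1 ht2).trans h)
      · rw [ht2]
        exact before 1 (by linarith) le_rfl (by rw [seg_one]; exact h)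
    · -- the point lies on the curve
      have h' : F l₀ z' = 0 := (mul_eq_zero.1 h).resolve_left hσ0
      have hne : ¬ (SignType.sign (F l₀ z') = SignType.sign (F l₀ (seg g z (1 - ε)))) := by
        rw [h', sign_zero]
        intro h3
        have := sign_eq_zero_iff.1 h3.symm
        rw [this, mul_zero] at k3
        exact lt_irrefl _ k3
      have hsv : sv r F z' = sv r F z := sv_eq' l₀ hnb (by rw [h', h0])
      constructor
      · intro h3
        have h4 := h3 1 (by linarith) le_rfl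
        rw [seg_one] at h4
        exact Or.inr (Or.inl ⟨by rw [h', sign_zero], (hS _ _ hsv).1 h4⟩)
      · intro h3
        have hzS : z ∈ S := by
          rcases h3 with h3 | h3 | h3
          · exact absurd h3 hne
          · exact h3.2
          · exact h3.1
        intro t ht1 ht2
        rcases lt_or_eq_of_le ht2 with ht2 | ht2
        · exact before t ht1 ht2.le ((mono t ht1 ht2).trans_le h.le)
        · rw [ht2, seg_one]
          exact (hS _ _ hsv).2 hzS
    · -- the point lies behind the curve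
      have hne : ¬ (SignType.sign (F l₀ z') = SignType.sign (F l₀ (seg g z (1 - ε)))) := by
        intro h3
        rcases hσ with rfl | rfl
        · rw [sign_pos (show 0 < F l₀ z' by linarith),
            sign_neg (show F l₀ (seg g z (1 - ε)) < 0 by linarith)] at h3
          exact absurd h3 (by decide)
        · rw [sign_neg (show F l₀ z' < 0 by linarith),
            sign_pos (show 0 < F l₀ (seg g z (1 - ε)) by linarith)] at h3
          exact absurd h3 (by decide)
      have hne0 : ¬ (SignType.sign (F l₀ z') = 0) := by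
        intro h3
        rw [sign_eq_zero_iff.1 h3, mul_zero] at h
        exact lt_irrefl _ h
      have hzero : ∀ t, 1 - ε ≤ t → t ≤ 1 → F l₀ (seg g z' t) = 0 →
          sv r F (seg g z' t) = sv r F z := by
        intro t ht1 ht2 h3
        exact sv_eq' l₀ (a2 t ⟨ht1, by linarith⟩) (by rw [h3, h0])
      have hpos : ∀ t, 1 - ε ≤ t → t ≤ 1 → 0 < σ * F l₀ (seg g z' t) →
          sv r F (seg g z' t) = sv r F (seg g z (1 + ε)) := by
        intro t ht1 ht2 h3
        refine sv_eq' l₀ (fun l hl hne => ?_) (sgn2 _ _ h3 k4)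
        rw [a2 t ⟨ht1, by linarith⟩ l hl hne, q3 l hl hne]
      constructor
      · intro h3
        obtain ⟨t, ht, ht0⟩ := exists_zero hF hσ (show 1 - ε ≤ 1 by linarith) a3.le
          (by rw [seg_one]; exact h.le)
        refine Or.inr (Or.inr ⟨(hS _ _ (hzero t ht.1 ht.2 ht0)).1 (h3 t ht.1 ht.2), ?_⟩)
        refine (hS _ _ (hpos 1 (by linarith) le_rfl (by rw [seg_one]; exact h))).1
          (h3 1 (by linarith) le_rfl)
      · intro h3
        have h3' : z ∈ S ∧ seg g z (1 + ε) ∈ S := by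
          rcases h3 with h3 | h3 | h3
          · exact absurd h3 hne
          · exact absurd h3.1 hne0
          · exact h3
        intro t ht1 ht2
        rcases lt_trichotomy (σ * F l₀ (seg g z' t)) 0 with h4 | h4 | h4
        · exact before t ht1 ht2 h4
        · exact (hS _ _ (hzero t ht1 ht2 ((mul_eq_zero.1 h4).resolve_left hσ0))).2 h3'.1
        · exact (hS _ _ (hpos t ht1 ht2 h4)).2 h3'.2
  · push Not at hz
    have h2 : ∀ᶠ q : (ℝ × ℝ) × ℝ in 𝓝 (z, 1), sv r F (seg g q.1 q.2) = sv r F z := by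
      have := (continuous_seg g).continuousAt (x := (z, 1))
      have h3 : ∀ᶠ p in 𝓝 (seg g z 1), sv r F p = sv r F z := by
        rw [seg_one]
        exact nb' (fun l => (hF l).continuous) hz
      exact this.eventually h3
    obtain ⟨ε, hε, h3⟩ := ev_prod (P := fun z' t => sv r F (seg g z' t) = sv r F z) h2
    set ε' := min ε (1 / 2)
    have hε' : 0 < ε' := lt_min hε (by norm_num)
    refine ⟨ε', hε', (min_le_right _ _).trans_lt (by norm_num), fun _ => True, ?_⟩
    have hm : seg g z (1 - ε') ∈ S := hin _ (by linarith [min_le_right ε (1 / 2)]) (by linarith)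
    have h4 : sv r F (seg g z (1 - ε')) = sv r F z := h3.self_of_nhds _ (by
      rw [abs_le]
      constructor <;> linarith [min_le_left ε (1 / 2)])
    refine h3.mono fun z' hz' => ?_
    simp only [iff_true]
    intro t ht1 ht2
    refine (hS _ _ ?_).2 hm
    rw [h4]
    refine hz' t ?_
    rw [abs_le]
    constructor <;> linarith [min_le_left ε (1 / 2)]

/-- Near a point in a transversal direction the visibility from `g` depends only on the signs. -/
theorem vis_local (hg : g ∈ S)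
    (h1 : ∀ t, 0 < t → t ≤ 1 → ∀ l < r, F l (seg g z t) = 0 →
      fderiv ℝ (F l) (seg g z t) (z - g) ≠ 0 ∧ ∀ l' < r, l' ≠ l → F l' (seg g z t) ≠ 0)
    (h2 : ∃ δ > 0, ∀ᶠ z' in 𝓝 z, ∀ t, 0 < t → t < δ → ∀ l < r, F l (seg g z' t) ≠ 0) :
    ∃ R : (ℕ → SignType) → Prop, ∀ᶠ z' in 𝓝 z, (Vis S g z' ↔ R (sv r F z')) := by
  by_cases hb : ∃ t₀, 0 ≤ t₀ ∧ t₀ < 1 ∧ seg g z t₀ ∉ S
  · obtain ⟨t₀, ht0, ht1, hw⟩ := hb
    have ht0' : 0 < t₀ := by
      refine lt_of_le_of_ne ht0 fun h => hw ?_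
      rw [← h, seg_zero]
      exact hg
    refine ⟨fun _ => False, (blocked hF hS ht0' ht1 hw (h1 t₀ ht0' ht1.le)).mono fun z' hz' => ?_⟩
    simp [hz']
  · push Not at hb
    have hin : ∀ t, 0 ≤ t → t < 1 → seg g z t ∈ S := fun t h h' => by
      by_contra hc
      exact hc (hb t h h')
    obtain ⟨δ, hδ, h3⟩ := start hF hS hg hin h2
    obtain ⟨ε, hε, hε1, R, h4⟩ := finish hF hS (g := g) (z := z) hin (by
      have := h1 1 one_pos le_rfl
      simpa only [seg_one] using this)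
    have h5 : ∀ᶠ z' in 𝓝 z, ∀ t ∈ Icc (min (δ / 2) (1 - ε)) (1 - ε), seg g z' t ∈ S := by
      refine isCompact_Icc.eventually_forall_of_forall_eventually fun t ht => ?_
      have ht0 : 0 < t := lt_of_lt_of_le (lt_min (half_pos hδ) (by linarith)) ht.1
      have ht1 : t < 1 := ht.2.trans_lt (by linarith)
      exact (continuous_seg g).continuousAt.eventually
        (interior hF hS ht0 ht1 hin (h1 t ht0 ht1.le))
    refine ⟨R, ?_⟩
    filter_upwards [h3, h4, h5] with z' k3 k4 k5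
    rw [← k4]
    constructor
    · intro hv t ht1 ht2
      exact hv t (by linarith) ht2
    · intro hv t ht0 ht1
      rcases lt_or_ge t δ with h | h
      · exact k3 t ht0 h
      · rcases le_or_gt (1 - ε) t with h' | h'
        · exact hv t h' ht1
        · refine k5 t ⟨(min_le_left _ _).trans (by linarith), h'.le⟩

end

end Pool.Agent.H612.PG
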