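import Pool.Agent.H612.PG.Pencil1

/-!
# Guarding a planar semialgebraic set: finitely many sample points suffice
-/

namespace Pool.Agent.H612.PG

open Filter Topology Set

/-- If the signs do not change between `z` and `p` on the ray from `g` then `z` and `p` have the
same visibility. -/
theorem vis_collinear {r : ℕ} {F : ℕ → ℝ × ℝ → ℝ} {S : Set (ℝ × ℝ)}
    (hS : ∀ p p' : ℝ × ℝ, sv r F p = sv r F p' → (p ∈ S ↔ p' ∈ S)) {g z : ℝ × ℝ} {τ : ℝ}
    (hτ : 0 < τ) (h : ∀ t ∈ uIcc 1 τ, sv r F (seg g z t) = sv r F z) :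
    Vis S g (seg g z τ) ↔ Vis S g z := by
  have e : ∀ t, seg g (seg g z τ) t = seg g z (t * τ) := by
    intro t
    unfold seg
    rw [add_sub_cancel_left, smul_smul]
  have hτS : seg g z τ ∈ S ↔ z ∈ S := hS _ _ (h τ right_mem_uIcc)
  constructor
  · intro hv t ht0 ht1
    rcases le_or_gt t τ with htτ | htτ
    · have := hv (t / τ) (by positivity) (by rw [div_le_one hτ]; exact htτ)
      rwa [e, div_mul_cancel₀ _ hτ.ne'] at this
    · have h1 := hv 1 zero_le_one le_rfl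
      rw [e, one_mul] at h1
      have h2 : t ∈ uIcc 1 τ := by
        rw [mem_uIcc]
        exact Or.inr ⟨htτ.le, ht1⟩
      exact (hS _ _ (h t h2)).2 (hτS.1 h1)
  · intro hv t ht0 ht1
    rw [e]
    rcases le_or_gt (t * τ) 1 with htτ | htτ
    · exact hv _ (by positivity) htτ
    · have h1 := hv 1 zero_le_one le_rfl
      rw [seg_one] at h1
      have h2 : t * τ ∈ uIcc 1 τ := by
        rw [mem_uIcc]
        exact Or.inl ⟨htτ.le, by nlinarith⟩
      exact (hS _ _ (h _ h2)).2 h1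

/-- The slope of the line from `g` to `z`. -/
noncomputable def slp (g z : ℝ × ℝ) : ℝ := (z.2 - g.2) / (z.1 - g.1)

theorem sub_eq_smul {g z : ℝ × ℝ} (h : z.1 ≠ g.1) : z - g = (z.1 - g.1) • ((1 : ℝ), slp g z) := by
  have : z.1 - g.1 ≠ 0 := sub_ne_zero.2 h
  ext
  · simp
  · simp [slp]
    field_simp

theorem seg_eq_slp {g z : ℝ × ℝ} (h : z.1 ≠ g.1) (t : ℝ) :
    seg g z t = g + (t * (z.1 - g.1)) • ((1 : ℝ), slp g z) := by
  unfold seg
  rw [sub_eq_smul h, smul_smul]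

theorem continuousAt_slp {g z : ℝ × ℝ} (h : z.1 ≠ g.1) : ContinuousAt (fun z => slp g z) z := by
  unfold slp
  exact ContinuousAt.div (by fun_prop) (by fun_prop) (sub_ne_zero.2 h)

section

variable {r r' k : ℕ} {F : ℕ → ℝ × ℝ → ℝ} {S : Set (ℝ × ℝ)} {g : ℕ → ℝ × ℝ}
  {M : ℕ → Finset ℝ} {Z : Finset ℝ}

/-- Transversality of the lines through `g` with slope `m`. -/
def Trans (r : ℕ) (F : ℕ → ℝ × ℝ → ℝ) (g : ℝ × ℝ) (m : ℝ) : Prop :=
  (∀ ρ : ℝ, ρ ≠ 0 → ∀ l < r, F l (g + ρ • ((1 : ℝ), m)) = 0 →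
    fderiv ℝ (F l) (g + ρ • ((1 : ℝ), m)) ((1 : ℝ), m) ≠ 0 ∧
    ∀ l' < r, l' ≠ l → F l' (g + ρ • ((1 : ℝ), m)) ≠ 0) ∧
  ∃ δ > 0, ∀ m' : ℝ, |m' - m| < δ → ∀ ρ : ℝ, ρ ≠ 0 → |ρ| < δ →
    ∀ l < r, F l (g + ρ • ((1 : ℝ), m')) ≠ 0

/-- Visibility near a point in a transversal direction. -/
theorem vis_trans (hF : ∀ l, ContDiff ℝ 1 (F l))
    (hS : ∀ p p' : ℝ × ℝ, sv r F p = sv r F p' → (p ∈ S ↔ p' ∈ S)) {g z : ℝ × ℝ} (hg : g ∈ S)
    (hz : z.1 ≠ g.1) (ht : Trans r F g (slp g z)) :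
    ∃ R : (ℕ → SignType) → Prop, ∀ᶠ z' in 𝓝 z, (Vis S g z' ↔ R (sv r F z')) := by
  obtain ⟨h1, δ, hδ, h2⟩ := ht
  have hdx : z.1 - g.1 ≠ 0 := sub_ne_zero.2 hz
  refine vis_local hF hS hg (fun t ht0 ht1 l hl h0 => ?_) ?_
  · rw [seg_eq_slp hz] at h0 ⊢
    obtain ⟨h3, h4⟩ := h1 (t * (z.1 - g.1)) (mul_ne_zero ht0.ne' hdx) l hl h0
    refine ⟨?_, h4⟩
    rw [sub_eq_smul hz, map_smul, smul_eq_mul]
    exact mul_ne_zero hdx h3
  · refine ⟨δ / (2 * |z.1 - g.1| + 1), by positivity, ?_⟩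
    have c1 : ∀ᶠ z' in 𝓝 z, |slp g z' - slp g z| < δ := by
      have := (continuousAt_slp hz)
      rw [Metric.continuousAt_iff] at this
      obtain ⟨ε, hε, h3⟩ := this δ hδ
      filter_upwards [Metric.ball_mem_nhds z hε] with z' hz'
      exact h3 hz'
    have c2 : ∀ᶠ z' : ℝ × ℝ in 𝓝 z, z'.1 - g.1 ≠ 0 :=
      (continuous_fst.sub continuous_const).continuousAt.eventually_ne hdx
    have c3 : ∀ᶠ z' : ℝ × ℝ in 𝓝 z, |z'.1 - g.1| < 2 * |z.1 - g.1| := by
      have hc : ContinuousAt (fun z' : ℝ × ℝ => |z'.1 - g.1|) z := by fun_prop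
      exact hc.eventually_lt continuousAt_const (by have := abs_pos.2 hdx; linarith)
    filter_upwards [c1, c2, c3] with z' k1 k2 k3 t ht0 ht1 l hl
    rw [seg_eq_slp (sub_ne_zero.1 k2)]
    refine h2 _ k1 _ (mul_ne_zero ht0.ne' k2) ?_ l hl
    rw [abs_mul, abs_of_pos ht0]
    have h5 : 0 < 2 * |z.1 - g.1| + 1 := by positivity
    rw [lt_div_iff₀ h5] at ht1
    have h6 := abs_nonneg (z'.1 - g.1)
    nlinarith

/-- Visibility near a point on a critical line. -/
theorem vis_crit (hF : ∀ l, ContDiff ℝ 1 (F l)) (hr : r ≤ r')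
    (hS : ∀ p p' : ℝ × ℝ, sv r F p = sv r F p' → (p ∈ S ↔ p' ∈ S)) {g z : ℝ × ℝ} (hg : g ∈ S)
    {M : Finset ℝ} (hM : ∀ m ∉ M, Trans r F g m) (hz : z.1 ≠ g.1) {l₁ : ℕ}
    (hl : ∀ p, F l₁ p = p.2 - g.2 - slp g z * (p.1 - g.1))
    (ho : ∀ l < r', l ≠ l₁ → F l z ≠ 0) :
    ∃ R : SignType → Prop, ∀ᶠ z' in 𝓝 z, (Vis S g z' ↔ R (SignType.sign (F l₁ z'))) := by
  classical
  have hdx : z.1 - g.1 ≠ 0 := sub_ne_zero.2 hz
  have c1 : ∀ᶠ p in 𝓝 z, ∀ l < r', l ≠ l₁ → SignType.sign (F l p) = SignType.sign (F l z) :=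
    nb (fun l => (hF l).continuous) ho
  have c2 : ∀ᶠ z' : ℝ × ℝ in 𝓝 z, z'.1 - g.1 ≠ 0 :=
    (continuous_fst.sub continuous_const).continuousAt.eventually_ne hdx
  have c3 : ∀ᶠ p in 𝓝 z, slp g p ∉ M.erase (slp g z) := by
    have h1 : (M.erase (slp g z) : Set ℝ)ᶜ ∈ 𝓝 (slp g z) :=
      (M.erase (slp g z)).finite_toSet.isClosed.isOpen_compl.mem_nhds (by simp)
    exact (continuousAt_slp hz).eventually h1
  obtain ⟨ε, hε, hB⟩ := Metric.eventually_nhds_iff_ball.1 (c1.and (c2.and c3))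
  set B := Metric.ball z ε with hBdef
  have hzB : z ∈ B := Metric.mem_ball_self hε
  -- off the line
  have key : ∀ C : Set (ℝ × ℝ), C ⊆ B → IsPreconnected C → (∀ p ∈ C, F l₁ p ≠ 0) →
      ∀ p ∈ C, ∀ p' ∈ C, (Vis S g p ↔ Vis S g p') := by
    intro C hCB hC h0 p hp p' hp'
    refine pred_const hC (fun q hq => ?_) hp hp'
    obtain ⟨k1, k2, k3⟩ := hB q (hCB hq)
    have hq1 : q.1 ≠ g.1 := sub_ne_zero.1 k2
    have hsl : slp g q ∉ M := by
      intro hm
      have hne : slp g q ≠ slp g z := by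
        intro he
        refine h0 q hq ?_
        rw [hl, ← he]
        unfold slp
        field_simp
        ring
      exact k3 (Finset.mem_erase.2 ⟨hne, hm⟩)
    obtain ⟨R, hR⟩ := vis_trans hF hS hg hq1 (hM _ hsl)
    have hall : ∀ l < r, F l q ≠ 0 := by
      intro l hlr
      by_cases hll : l = l₁
      · rw [hll]
        exact h0 q hq
      · have := k1 l (hlr.trans_le hr) hll
        intro h
        rw [h, sign_zero] at this
        exact ho l (hlr.trans_le hr) hll (sign_eq_zero_iff.1 this.symm)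
    have hsv := nb' (fun l => (hF l).continuous) hall
    have hR0 := hR.self_of_nhds
    have : ∀ᶠ y in 𝓝 q, (Vis S g y ↔ Vis S g q) := by
      filter_upwards [hR, hsv] with y hy1 hy2
      rw [hy1, hy2, ← hR0]
    exact this.filter_mono nhdsWithin_le_nhds
  have hlin : IsLinearMap ℝ fun p : ℝ × ℝ => p.2 - slp g z * p.1 := by
    constructor
    · intro p q; simp; ring
    · intro c p; simp; ring
  have hconv1 : Convex ℝ {p : ℝ × ℝ | 0 < F l₁ p} := by
    have : {p : ℝ × ℝ | 0 < F l₁ p} = {p | g.2 - slp g z * g.1 < p.2 - slp g z * p.1} := by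
      ext p
      simp only [mem_setOf_eq, hl]
      constructor <;> intro h <;> linarith
    rw [this]
    exact convex_halfSpace_gt hlin _
  have hconv2 : Convex ℝ {p : ℝ × ℝ | F l₁ p < 0} := by
    have : {p : ℝ × ℝ | F l₁ p < 0} = {p | p.2 - slp g z * p.1 < g.2 - slp g z * g.1} := by
      ext p
      simp only [mem_setOf_eq, hl]
      constructor <;> intro h <;> linarith
    rw [this]
    exact convex_halfSpace_lt hlin _
  have kp := key (B ∩ {p | 0 < F l₁ p}) inter_subset_left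
    ((convex_ball z ε).inter hconv1).isPreconnected fun p hp => ne_of_gt hp.2
  have km := key (B ∩ {p | F l₁ p < 0}) inter_subset_left
    ((convex_ball z ε).inter hconv2).isPreconnected fun p hp => ne_of_lt hp.2
  -- on the line
  have k0 : ∀ p ∈ B, F l₁ p = 0 → (Vis S g p ↔ Vis S g z) := by
    intro p hp h0
    have hp1 : p.1 - g.1 ≠ 0 := (hB p hp).2.1
    set τ := (p.1 - g.1) / (z.1 - g.1) with hτ
    have hτ0 : 0 < τ := by
      by_contra hc
      push Not at hc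
      -- the ball would meet the vertical line through `g`
      have hseg : ∀ s ∈ Icc (0 : ℝ) 1, z + s • (p - z) ∈ B := by
        intro s hs
        have h1 := (convex_ball z ε).add_smul_sub_mem hzB hp hs
        exact h1
      have h1 : (z.1 - g.1) / (z.1 - p.1) ∈ Icc (0 : ℝ) 1 ∧ z.1 - p.1 ≠ 0 := by
        have h2 : τ < 0 := lt_of_le_of_ne hc (div_ne_zero hp1 hdx)
        rw [hτ, div_neg_iff] at h2
        rcases h2 with ⟨h3, h4⟩ | ⟨h3, h4⟩
        · refine ⟨⟨?_, ?_⟩, by linarith⟩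
          · exact div_nonneg_of_nonpos h4.le (by linarith)
          · rw [div_le_one_of_neg (by linarith)]
            linarith
        · refine ⟨⟨?_, ?_⟩, by linarith⟩
          · exact div_nonneg h4.le (by linarith)
          · rw [div_le_one (by linarith)]
            linarith
      have h2 := (hB _ (hseg _ h1.1)).2.1
      apply h2
      have h3 := h1.2
      simp only [Prod.fst_add, Prod.smul_fst, Prod.fst_sub, smul_eq_mul]
      field_simp
      ring
    have hpt : p = seg g z τ := by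
      rw [seg_eq_slp hz]
      have h1 : τ * (z.1 - g.1) = p.1 - g.1 := by
        rw [hτ]
        field_simp
      rw [h1]
      rw [hl] at h0
      ext
      · simp
      · simp
        linarith
    rw [hpt]
    refine vis_collinear hS hτ0 fun t ht => ?_
    -- the points between `z` and `p`
    have hin : seg g z t ∈ B := by
      have h1 : seg g z t ∈ segment ℝ z p := by
        have h2 : z = AffineMap.lineMap g z (1 : ℝ) := by simp
        rw [hpt]
        have h3 : (fun t => seg g z t) = fun t => AffineMap.lineMap g z t := by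
          funext t
          simp [seg, AffineMap.lineMap_apply, add_comm]
        rw [segment_eq_image']
        rw [mem_uIcc] at ht
        rcases eq_or_ne τ 1 with h4 | h4
        · have : t = 1 := by rcases ht with ht | ht <;> linarith [ht.1, ht.2]
          refine ⟨0, ⟨le_rfl, zero_le_one⟩, ?_⟩
          simp [this]
        · refine ⟨(t - 1) / (τ - 1), ?_, ?_⟩
          · rcases ht with ht | ht
            · have : 0 < τ - 1 := lt_of_le_of_ne (by linarith [ht.1, ht.2])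
                (sub_ne_zero.2 h4).symm
              exact ⟨div_nonneg (by linarith [ht.1]) this.le, by
                rw [div_le_one this]; linarith [ht.2]⟩
            · have : τ - 1 < 0 := lt_of_le_of_ne (by linarith [ht.1, ht.2]) (sub_ne_zero.2 h4)
              exact ⟨div_nonneg_of_nonpos (by linarith [ht.2]) this.le, by
                rw [div_le_one_of_neg this]; linarith [ht.1]⟩
          · have h5 : τ - 1 ≠ 0 := sub_ne_zero.2 h4
            unfold seg
            ext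
            · simp
              field_simp
              ring
            · simp
              field_simp
              ring
      exact (convex_ball z ε).segment_subset hzB hp h1
    refine sv_eq' l₁ (fun l hlr hne => (hB _ hin).1 l (hlr.trans_le hr) hne) ?_
    have h1 : F l₁ (seg g z t) = 0 := by
      rw [hl, seg_eq_slp hz]
      simp
      ring
    have h2 : F l₁ z = 0 := by
      rw [hl]
      unfold slp
      field_simp
      ring
    rw [h1, h2]
  refine ⟨fun s => (s = 0 ∧ Vis S g z) ∨ (s = 1 ∧ ∃ p ∈ B ∩ {p | 0 < F l₁ p}, Vis S g p) ∨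
    (s = -1 ∧ ∃ p ∈ B ∩ {p | F l₁ p < 0}, Vis S g p), ?_⟩
  filter_upwards [Metric.ball_mem_nhds z hε] with p hp
  rcases lt_trichotomy (F l₁ p) 0 with h | h | h
  · rw [sign_neg h]
    constructor
    · intro hv
      exact Or.inr (Or.inr ⟨rfl, p, ⟨hp, h⟩, hv⟩)
    · rintro (⟨h1, _⟩ | ⟨h1, _⟩ | ⟨_, q, hq, hv⟩)
      · exact absurd h1 (by decide)
      · exact absurd h1 (by decide)
      · exact (km p ⟨hp, h⟩ q hq).2 hv
  · rw [h, sign_zero]
    constructor
    · intro hv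
      exact Or.inl ⟨rfl, (k0 p hp h).1 hv⟩
    · rintro (⟨_, h1⟩ | ⟨h1, _⟩ | ⟨h1, _⟩)
      · exact (k0 p hp h).2 h1
      · exact absurd h1 (by decide)
      · exact absurd h1 (by decide)
  · rw [sign_pos h]
    constructor
    · intro hv
      exact Or.inr (Or.inl ⟨rfl, p, ⟨hp, h⟩, hv⟩)
    · rintro (⟨h1, _⟩ | ⟨_, q, hq, hv⟩ | ⟨h1, _⟩)
      · exact absurd h1 (by decide)
      · exact (kp p ⟨hp, h⟩ q hq).2 hv
      · exact absurd h1 (by decide)

/-- The points which are not seen by any guard. -/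
def Bad (S : Set (ℝ × ℝ)) (g : ℕ → ℝ × ℝ) (k : ℕ) (z : ℝ × ℝ) : Prop :=
  z ∈ S ∧ ∀ i < k, ¬ Vis S (g i) z

/-- The assumptions on the guards and the critical directions. -/
structure Crit (r r' k : ℕ) (F : ℕ → ℝ × ℝ → ℝ) (S : Set (ℝ × ℝ)) (g : ℕ → ℝ × ℝ)
    (M : ℕ → Finset ℝ) : Prop where
  hF : ∀ l, ContDiff ℝ 1 (F l)
  hr : r ≤ r'
  hS : ∀ p p' : ℝ × ℝ, sv r F p = sv r F p' → (p ∈ S ↔ p' ∈ S)
  hg : ∀ i < k, g i ∈ S
  hM : ∀ i < k, ∀ m ∉ M i, Trans r F (g i) m
  hL : ∀ i < k, ∀ m ∈ M i, ∃ l < r', ∀ p, F l p = p.2 - (g i).2 - m * (p.1 - (g i).1)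

theorem line_zero {g z : ℝ × ℝ} (hz : z.1 ≠ g.1) :
    z.2 - g.2 - slp g z * (z.1 - g.1) = 0 := by
  have := sub_ne_zero.2 hz
  unfold slp
  field_simp
  ring

/-- Near a point where no function vanishes the visibility is constant. -/
theorem vis_const (h : Crit r r' k F S g M) {i : ℕ} (hi : i < k) {z : ℝ × ℝ}
    (hz : z.1 ≠ (g i).1) (h0 : ∀ l < r', F l z ≠ 0) :
    ∀ᶠ z' in 𝓝 z, (Vis S (g i) z' ↔ Vis S (g i) z) := by
  have hm : slp (g i) z ∉ M i := by
    intro hm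
    obtain ⟨l, hl, hl'⟩ := h.hL i hi _ hm
    exact h0 l hl (by rw [hl', line_zero hz])
  obtain ⟨R, hR⟩ := vis_trans h.hF h.hS (h.hg i hi) hz (h.hM i hi _ hm)
  have hsv := nb' (fun l => (h.hF l).continuous) (r := r) (w := z)
    fun l hl => h0 l (hl.trans_le h.hr)
  have hR0 := hR.self_of_nhds
  filter_upwards [hR, hsv] with y hy1 hy2
  rw [hy1, hy2, ← hR0]

theorem ev_lt {X : Type*} [TopologicalSpace X] {x : X} {k : ℕ} {P : ℕ → X → Prop}
    (h : ∀ i < k, ∀ᶠ y in 𝓝 x, P i y) : ∀ᶠ y in 𝓝 x, ∀ i < k, P i y := by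
  have : ∀ᶠ y in 𝓝 x, ∀ i ∈ Finset.range k, P i y := by
    rw [Filter.eventually_all_finset]
    exact fun i hi => h i (Finset.mem_range.1 hi)
  exact this.mono fun y hy i hi => hy i (Finset.mem_range.2 hi)

/-- Near a point where no function vanishes `Bad` is constant. -/
theorem bad_const (h : Crit r r' k F S g M) {z : ℝ × ℝ}
    (hz : ∀ i < k, z.1 ≠ (g i).1) (h0 : ∀ l < r', F l z ≠ 0) :
    ∀ᶠ z' in 𝓝 z, (Bad S g k z' ↔ Bad S g k z) := by
  have hsv := nb' (fun l => (h.hF l).continuous) (r := r) (w := z)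
    fun l hl => h0 l (hl.trans_le h.hr)
  have hv := ev_lt fun i (hi : i < k) => vis_const h hi (hz i hi) h0
  filter_upwards [hsv, hv] with y hy1 hy2
  unfold Bad
  rw [h.hS _ _ hy1]
  refine and_congr Iff.rfl (forall₂_congr fun i hi => ?_)
  rw [hy2 i hi]

/-- Near a point where one function vanishes `Bad` depends on the sign of this function. -/
theorem bad_sign (h : Crit r r' k F S g M) {z : ℝ × ℝ}
    (hz : ∀ i < k, z.1 ≠ (g i).1) {l₀ : ℕ} (_ : l₀ < r') (_ : F l₀ z = 0)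
    (ho : ∀ l < r', l ≠ l₀ → F l z ≠ 0) :
    ∃ R : SignType → Prop, ∀ᶠ z' in 𝓝 z, (Bad S g k z' ↔ R (SignType.sign (F l₀ z'))) := by
  classical
  have hnb := nb (fun l => (h.hF l).continuous) (r := r) (w := z) (l₀ := l₀)
    fun l hl => ho l (hl.trans_le h.hr)
  let vec : SignType → ℕ → SignType := fun s l =>
    if l < r then (if l = l₀ then s else SignType.sign (F l z)) else 0
  have hvec : ∀ᶠ p in 𝓝 z, sv r F p = vec (SignType.sign (F l₀ p)) := by
    refine hnb.mono fun p hp => ?_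
    funext l
    simp only [sv, vec]
    split_ifs with h1 h2
    · rw [h2]
    · exact hp l h1 h2
    · rfl
  have hv : ∀ i < k, ∃ R : SignType → Prop,
      ∀ᶠ z' in 𝓝 z, (Vis S (g i) z' ↔ R (SignType.sign (F l₀ z'))) := by
    intro i hi
    by_cases hm : slp (g i) z ∈ M i
    · obtain ⟨l, hl, hl'⟩ := h.hL i hi _ hm
      have : l = l₀ := by
        by_contra hne
        exact ho l hl hne (by rw [hl', line_zero (hz i hi)])
      subst this
      exact vis_crit h.hF h.hr h.hS (h.hg i hi) (h.hM i hi) (hz i hi) hl' ho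
    · obtain ⟨R, hR⟩ := vis_trans h.hF h.hS (h.hg i hi) (hz i hi) (h.hM i hi _ hm)
      refine ⟨fun s => R (vec s), ?_⟩
      filter_upwards [hR, hvec] with p hp1 hp2
      rw [hp1, hp2]
  choose! R hR using hv
  refine ⟨fun s => (∃ p ∈ S, sv r F p = vec s) ∧ ∀ i < k, ¬ R i s, ?_⟩
  filter_upwards [hvec, ev_lt hR] with p hp1 hp2
  unfold Bad
  refine and_congr ?_ (forall₂_congr fun i hi => ?_)
  · constructor
    · intro hp
      exact ⟨p, hp, hp1⟩
    · rintro ⟨q, hq, hq'⟩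
      exact (h.hS _ _ (hp1.trans hq'.symm)).2 hq
  · rw [hp2 i hi]

/-- Generic vertical lines. -/
def VTrans (r' : ℕ) (F : ℕ → ℝ × ℝ → ℝ) (x : ℝ) : Prop :=
  ∀ y, ∀ l < r', F l (x, y) = 0 → fderiv ℝ (F l) (x, y) ((0 : ℝ), (1 : ℝ)) ≠ 0 ∧
    ∀ l' < r', l' ≠ l → F l' (x, y) ≠ 0

theorem hasDeriv_vert {F : ℝ × ℝ → ℝ} (hF : ContDiff ℝ 1 F) (x t : ℝ) :
    HasDerivAt (fun t => F (x, t)) (fderiv ℝ F (x, t) ((0 : ℝ), (1 : ℝ))) t := by
  have h1 : HasFDerivAt F (fderiv ℝ F (x, t)) (x, t) :=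
    (hF.differentiable (by norm_num)).differentiableAt.hasFDerivAt
  have h2 : HasDerivAt (fun t : ℝ => (x, t)) ((0 : ℝ), (1 : ℝ)) t :=
    (hasDerivAt_const t x).prodMk (hasDerivAt_id t)
  exact h1.comp_hasDerivAt t h2

/-- Signs near a simple zero on a vertical line. -/
theorem vert_crossing {F : ℝ × ℝ → ℝ} (hF : ContDiff ℝ 1 F) {x₀ y₀ : ℝ} (h0 : F (x₀, y₀) = 0)
    (hd : fderiv ℝ F (x₀, y₀) ((0 : ℝ), (1 : ℝ)) ≠ 0) {U : Set (ℝ × ℝ)} (hU : U ∈ 𝓝 (x₀, y₀)) :
    (∀ s : SignType, ∃ y, (x₀, y) ∈ U ∧ SignType.sign (F (x₀, y)) = s) ∧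
    ∀ᶠ x in 𝓝 x₀, ∃ y, (x, y) ∈ U ∧ F (x, y) = 0 := by
  have hc : Continuous fun q : ℝ × ℝ => fderiv ℝ F (q.1, q.2) ((0 : ℝ), (1 : ℝ)) := by
    have h1 := hF.continuous_fderiv_apply (by norm_num)
    have h2 : Continuous fun q : ℝ × ℝ => (((q.1, q.2) : ℝ × ℝ), (((0 : ℝ), (1 : ℝ)) : ℝ × ℝ)) := by
      fun_prop
    exact h1.comp h2
  obtain ⟨σ, hσ, ε₁, hε₁, h1⟩ := crossing (f := fun x t => F (x, t))
    (f' := fun x t => fderiv ℝ F (x, t) ((0 : ℝ), (1 : ℝ))) (x₀ := x₀) (t₀ := y₀)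
    hc (fun x t => hasDeriv_vert hF x t) hd
  obtain ⟨ε₂, hε₂, h2⟩ := ev_prod (P := fun x t => ((x, t) : ℝ × ℝ) ∈ U) hU
  set ε := min ε₁ ε₂ with hε
  have hε0 : 0 < ε := lt_min hε₁ hε₂
  have e1 : ε ≤ ε₁ := min_le_left _ _
  have e2 : ε ≤ ε₂ := min_le_right _ _
  have hm := h1.self_of_nhds.mono (Icc_subset_Icc (sub_le_sub_left e1 y₀)
    (add_le_add_right e1 y₀))
  have a1 : σ * F (x₀, y₀ - ε) < 0 := by
    have := hm (a := y₀ - ε) (b := y₀) ⟨le_rfl, by linarith⟩ ⟨by linarith, by linarith⟩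
      (by linarith)
    simp only [h0, mul_zero] at this
    exact this
  have a2 : 0 < σ * F (x₀, y₀ + ε) := by
    have := hm (a := y₀) (b := y₀ + ε) ⟨by linarith, by linarith⟩ ⟨by linarith, le_rfl⟩
      (by linarith)
    simp only [h0, mul_zero] at this
    exact this
  have u1 : (x₀, y₀ - ε) ∈ U := h2.self_of_nhds _ (by rw [abs_le]; constructor <;> linarith)
  have u2 : (x₀, y₀ + ε) ∈ U := h2.self_of_nhds _ (by rw [abs_le]; constructor <;> linarith)
  have u0 : (x₀, y₀) ∈ U := h2.self_of_nhds _ (by rw [sub_self, abs_zero]; exact hε₂.le)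
  constructor
  · intro s
    rcases hσ with rfl | rfl
    · rw [one_mul] at a1 a2
      cases s
      · exact ⟨y₀, u0, by rw [h0, sign_zero]; rfl⟩
      · exact ⟨y₀ - ε, u1, by rw [sign_neg a1]; rfl⟩
      · exact ⟨y₀ + ε, u2, by rw [sign_pos a2]; rfl⟩
    · cases s
      · exact ⟨y₀, u0, by rw [h0, sign_zero]; rfl⟩
      · exact ⟨y₀ + ε, u2, by rw [sign_neg (show F (x₀, y₀ + ε) < 0 by linarith)]; rfl⟩
      · exact ⟨y₀ - ε, u1, by rw [sign_pos (show 0 < F (x₀, y₀ - ε) by linarith)]; rfl⟩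
  · have c1 : ∀ t, Continuous fun x => σ * F (x, t) := fun t =>
      continuous_const.mul (hF.continuous.comp (by fun_prop))
    filter_upwards [h2, (c1 (y₀ - ε)).continuousAt.eventually (gt_mem_nhds a1),
      (c1 (y₀ + ε)).continuousAt.eventually (lt_mem_nhds a2)] with x k2 k3 k4
    have hcx : ContinuousOn (fun t => σ * F (x, t)) (Icc (y₀ - ε) (y₀ + ε)) :=
      (continuous_const.mul (hF.continuous.comp (by fun_prop))).continuousOn
    obtain ⟨t, ht, ht0⟩ := intermediate_value_Icc (by linarith) hcx ⟨k3.le, k4.le⟩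
    refine ⟨t, k2 t (by rw [abs_le]; constructor <;> linarith [ht.1, ht.2]), ?_⟩
    simp only at ht0
    rcases hσ with rfl | rfl <;> linarith

/-- The existence of bad points is locally constant on generic vertical lines. -/
theorem strip (h : Crit r r' k F S g M) {x₀ : ℝ}
    (hx : ∀ᶠ x in 𝓝 x₀, VTrans r' F x ∧ ∀ i < k, x ≠ (g i).1)
    (hb : ∃ δ > 0, ∃ C : ℝ, ∀ x, |x - x₀| < δ → ∀ y, C ≤ |y| → ∀ l < r', F l (x, y) ≠ 0) :
    ∀ᶠ x in 𝓝 x₀, ((∃ y, Bad S g k (x, y)) ↔ ∃ y, Bad S g k (x₀, y)) := by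
  obtain ⟨hx0, hxg⟩ := hx.self_of_nhds
  -- from `x₀` to `x`
  have h1 : (∃ y, Bad S g k (x₀, y)) → ∀ᶠ x in 𝓝 x₀, ∃ y, Bad S g k (x, y) := by
    rintro ⟨y, hy⟩
    by_cases hz : ∃ l₀ < r', F l₀ (x₀, y) = 0
    · obtain ⟨l₀, hl₀, h0⟩ := hz
      obtain ⟨hd, ho⟩ := hx0 y l₀ hl₀ h0
      obtain ⟨R, hR⟩ := bad_sign h (z := (x₀, y)) hxg hl₀ h0 ho
      have hR0 := hR.self_of_nhds.1 hy
      rw [h0] at hR0
      refine (vert_crossing (h.hF l₀) h0 hd hR).2.mono fun x ⟨y', hy', hy0⟩ => ⟨y', ?_⟩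
      refine hy'.2 ?_
      rw [hy0]
      exact hR0
    · push Not at hz
      have h2 := bad_const h (z := (x₀, y)) hxg hz
      have h3 : ContinuousAt (fun x : ℝ => (x, y)) x₀ := by fun_prop
      exact (h3.eventually h2).mono fun x hx' => ⟨y, hx'.2 hy⟩
  -- from `x` to `x₀`
  have h2 : ∀ y, ∀ᶠ q : ℝ × ℝ in 𝓝 (x₀, y), Bad S g k q → ∃ y, Bad S g k (x₀, y) := by
    intro y
    by_cases hz : ∃ l₀ < r', F l₀ (x₀, y) = 0
    · obtain ⟨l₀, hl₀, h0⟩ := hz
      obtain ⟨hd, ho⟩ := hx0 y l₀ hl₀ h0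
      obtain ⟨R, hR⟩ := bad_sign h (z := (x₀, y)) hxg hl₀ h0 ho
      have h3 := (vert_crossing (h.hF l₀) h0 hd hR).1
      refine hR.mono fun q hq hbad => ?_
      obtain ⟨y', hy', hs⟩ := h3 (SignType.sign (F l₀ q))
      refine ⟨y', hy'.2 ?_⟩
      rw [hs]
      exact hq.1 hbad
    · push Not at hz
      exact (bad_const h (z := (x₀, y)) hxg hz).mono fun q hq hbad => ⟨y, hq.1 hbad⟩
  obtain ⟨δ, hδ, C, hC⟩ := hb
  have h3 : ∀ᶠ x in 𝓝 x₀, ∀ y ∈ Icc (-C) C, Bad S g k (x, y) → ∃ y, Bad S g k (x₀, y) :=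
    isCompact_Icc.eventually_forall_of_forall_eventually fun y _ => h2 y
  obtain ⟨δ', hδ', h4⟩ := Metric.eventually_nhds_iff_ball.1 hx
  have h5 : ∀ x, |x - x₀| < min δ δ' → ∀ y, C ≤ |y| → Bad S g k (x, y) → Bad S g k (x₀, y) := by
    intro x hxd y hy hbad
    have hconv : IsPreconnected (Metric.ball x₀ (min δ δ') ×ˢ {y} : Set (ℝ × ℝ)) :=
      (((convex_ball x₀ _).prod (convex_singleton y))).isPreconnected
    refine (pred_const hconv (P := fun q => Bad S g k q) ?_ (x := (x, y)) (y := (x₀, y)) ?_ ?_).1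
      hbad
    · rintro ⟨a, b⟩ ⟨ha, hb'⟩
      rw [mem_singleton_iff] at hb'
      simp only at ha hb'
      subst hb'
      rw [Metric.mem_ball, Real.dist_eq] at ha
      refine (bad_const h (z := (a, b)) ?_ ?_).filter_mono nhdsWithin_le_nhds
      · exact (h4 a (by
          rw [Metric.mem_ball, Real.dist_eq]
          exact ha.trans_le (min_le_right _ _))).2
      · exact hC a (ha.trans_le (min_le_left _ _)) b hy
    · exact ⟨by rw [Metric.mem_ball, Real.dist_eq]; exact hxd, rfl⟩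
    · exact ⟨Metric.mem_ball_self (lt_min hδ hδ'), rfl⟩
  have h6 : ∀ᶠ x in 𝓝 x₀, |x - x₀| < min δ δ' := by
    filter_upwards [Metric.ball_mem_nhds x₀ (lt_min hδ hδ')] with x hx
    rwa [Metric.mem_ball, Real.dist_eq] at hx
  by_cases hbad : ∃ y, Bad S g k (x₀, y)
  · exact (h1 hbad).mono fun x hx => ⟨fun _ => hbad, fun _ => hx⟩
  · filter_upwards [h3, h6] with x k1 k2
    refine ⟨?_, fun h => absurd h hbad⟩
    rintro ⟨y, hy⟩
    rcases lt_or_ge |y| C with hc | hc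
    · exact k1 y (abs_le.1 hc.le) hy
    · exact ⟨y, h5 x k2 y hc hy⟩

/-- On a vertical line, `Bad` is locally constant outside of the exceptional points. -/
theorem fiber (h : Crit r r' k F S g M) {x y : ℝ} (h0 : ∀ l < r', F l (x, y) ≠ 0)
    (hg : ∀ i < k, (g i).2 ≠ y) :
    ∀ᶠ y' in 𝓝 y, (Bad S g k (x, y') ↔ Bad S g k (x, y)) := by
  have hsv := nb' (fun l => (h.hF l).continuous) (r := r) (w := (x, y))
    fun l hl => h0 l (hl.trans_le h.hr)
  have hcy : ContinuousAt (fun y' : ℝ => (x, y')) y := by fun_prop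
  have hv : ∀ i < k, ∀ᶠ y' in 𝓝 y, (Vis S (g i) (x, y') ↔ Vis S (g i) (x, y)) := by
    intro i hi
    by_cases hxi : x = (g i).1
    · obtain ⟨ε, hε, hB⟩ := Metric.eventually_nhds_iff_ball.1 (hcy.eventually hsv)
      have hyg : y - (g i).2 ≠ 0 := sub_ne_zero.2 (hg i hi).symm
      have h2 : ∀ᶠ y' in 𝓝 y, 0 < (y' - (g i).2) / (y - (g i).2) := by
        have hc : ContinuousAt (fun y' : ℝ => (y' - (g i).2) / (y - (g i).2)) y := by fun_prop
        exact hc.eventually (lt_mem_nhds (by simp only; rw [div_self hyg]; exact one_pos))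
      filter_upwards [Metric.ball_mem_nhds y hε, h2] with y' hy' hτ
      set τ := (y' - (g i).2) / (y - (g i).2) with hτd
      have hs : ∀ t, seg (g i) (x, y) t = (x, (g i).2 + t * (y - (g i).2)) := by
        intro t
        unfold seg
        ext
        · simp [hxi]
        · simp
      have e1 : ((x, y') : ℝ × ℝ) = seg (g i) (x, y) τ := by
        rw [hs, hτd, div_mul_cancel₀ _ hyg, add_sub_cancel]
      rw [e1]
      refine vis_collinear h.hS hτ fun t ht => ?_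
      rw [hs]
      refine hB _ ?_
      have h3 : (g i).2 + t * (y - (g i).2) ∈ segment ℝ y y' := by
        rw [mem_uIcc] at ht
        rw [segment_eq_image']
        have e2 : y' = (g i).2 + τ * (y - (g i).2) := by
          rw [hτd, div_mul_cancel₀ _ hyg, add_sub_cancel]
        rcases eq_or_ne τ 1 with h4 | h4
        · have : t = 1 := by rcases ht with ht | ht <;> linarith [ht.1, ht.2]
          refine ⟨0, ⟨le_rfl, zero_le_one⟩, ?_⟩
          simp [this]
        · have h5 : τ - 1 ≠ 0 := sub_ne_zero.2 h4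
          refine ⟨(t - 1) / (τ - 1), ?_, ?_⟩
          · rcases ht with ht | ht
            · have : 0 < τ - 1 := lt_of_le_of_ne (by linarith [ht.1, ht.2]) h5.symm
              exact ⟨div_nonneg (by linarith [ht.1]) this.le, by
                rw [div_le_one this]; linarith [ht.2]⟩
            · have : τ - 1 < 0 := lt_of_le_of_ne (by linarith [ht.1, ht.2]) h5
              exact ⟨div_nonneg_of_nonpos (by linarith [ht.2]) this.le, by
                rw [div_le_one_of_neg this]; linarith [ht.1]⟩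
          · simp only [smul_eq_mul]
            rw [e2]
            field_simp
            ring
      exact (convex_ball y ε).segment_subset (Metric.mem_ball_self hε) hy' h3
    · exact hcy.eventually (vis_const h hi (z := (x, y)) hxi h0)
  filter_upwards [hcy.eventually hsv, ev_lt hv] with y' k1 k2
  unfold Bad
  rw [h.hS _ _ k1]
  refine and_congr Iff.rfl (forall₂_congr fun i hi => ?_)
  rw [k2 i hi]

/-- Finitely many sample points suffice. -/
theorem guard_of_samples (h : Crit r r' k F S g M) (hZne : Z.Nonempty)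
    (hZg : ∀ i < k, (g i).1 ∈ Z) (hZ : ∀ x ∉ Z, VTrans r' F x)
    (hbd : ∀ x₀, ∃ δ > 0, ∃ C : ℝ, ∀ x, |x - x₀| < δ → ∀ y, C ≤ |y| → ∀ l < r', F l (x, y) ≠ 0)
    (W : ℝ → Finset ℝ) (hWne : ∀ x, (W x).Nonempty) (hWg : ∀ x ∈ samp Z, ∀ i < k, (g i).2 ∈ W x)
    (hW : ∀ x ∈ samp Z, ∀ y, ∀ l < r', F l (x, y) = 0 → y ∈ W x)
    (hs : ∀ x ∈ samp Z, ∀ y ∈ samp (W x), (x, y) ∈ S → ∃ i < k, Vis S (g i) (x, y)) :
    ∀ p ∈ S, ∃ i < k, Vis S (g i) p := by
  rintro ⟨x, y⟩ hp
  by_contra hcon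
  push Not at hcon
  have hbad : ∃ y, Bad S g k (x, y) := ⟨y, hp, hcon⟩
  -- a sample vertical line
  have h1 : ∃ x' ∈ samp Z, ∃ y, Bad S g k (x', y) := by
    by_cases hx : x ∈ Z
    · exact ⟨x, mem_samp_self hx, hbad⟩
    · obtain ⟨s, hs1, hs2⟩ := exists_samp hZne hx
      refine ⟨s, hs1, ?_⟩
      have hopen : IsOpen ((Z : Set ℝ)ᶜ) := Z.finite_toSet.isClosed.isOpen_compl
      refine (pred_const (C := uIcc s x) isPreconnected_uIcc (P := fun x => ∃ y, Bad S g k (x, y))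
        (fun a ha => ?_) right_mem_uIcc left_mem_uIcc).1 hbad
      have haZ : a ∉ Z := fun hm => hs2 a hm ha
      refine (strip h ?_ (hbd a)).filter_mono nhdsWithin_le_nhds
      filter_upwards [hopen.mem_nhds (by simpa using haZ)] with b hb
      have hb' : b ∉ Z := by simpa using hb
      exact ⟨hZ b hb', fun i hi he => hb' (he ▸ hZg i hi)⟩
  obtain ⟨x', hx', y₁, hy₁⟩ := h1
  -- a sample point
  have h2 : ∃ y' ∈ samp (W x'), Bad S g k (x', y') := by
    by_cases hy : y₁ ∈ W x'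
    · exact ⟨y₁, mem_samp_self hy, hy₁⟩
    · obtain ⟨s, hs1, hs2⟩ := exists_samp (hWne x') hy
      refine ⟨s, hs1, ?_⟩
      refine (pred_const (C := uIcc s y₁) isPreconnected_uIcc (P := fun y => Bad S g k (x', y))
        (fun a ha => ?_) right_mem_uIcc left_mem_uIcc).1 hy₁
      have haW : a ∉ W x' := fun hm => hs2 a hm ha
      refine (fiber h (fun l hl h0 => haW (hW x' hx' a l hl h0)) fun i hi he => haW ?_).filter_mono
        nhdsWithin_le_nhds
      rw [← he]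
      exact hWg x' hx' i hi
  obtain ⟨y', hy', hb⟩ := h2
  obtain ⟨i, hi, hv⟩ := hs x' hx' y' hy' hb.1
  exact hb.2 i hi hv

end

end Pool.Agent.H612.PG
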